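import Pool.Agent.Helper20.RG.St2

set_option autoImplicit false

open MeasureTheory Set Filter Topology
open scoped ENNReal

namespace Pool.Agent.Helper20.RG

open Pool.Agent.Helper68.LM (Pl BB)

namespace CUP

theorem absorb (n : ℕ) (ε : ℝ) (hε : 0 < ε) : ∃ C : ℝ, 0 < C ∧ ∀ u : ℕ,
    (u : ℝ) ^ n * (2 : ℝ) ^ (-(ε * u)) ≤ C * (2 : ℝ) ^ (-(ε / 2 * u)) := by
  have hr0 : (0 : ℝ) ≤ (2 : ℝ) ^ (-(ε / 2)) := by positivity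
  have hr1 : (2 : ℝ) ^ (-(ε / 2)) < 1 :=
    Real.rpow_lt_one_of_one_lt_of_neg (by norm_num) (by linarith)
  have ht := tendsto_pow_const_mul_const_pow_of_lt_one n hr0 hr1
  obtain ⟨C, hC⟩ := ht.bddAbove_range
  refine ⟨max C 1, lt_max_of_lt_right one_pos, fun u => ?_⟩
  have h1 : (u : ℝ) ^ n * ((2 : ℝ) ^ (-(ε / 2))) ^ u ≤ max C 1 :=
    le_trans (hC ⟨u, rfl⟩) (le_max_left _ _)
  have h2 : (2 : ℝ) ^ (-(ε * u)) = ((2 : ℝ) ^ (-(ε / 2))) ^ u * (2 : ℝ) ^ (-(ε / 2 * u)) := by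
    rw [← Real.rpow_natCast, ← Real.rpow_mul (by norm_num), ← Real.rpow_add (by norm_num)]
    congr 1
    ring
  rw [h2, ← mul_assoc]
  exact mul_le_mul_of_nonneg_right h1 (by positivity)

/-- pointwise dyadic decomposition -/
theorem dyad (u : ℕ) (Λ v : ℝ) (hu : 2 * (u : ℝ) ^ 4 ≤ (2 : ℝ) ^ u) (hu1 : 1 ≤ u)
    (hΛ : (2 : ℝ) ^ (-(u : ℤ)) ≤ Λ) (hv0 : 0 ≤ v) (hv1 : v ≤ 1) :
    v ≤ Λ / (2 * (u : ℝ) ^ 4) + ∑ i ∈ (Finset.range (2 * u + 1)).filter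
      (fun i => Λ / (4 * (u : ℝ) ^ 4) ≤ (1 / 2 : ℝ) ^ (i + 1)),
        2 * (1 / 2 : ℝ) ^ (i + 1) * (if (1 / 2 : ℝ) ^ (i + 1) ≤ v then 1 else 0) := by
  have hu0 : (0 : ℝ) < u := by exact_mod_cast hu1
  have hΛ0 : 0 < Λ := lt_of_lt_of_le (by positivity) hΛ
  have hnn : ∀ i : ℕ, 0 ≤ 2 * (1 / 2 : ℝ) ^ (i + 1) * (if (1 / 2 : ℝ) ^ (i + 1) ≤ v then 1 else 0) := by
    intro i
    split_ifs <;> positivity
  by_cases h : v < Λ / (2 * (u : ℝ) ^ 4)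
  · have := Finset.sum_nonneg (s := (Finset.range (2 * u + 1)).filter
      (fun i => Λ / (4 * (u : ℝ) ^ 4) ≤ (1 / 2 : ℝ) ^ (i + 1))) fun i _ => hnn i
    linarith
  · push Not at h
    have hvp : 0 < v := lt_of_lt_of_le (by positivity) h
    obtain ⟨i, hi1, hi2⟩ := exists_nat_pow_near_of_lt_one (x := v) (y := (1 / 2 : ℝ)) hvp hv1
      (by norm_num) (by norm_num)
    -- hi1 : (1/2)^(i+1) < v, hi2 : v ≤ (1/2)^i
    have hη : Λ / (4 * (u : ℝ) ^ 4) ≤ (1 / 2 : ℝ) ^ (i + 1) := by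
      have : Λ / (4 * (u : ℝ) ^ 4) = (Λ / (2 * (u : ℝ) ^ 4)) / 2 := by
        field_simp
        norm_num
      have h7 : (1 / 2 : ℝ) ^ (i + 1) = (1 / 2 : ℝ) ^ i / 2 := by
        rw [pow_succ]
        ring
      rw [this, h7]
      linarith
    have hi : i < 2 * u + 1 := by
      by_contra hcon
      push Not at hcon
      have h3 : (1 / 2 : ℝ) ^ i ≤ (1 / 2 : ℝ) ^ (2 * u + 1) :=
        pow_le_pow_of_le_one (by norm_num) (by norm_num) hcon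
      have h4 : (1 / 2 : ℝ) ^ (2 * u) ≤ Λ / (2 * (u : ℝ) ^ 4) := by
        rw [le_div_iff₀ (by positivity)]
        calc (1 / 2 : ℝ) ^ (2 * u) * (2 * (u : ℝ) ^ 4) ≤ (1 / 2 : ℝ) ^ (2 * u) * (2 : ℝ) ^ u := by
              gcongr
          _ = (2 : ℝ) ^ (-(u : ℤ)) := by
              rw [zpow_neg, zpow_natCast, two_mul, pow_add, mul_assoc, ← mul_pow]
              rw [show (1 / 2 : ℝ) * 2 = 1 by norm_num, one_pow, mul_one, one_div, inv_pow]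
          _ ≤ Λ := hΛ
      have h5 : (1 / 2 : ℝ) ^ (2 * u + 1) < (1 / 2 : ℝ) ^ (2 * u) := by
        rw [pow_succ]
        have : (0 : ℝ) < (1 / 2 : ℝ) ^ (2 * u) := by positivity
        linarith
      linarith
    have hmem : i ∈ (Finset.range (2 * u + 1)).filter
        (fun i => Λ / (4 * (u : ℝ) ^ 4) ≤ (1 / 2 : ℝ) ^ (i + 1)) :=
      Finset.mem_filter.mpr ⟨Finset.mem_range.mpr hi, hη⟩
    have hle := Finset.single_le_sum (f := fun i =>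
      2 * (1 / 2 : ℝ) ^ (i + 1) * (if (1 / 2 : ℝ) ^ (i + 1) ≤ v then 1 else 0))
      (fun i _ => hnn i) hmem
    have hval : 2 * (1 / 2 : ℝ) ^ (i + 1) * (if (1 / 2 : ℝ) ^ (i + 1) ≤ v then 1 else 0) =
        (1 / 2 : ℝ) ^ i := by
      rw [if_pos hi1.le, pow_succ]
      ring
    have h6 : 0 ≤ Λ / (2 * (u : ℝ) ^ 4) := by positivity
    simp only [hval] at hle
    linarith

theorem pigeon (u : ℕ) (Λ : ℝ) (v : ℕ → ℝ) (hu : 2 * (u : ℝ) ^ 4 ≤ (2 : ℝ) ^ u) (hu1 : 9 ≤ u)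
    (hΛ : (2 : ℝ) ^ (-(u : ℤ)) ≤ Λ) (hv : ∀ j < 2 ^ u, |v j| ≤ 1)
    (hav : Λ / (u : ℝ) ^ 4 ≤ |(1 / (2 : ℝ) ^ u) * ∑ j ∈ Finset.range (2 ^ u), v j|) :
    ∃ i ∈ (Finset.range (2 * u + 1)).filter
      (fun i => Λ / (4 * (u : ℝ) ^ 4) ≤ (1 / 2 : ℝ) ^ (i + 1)),
      (2 : ℝ) ^ u * Λ / ((u : ℝ) ^ 6 * (1 / 2 : ℝ) ^ (i + 1)) ≤
        ({j : ℕ | j < 2 ^ u ∧ (1 / 2 : ℝ) ^ (i + 1) ≤ |v j|}.ncard : ℝ) := by
  by_contra hcon
  push Not at hcon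
  have hu0 : (0 : ℝ) < u := by
    have : 0 < u := by omega
    exact_mod_cast this
  have hu9 : (9 : ℝ) ≤ u := by exact_mod_cast hu1
  have hΛ0 : 0 < Λ := lt_of_lt_of_le (by positivity) hΛ
  have hN : (0 : ℝ) < (2 : ℝ) ^ u := by positivity
  set I := (Finset.range (2 * u + 1)).filter
      (fun i => Λ / (4 * (u : ℝ) ^ 4) ≤ (1 / 2 : ℝ) ^ (i + 1)) with hI
  have h1 : (2 : ℝ) ^ u * (Λ / (u : ℝ) ^ 4) ≤ ∑ j ∈ Finset.range (2 ^ u), |v j| := by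
    have h2 : |(1 / (2 : ℝ) ^ u) * ∑ j ∈ Finset.range (2 ^ u), v j| ≤
        (1 / (2 : ℝ) ^ u) * ∑ j ∈ Finset.range (2 ^ u), |v j| := by
      rw [abs_mul, abs_of_pos (by positivity : (0 : ℝ) < 1 / 2 ^ u)]
      gcongr
      exact Finset.abs_sum_le_sum_abs _ _
    have h3 := hav.trans h2
    calc (2 : ℝ) ^ u * (Λ / (u : ℝ) ^ 4) ≤
          (2 : ℝ) ^ u * ((1 / (2 : ℝ) ^ u) * ∑ j ∈ Finset.range (2 ^ u), |v j|) := by gcongr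
      _ = _ := by field_simp
  have h2 : ∑ j ∈ Finset.range (2 ^ u), |v j| ≤ ∑ j ∈ Finset.range (2 ^ u),
      (Λ / (2 * (u : ℝ) ^ 4) + ∑ i ∈ I, 2 * (1 / 2 : ℝ) ^ (i + 1) *
        (if (1 / 2 : ℝ) ^ (i + 1) ≤ |v j| then 1 else 0)) := by
    refine Finset.sum_le_sum fun j hj => ?_
    exact dyad u Λ |v j| hu (by omega) hΛ (abs_nonneg _) (hv j (Finset.mem_range.mp hj))
  rw [Finset.sum_add_distrib, Finset.sum_const, Finset.card_range, Finset.sum_comm] at h2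
  have h3 : ∀ i ∈ I, ∑ j ∈ Finset.range (2 ^ u), 2 * (1 / 2 : ℝ) ^ (i + 1) *
        (if (1 / 2 : ℝ) ^ (i + 1) ≤ |v j| then (1 : ℝ) else 0) ≤
          2 * ((2 : ℝ) ^ u * Λ / (u : ℝ) ^ 6) := by
    intro i hi
    rw [← Finset.mul_sum]
    have h4 : ∑ j ∈ Finset.range (2 ^ u), (if (1 / 2 : ℝ) ^ (i + 1) ≤ |v j| then (1 : ℝ) else 0) =
        ({j : ℕ | j < 2 ^ u ∧ (1 / 2 : ℝ) ^ (i + 1) ≤ |v j|}.ncard : ℝ) := by
      rw [Finset.sum_ite]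
      simp only [Finset.sum_const, nsmul_eq_mul, mul_one, mul_zero, add_zero]
      congr 1
      rw [← Set.ncard_coe_finset]
      congr 1
      ext j
      simp
    rw [h4]
    have h5 := (hcon i hi).le
    calc 2 * (1 / 2 : ℝ) ^ (i + 1) * ({j : ℕ | j < 2 ^ u ∧ (1 / 2 : ℝ) ^ (i + 1) ≤ |v j|}.ncard : ℝ)
        ≤ 2 * (1 / 2 : ℝ) ^ (i + 1) *
          ((2 : ℝ) ^ u * Λ / ((u : ℝ) ^ 6 * (1 / 2 : ℝ) ^ (i + 1))) := by gcongr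
      _ = _ := by field_simp
  have h4 : ∑ i ∈ I, ∑ j ∈ Finset.range (2 ^ u), 2 * (1 / 2 : ℝ) ^ (i + 1) *
        (if (1 / 2 : ℝ) ^ (i + 1) ≤ |v j| then (1 : ℝ) else 0) ≤
          (2 * u + 1) * (2 * ((2 : ℝ) ^ u * Λ / (u : ℝ) ^ 6)) := by
    calc _ ≤ ∑ i ∈ I, 2 * ((2 : ℝ) ^ u * Λ / (u : ℝ) ^ 6) := Finset.sum_le_sum h3
      _ = (I.card : ℝ) * (2 * ((2 : ℝ) ^ u * Λ / (u : ℝ) ^ 6)) := by
          rw [Finset.sum_const, nsmul_eq_mul]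
      _ ≤ _ := by
          gcongr
          have : I.card ≤ 2 * u + 1 := by
            calc I.card ≤ (Finset.range (2 * u + 1)).card := Finset.card_filter_le _ _
              _ = 2 * u + 1 := Finset.card_range _
          exact_mod_cast this
  have h5 : (2 : ℝ) ^ u * (Λ / (u : ℝ) ^ 4) ≤ (2 : ℝ) ^ u * (Λ / (2 * (u : ℝ) ^ 4)) +
      (2 * u + 1) * (2 * ((2 : ℝ) ^ u * Λ / (u : ℝ) ^ 6)) := by
    refine h1.trans (h2.trans ?_)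
    rw [nsmul_eq_mul]
    push_cast
    linarith
  have h6 : (2 : ℝ) ^ u * (Λ / (u : ℝ) ^ 4) = ((2 : ℝ) ^ u * Λ / (u : ℝ) ^ 6) * (u : ℝ) ^ 2 := by
    field_simp
  have h7 : (2 : ℝ) ^ u * (Λ / (2 * (u : ℝ) ^ 4)) =
      ((2 : ℝ) ^ u * Λ / (u : ℝ) ^ 6) * ((u : ℝ) ^ 2 / 2) := by
    field_simp
  rw [h6, h7] at h5
  have h8 : 0 < (2 : ℝ) ^ u * Λ / (u : ℝ) ^ 6 := by positivity
  set y := (2 : ℝ) ^ u * Λ / (u : ℝ) ^ 6 with hy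
  have h9 : y * ((u : ℝ) ^ 2 / 2 - 4 * u - 2) ≤ 0 := by nlinarith [h5]
  have h10 : 0 < (u : ℝ) ^ 2 / 2 - 4 * u - 2 := by nlinarith [hu9]
  have := mul_pos h8 h10
  linarith

theorem cheb (S : Pl → ℝ) (hS : Continuous S) (t : ℝ) (ht : 0 < t) :
    volume {x | t ≤ |S x|} ≤ ENNReal.ofReal (1 / t ^ 2) * ∫⁻ x, ‖S x‖ₑ ^ 2 := by
  have hm : Measurable fun x => ‖S x‖ₑ ^ 2 := (hS.measurable.enorm).pow_const 2
  have h1 := mul_meas_ge_le_lintegral (μ := volume) hm (ENNReal.ofReal (t ^ 2))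
  have h2 : {x | t ≤ |S x|} ⊆ {x | ENNReal.ofReal (t ^ 2) ≤ ‖S x‖ₑ ^ 2} := by
    intro x hx
    have hx' : t ≤ |S x| := hx
    show ENNReal.ofReal (t ^ 2) ≤ ‖S x‖ₑ ^ 2
    rw [Real.enorm_eq_ofReal_abs, ← ENNReal.ofReal_pow (abs_nonneg _)]
    exact ENNReal.ofReal_le_ofReal (pow_le_pow_left₀ ht.le hx' 2)
  calc volume {x | t ≤ |S x|} = ENNReal.ofReal (1 / t ^ 2) *
        (ENNReal.ofReal (t ^ 2) * volume {x | t ≤ |S x|}) := by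
        rw [← mul_assoc, ← ENNReal.ofReal_mul (by positivity),
          show 1 / t ^ 2 * t ^ 2 = (1 : ℝ) by field_simp, ENNReal.ofReal_one, one_mul]
    _ ≤ ENNReal.ofReal (1 / t ^ 2) *
        (ENNReal.ofReal (t ^ 2) * volume {x | ENNReal.ofReal (t ^ 2) ≤ ‖S x‖ₑ ^ 2}) := by
        gcongr
    _ ≤ ENNReal.ofReal (1 / t ^ 2) * ∫⁻ x, ‖S x‖ₑ ^ 2 := by gcongr

theorem rw_pow (u : ℕ) (a : ℝ) : (2 : ℝ) ^ (a * u) = ((2 : ℝ) ^ u) ^ a := by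
  rw [← Real.rpow_natCast 2 u, ← Real.rpow_mul (by norm_num), mul_comm]

/-- numbers of the first case -/
theorem num1 (u : ℕ) (K Cf σ q Λ : ℝ) (hCf : 1 ≤ Cf) (hσ : 2 < σ) (hq : σ < q) (hq3 : q < 3)
    (hΛ : 0 < Λ) (hK0 : 0 ≤ K) (hK : K ≤ Cf * (2 : ℝ) ^ (σ * u))
    (hsm : (2 : ℝ) ^ u * Λ ≤ (2 : ℝ) ^ ((q - σ) / 2 * u)) (hu : 1 ≤ u) :
    1 / ((2 : ℝ) ^ u * (Λ / (u : ℝ) ^ 4)) ^ 2 * (Cf * (K + u + 1)) ≤
      Cf * (Cf + 1) * ((u : ℝ) ^ 8 * (2 : ℝ) ^ (-((q - σ) / 2 * u))) * Λ ^ (-q) := by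
  have hu0 : (0 : ℝ) < u := by exact_mod_cast hu
  have hN : (1 : ℝ) ≤ (2 : ℝ) ^ u := one_le_pow₀ (by norm_num)
  have hN0 : (0 : ℝ) < (2 : ℝ) ^ u := by positivity
  have e1 : (u : ℝ) + 1 ≤ (2 : ℝ) ^ (σ * u) := by
    rw [rw_pow]
    calc (u : ℝ) + 1 ≤ (2 : ℝ) ^ u := by
          have : u + 1 ≤ 2 ^ u := Nat.lt_two_pow_self
          exact_mod_cast this
      _ = ((2 : ℝ) ^ u) ^ (1 : ℝ) := (Real.rpow_one _).symm
      _ ≤ ((2 : ℝ) ^ u) ^ σ := Real.rpow_le_rpow_of_exponent_le hN (by linarith)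
  have e2 : K + u + 1 ≤ (Cf + 1) * ((2 : ℝ) ^ u) ^ σ := by
    rw [← rw_pow]
    nlinarith
  set N := (2 : ℝ) ^ u with hNdef
  have e3 : (2 : ℝ) ^ (-((q - σ) / 2 * u)) = N ^ (-((q - σ) / 2)) := by
    rw [show -((q - σ) / 2 * (u : ℝ)) = -((q - σ) / 2) * u by ring, rw_pow]
  rw [e3]
  rw [rw_pow, ← hNdef] at hsm
  have e4 : (N * Λ) ^ (q - 2) ≤ N ^ ((q - σ) / 2) := by
    have hb : (1 : ℝ) ≤ N ^ ((q - σ) / 2) := Real.one_le_rpow hN (by linarith)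
    calc (N * Λ) ^ (q - 2) ≤ (N ^ ((q - σ) / 2)) ^ (q - 2) :=
          Real.rpow_le_rpow (by positivity) hsm (by linarith)
      _ ≤ (N ^ ((q - σ) / 2)) ^ (1 : ℝ) := Real.rpow_le_rpow_of_exponent_le hb (by linarith)
      _ = N ^ ((q - σ) / 2) := Real.rpow_one _
  have e5 : 1 / (N * Λ) ^ 2 * N ^ σ = Λ ^ (-q) * (N * Λ) ^ (q - 2) * N ^ (σ - q) := by
    rw [← Real.rpow_natCast (N * Λ) 2, Real.mul_rpow hN0.le hΛ.le, Real.mul_rpow hN0.le hΛ.le,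
      one_div, mul_inv, ← Real.rpow_neg hN0.le, ← Real.rpow_neg hΛ.le]
    have a1 : N ^ (-((2 : ℕ) : ℝ)) * Λ ^ (-((2 : ℕ) : ℝ)) * N ^ σ =
        N ^ (-((2 : ℕ) : ℝ) + σ) * Λ ^ (-((2 : ℕ) : ℝ)) := by
      rw [Real.rpow_add hN0]
      ring
    have a2 : Λ ^ (-q) * (N ^ (q - 2) * Λ ^ (q - 2)) * N ^ (σ - q) =
        N ^ (q - 2 + (σ - q)) * Λ ^ (-q + (q - 2)) := by
      rw [Real.rpow_add hN0, Real.rpow_add hΛ]
      ring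
    rw [a1, a2]
    push_cast
    congr 2 <;> ring
  calc 1 / (N * (Λ / (u : ℝ) ^ 4)) ^ 2 * (Cf * (K + u + 1))
      ≤ 1 / (N * (Λ / (u : ℝ) ^ 4)) ^ 2 * (Cf * ((Cf + 1) * N ^ σ)) := by gcongr
    _ = Cf * (Cf + 1) * (u : ℝ) ^ 8 * (1 / (N * Λ) ^ 2 * N ^ σ) := by
        field_simp
    _ = Cf * (Cf + 1) * (u : ℝ) ^ 8 * (Λ ^ (-q) * (N * Λ) ^ (q - 2) * N ^ (σ - q)) := by rw [e5]
    _ ≤ Cf * (Cf + 1) * (u : ℝ) ^ 8 * (Λ ^ (-q) * N ^ ((q - σ) / 2) * N ^ (σ - q)) := by gcongr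
    _ = Cf * (Cf + 1) * ((u : ℝ) ^ 8 * N ^ (-((q - σ) / 2))) * Λ ^ (-q) := by
        have : N ^ ((q - σ) / 2) * N ^ (σ - q) = N ^ (-((q - σ) / 2)) := by
          rw [← Real.rpow_add hN0]
          congr 1
          ring
        rw [← this]
        ring

end CUP

open CUP

theorem hCU (hCLS : StCLS) : StCU := by
  intro Cf A σ q hCf hA hσ hq hq3
  obtain ⟨u₁, C₁, ε₁, hC₁, hε₁, H⟩ := hCLS Cf A σ q hCf hA hσ hq hq3
  obtain ⟨Ca, hCa, Ha⟩ := absorb 8 ((q - σ) / 2) (by linarith)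
  obtain ⟨Cb, hCb, Hb⟩ := absorb 1 ε₁ hε₁
  -- large u
  obtain ⟨u₂, hu₂⟩ : ∃ u₂ : ℕ, ∀ u : ℕ, u₂ ≤ u → 2 * (u : ℝ) ^ 4 ≤ (2 : ℝ) ^ u := by
    have ht := tendsto_pow_const_mul_const_pow_of_lt_one 4 (r := (1 / 2 : ℝ)) (by norm_num)
      (by norm_num)
    have h1 : ∀ᶠ n : ℕ in atTop, (n : ℝ) ^ 4 * (1 / 2 : ℝ) ^ n < 1 / 2 :=
      ht.eventually (gt_mem_nhds (by norm_num))
    obtain ⟨u₂, h⟩ := eventually_atTop.mp h1
    refine ⟨u₂, fun u hu => ?_⟩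
    have h2 := h u hu
    rw [one_div, inv_pow, ← div_eq_mul_inv, div_lt_iff₀ (by positivity)] at h2
    linarith
  refine ⟨max (max u₁ u₂) 9, Cf * (Cf + 1) * Ca + 3 * C₁ * Cb, min ((q - σ) / 2 / 2) (ε₁ / 2),
    by positivity, lt_min (by linarith) (by linarith), ?_⟩
  intro u K s g Zf Λ G hu hF hK hSl hg hg01 hLoc hΛ hΛ1
  have hu1 : u₁ ≤ u := le_trans (le_trans (le_max_left _ _) (le_max_left _ _)) hu
  have hu2 : u₂ ≤ u := le_trans (le_trans (le_max_right _ _) (le_max_left _ _)) hu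
  have hu9 : 9 ≤ u := le_trans (le_max_right _ _) hu
  have hu0 : (0 : ℝ) < u := by
    have : 0 < u := by omega
    exact_mod_cast this
  have hu9' : (9 : ℝ) ≤ u := by exact_mod_cast hu9
  have hΛ0 : 0 < Λ := lt_of_lt_of_le (by positivity) hΛ
  have hmin1 : (2 : ℝ) ^ (-((q - σ) / 2 / 2 * u)) ≤
      (2 : ℝ) ^ (-(min ((q - σ) / 2 / 2) (ε₁ / 2) * u)) := by
    apply Real.rpow_le_rpow_of_exponent_le (by norm_num)
    have := mul_le_mul_of_nonneg_right (min_le_left ((q - σ) / 2 / 2) (ε₁ / 2)) hu0.le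
    linarith
  have hmin2 : (2 : ℝ) ^ (-(ε₁ / 2 * u)) ≤
      (2 : ℝ) ^ (-(min ((q - σ) / 2 / 2) (ε₁ / 2) * u)) := by
    apply Real.rpow_le_rpow_of_exponent_le (by norm_num)
    have := mul_le_mul_of_nonneg_right (min_le_right ((q - σ) / 2 / 2) (ε₁ / 2)) hu0.le
    linarith
  set E : ℝ := (2 : ℝ) ^ (-(min ((q - σ) / 2 / 2) (ε₁ / 2) * u)) with hE
  have hE0 : 0 < E := by positivity
  have hLq : 0 < Λ ^ (-q) := by positivity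
  by_cases hcase : (2 : ℝ) ^ ((q - σ) / 2 * u) ≤ (2 : ℝ) ^ u * Λ
  · -- second case
    have hset : ∀ k : ℤ, volume {x | x ∈ G ∧ Λ / (u : ℝ) ^ 4 ≤
        |(1 / (2 : ℝ) ^ u) * ∑ j ∈ Finset.range (2 ^ u), Zf (om u 0 0) k j x|} ≤
        ∑ i ∈ (Finset.range (2 * u + 1)).filter
          (fun i => Λ / (4 * (u : ℝ) ^ 4) ≤ (1 / 2 : ℝ) ^ (i + 1)),
          volume {x | x ∈ G ∧ (2 : ℝ) ^ u * Λ / ((u : ℝ) ^ 6 * (1 / 2 : ℝ) ^ (i + 1)) ≤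
            ({j : ℕ | j < 2 ^ u ∧ (1 / 2 : ℝ) ^ (i + 1) ≤ |Zf (om u 0 0) k j x|}.ncard : ℝ)} := by
      intro k
      refine le_trans (measure_mono ?_) (measure_biUnion_finset_le _ _)
      rintro x ⟨hxG, hx⟩
      obtain ⟨i, hi, h1⟩ := pigeon u Λ (fun j => Zf (om u 0 0) k j x) (hu₂ u hu2) hu9 hΛ
        (fun j hj => hF.one _ _ _ _ hj) hx
      exact Set.mem_biUnion hi ⟨hxG, h1⟩
    calc ∑' k : ℤ, volume {x | x ∈ G ∧ Λ / (u : ℝ) ^ 4 ≤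
          |(1 / (2 : ℝ) ^ u) * ∑ j ∈ Finset.range (2 ^ u), Zf (om u 0 0) k j x|}
        ≤ ∑' k : ℤ, ∑ i ∈ (Finset.range (2 * u + 1)).filter
          (fun i => Λ / (4 * (u : ℝ) ^ 4) ≤ (1 / 2 : ℝ) ^ (i + 1)),
          volume {x | x ∈ G ∧ (2 : ℝ) ^ u * Λ / ((u : ℝ) ^ 6 * (1 / 2 : ℝ) ^ (i + 1)) ≤
            ({j : ℕ | j < 2 ^ u ∧ (1 / 2 : ℝ) ^ (i + 1) ≤ |Zf (om u 0 0) k j x|}.ncard : ℝ)} :=
          ENNReal.tsum_le_tsum hset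
      _ = ∑ i ∈ (Finset.range (2 * u + 1)).filter
          (fun i => Λ / (4 * (u : ℝ) ^ 4) ≤ (1 / 2 : ℝ) ^ (i + 1)), ∑' k : ℤ,
          volume {x | x ∈ G ∧ (2 : ℝ) ^ u * Λ / ((u : ℝ) ^ 6 * (1 / 2 : ℝ) ^ (i + 1)) ≤
            ({j : ℕ | j < 2 ^ u ∧ (1 / 2 : ℝ) ^ (i + 1) ≤ |Zf (om u 0 0) k j x|}.ncard : ℝ)} :=
          Summable.tsum_finsetSum fun i _ => ENNReal.summable
      _ ≤ ∑ i ∈ (Finset.range (2 * u + 1)).filter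
          (fun i => Λ / (4 * (u : ℝ) ^ 4) ≤ (1 / 2 : ℝ) ^ (i + 1)),
          ENNReal.ofReal (C₁ * (2 : ℝ) ^ (-(ε₁ * u)) * Λ ^ (-q)) * ∫⁻ x, ‖g x‖ₑ ^ 2 := by
          refine Finset.sum_le_sum fun i hi => ?_
          have hi' := (Finset.mem_filter.mp hi).2
          refine H u K s g Zf Λ ((1 / 2 : ℝ) ^ (i + 1)) _ G hu1 hF hK hSl hg hg01 hLoc ?_
          refine ⟨hΛ0, by linarith, hcase, ?_, pow_le_one₀ (by norm_num) (by norm_num), ?_⟩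
          · refine le_trans ?_ hi'
            apply div_le_div_of_nonneg_left hΛ0.le (by positivity)
            have : (u : ℝ) ^ 6 = (u : ℝ) ^ 2 * (u : ℝ) ^ 4 := by ring
            rw [this]
            have : (4 : ℝ) ≤ (u : ℝ) ^ 2 := by nlinarith
            gcongr
          · field_simp
      _ ≤ ((2 * u + 1 : ℕ) : ℝ≥0∞) *
          (ENNReal.ofReal (C₁ * (2 : ℝ) ^ (-(ε₁ * u)) * Λ ^ (-q)) * ∫⁻ x, ‖g x‖ₑ ^ 2) := by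
          rw [Finset.sum_const, nsmul_eq_mul]
          gcongr
          calc _ ≤ (Finset.range (2 * u + 1)).card := Finset.card_filter_le _ _
            _ = 2 * u + 1 := Finset.card_range _
      _ = ENNReal.ofReal ((2 * u + 1) * (C₁ * (2 : ℝ) ^ (-(ε₁ * u)) * Λ ^ (-q))) *
          ∫⁻ x, ‖g x‖ₑ ^ 2 := by
          rw [← mul_assoc, ← ENNReal.ofReal_natCast, ← ENNReal.ofReal_mul (by positivity)]
          push_cast
          rfl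
      _ ≤ _ := by
          refine mul_le_mul_left (ENNReal.ofReal_le_ofReal ?_) _
          have hb := Hb u
          rw [pow_one] at hb
          have h1 : (2 * (u : ℝ) + 1) ≤ 3 * u := by linarith
          calc (2 * (u : ℝ) + 1) * (C₁ * (2 : ℝ) ^ (-(ε₁ * u)) * Λ ^ (-q))
              ≤ (3 * u) * (C₁ * (2 : ℝ) ^ (-(ε₁ * u)) * Λ ^ (-q)) := by gcongr
            _ = 3 * C₁ * ((u : ℝ) * (2 : ℝ) ^ (-(ε₁ * u))) * Λ ^ (-q) := by ring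
            _ ≤ 3 * C₁ * (Cb * (2 : ℝ) ^ (-(ε₁ / 2 * u))) * Λ ^ (-q) := by gcongr
            _ ≤ 3 * C₁ * (Cb * E) * Λ ^ (-q) := by gcongr
            _ ≤ (Cf * (Cf + 1) * Ca + 3 * C₁ * Cb) * E * Λ ^ (-q) := by
                have : 0 ≤ Cf * (Cf + 1) * Ca * E * Λ ^ (-q) := by positivity
                nlinarith
  · -- first case
    push Not at hcase
    have hset : ∀ k : ℤ, volume {x | x ∈ G ∧ Λ / (u : ℝ) ^ 4 ≤
        |(1 / (2 : ℝ) ^ u) * ∑ j ∈ Finset.range (2 ^ u), Zf (om u 0 0) k j x|} ≤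
        ENNReal.ofReal (1 / ((2 : ℝ) ^ u * (Λ / (u : ℝ) ^ 4)) ^ 2) *
          ∫⁻ x, ‖∑ j ∈ Finset.range (2 ^ u), Zf (om u 0 0) k j x‖ₑ ^ 2 := by
      intro k
      refine le_trans (measure_mono ?_) (cheb (fun x => ∑ j ∈ Finset.range (2 ^ u),
        Zf (om u 0 0) k j x) ?_ ((2 : ℝ) ^ u * (Λ / (u : ℝ) ^ 4)) (by positivity))
      · rintro x ⟨hxG, hx⟩
        show (2 : ℝ) ^ u * (Λ / (u : ℝ) ^ 4) ≤ |∑ j ∈ Finset.range (2 ^ u), Zf (om u 0 0) k j x|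
        rw [abs_mul, abs_of_pos (by positivity : (0 : ℝ) < 1 / 2 ^ u)] at hx
        calc (2 : ℝ) ^ u * (Λ / (u : ℝ) ^ 4) ≤ (2 : ℝ) ^ u *
              (1 / (2 : ℝ) ^ u * |∑ j ∈ Finset.range (2 ^ u), Zf (om u 0 0) k j x|) := by gcongr
          _ = _ := by field_simp
      · exact continuous_finsetSum _ fun j hj => hF.cont _ _ _ (Finset.mem_range.mp hj)
    calc ∑' k : ℤ, volume {x | x ∈ G ∧ Λ / (u : ℝ) ^ 4 ≤
          |(1 / (2 : ℝ) ^ u) * ∑ j ∈ Finset.range (2 ^ u), Zf (om u 0 0) k j x|}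
        ≤ ∑' k : ℤ, ENNReal.ofReal (1 / ((2 : ℝ) ^ u * (Λ / (u : ℝ) ^ 4)) ^ 2) *
          ∫⁻ x, ‖∑ j ∈ Finset.range (2 ^ u), Zf (om u 0 0) k j x‖ₑ ^ 2 :=
          ENNReal.tsum_le_tsum hset
      _ = ENNReal.ofReal (1 / ((2 : ℝ) ^ u * (Λ / (u : ℝ) ^ 4)) ^ 2) *
          ∑' k : ℤ, ∫⁻ x, ‖∑ j ∈ Finset.range (2 ^ u), Zf (om u 0 0) k j x‖ₑ ^ 2 :=
          ENNReal.tsum_mul_left
      _ ≤ ENNReal.ofReal (1 / ((2 : ℝ) ^ u * (Λ / (u : ℝ) ^ 4)) ^ 2) *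
          (ENNReal.ofReal (Cf * (K + u + 1)) * ∫⁻ x, ‖g x‖ₑ ^ 2) := by
          gcongr
          exact hF.tot _
      _ = ENNReal.ofReal (1 / ((2 : ℝ) ^ u * (Λ / (u : ℝ) ^ 4)) ^ 2 * (Cf * (K + u + 1))) *
          ∫⁻ x, ‖g x‖ₑ ^ 2 := by
          rw [← mul_assoc, ← ENNReal.ofReal_mul (by positivity)]
      _ ≤ _ := by
          refine mul_le_mul_left (ENNReal.ofReal_le_ofReal ?_) _
          refine (num1 u K Cf σ q Λ hCf hσ hq hq3 hΛ0 (Nat.cast_nonneg _) hK hcase.le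
            (by omega)).trans ?_
          calc Cf * (Cf + 1) * ((u : ℝ) ^ 8 * (2 : ℝ) ^ (-((q - σ) / 2 * u))) * Λ ^ (-q)
              ≤ Cf * (Cf + 1) * (Ca * (2 : ℝ) ^ (-((q - σ) / 2 / 2 * u))) * Λ ^ (-q) :=
                mul_le_mul_of_nonneg_right (mul_le_mul_of_nonneg_left (Ha u) (by positivity))
                  hLq.le
            _ ≤ Cf * (Cf + 1) * (Ca * E) * Λ ^ (-q) := by gcongr
            _ ≤ (Cf * (Cf + 1) * Ca + 3 * C₁ * Cb) * E * Λ ^ (-q) := by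
                have : 0 ≤ 3 * C₁ * Cb * E * Λ ^ (-q) := by positivity
                nlinarith

end Pool.Agent.Helper20.RG
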