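import Pool.Agent.Helper20.RG.St1

set_option autoImplicit false

open MeasureTheory Set Filter Topology
open scoped ENNReal

namespace Pool.Agent.Helper20.RG

open Pool.Agent.Helper68.LM (Pl)

theorem vol_dI (a : ℤ × ℤ) : volume (dI a) = ENNReal.ofReal ((2 : ℝ) ^ a.1) := by
  unfold dI
  rw [Real.volume_Ico]
  congr 1
  ring

theorem meas_dI (a : ℤ × ℤ) : MeasurableSet (dI a) := measurableSet_Ico

theorem dI_sub_dI5 (a : ℤ × ℤ) : dI a ⊆ dI5 a := by
  intro t ht
  have h2 : (0 : ℝ) < (2 : ℝ) ^ a.1 := by positivity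
  unfold dI at ht
  unfold dI5
  constructor
  · nlinarith [ht.1]
  · nlinarith [ht.2.le]

theorem measurable_pr (s : ℝ) : Measurable (pr s) := by
  have h : Continuous (pr s) := by
    unfold pr
    fun_prop
  exact h.measurable

theorem markov_count {ι : Type} [Countable ι] (A B : ι → Set Pl) (hA : ∀ i, MeasurableSet (A i))
    (hB : ∀ i, MeasurableSet (B i)) (c K : ℝ≥0∞) (R H : Set Pl) (G : Pl → ℝ≥0∞)
    (h1 : ∀ x ∈ R, c ≤ ∑' i, (A i).indicator (fun _ => (1 : ℝ≥0∞)) x)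
    (h2 : ∀ i, volume (A i) ≤ K * volume (B i))
    (h3 : ∀ y, ∑' i, (B i).indicator (fun _ => (1 : ℝ≥0∞)) y ≤ H.indicator G y) :
    c * volume R ≤ K * ∫⁻ y in H, G y := by
  have hm : Measurable fun x => ∑' i, (A i).indicator (fun _ => (1 : ℝ≥0∞)) x :=
    Measurable.tsum fun i => measurable_const.indicator (hA i)
  have e1 : ∀ S : ι → Set Pl, (∀ i, MeasurableSet (S i)) →
      ∫⁻ x, ∑' i, (S i).indicator (fun _ => (1 : ℝ≥0∞)) x = ∑' i, volume (S i) := by
    intro S hS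
    rw [lintegral_tsum fun i => (measurable_const.indicator (hS i)).aemeasurable]
    refine tsum_congr fun i => ?_
    rw [lintegral_indicator (hS i)]
    simp
  calc c * volume R ≤ c * volume {x | c ≤ ∑' i, (A i).indicator (fun _ => (1 : ℝ≥0∞)) x} := by
        gcongr
        exact fun x hx => h1 x hx
    _ ≤ ∫⁻ x, ∑' i, (A i).indicator (fun _ => (1 : ℝ≥0∞)) x := mul_meas_ge_le_lintegral hm _
    _ = ∑' i, volume (A i) := e1 A hA
    _ ≤ ∑' i, K * volume (B i) := ENNReal.tsum_le_tsum h2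
    _ = K * ∑' i, volume (B i) := ENNReal.tsum_mul_left
    _ = K * ∫⁻ y, ∑' i, (B i).indicator (fun _ => (1 : ℝ≥0∞)) y := by rw [e1 B hB]
    _ ≤ K * ∫⁻ y, H.indicator G y := by
        gcongr with y
        exact h3 y
    _ ≤ K * ∫⁻ y in H, G y := mul_le_mul_right (lintegral_indicator_le _ _) _

theorem tsum_ind_ge {ι κ : Type} (A : ι → Set Pl) (x : Pl) (Q : Set κ) (hQ : Q.Finite) (g : Q → ι)
    (hg : Function.Injective g) (hx : ∀ q, x ∈ A (g q)) :
    ENNReal.ofReal (Q.ncard : ℝ) ≤ ∑' i, (A i).indicator (fun _ => (1 : ℝ≥0∞)) x := by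
  classical
  haveI : Fintype Q := hQ.fintype
  have h3 : (Q.ncard : ℝ) = (Fintype.card Q : ℝ) := by
    rw [Set.ncard_eq_toFinset_card', Set.toFinset_card]
  rw [h3, ENNReal.ofReal_natCast]
  calc (Fintype.card Q : ℝ≥0∞) = ∑ q : Q, (1 : ℝ≥0∞) := by simp
    _ = ∑' q : Q, (A (g q)).indicator (fun _ => (1 : ℝ≥0∞)) x := by
        rw [tsum_fintype]
        refine Finset.sum_congr rfl fun q _ => ?_
        rw [Set.indicator_of_mem (hx q)]
    _ ≤ ∑' i, (A i).indicator (fun _ => (1 : ℝ≥0∞)) x :=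
        ENNReal.tsum_comp_le_tsum_of_injective hg
          (fun i => (A i).indicator (fun _ => (1 : ℝ≥0∞)) x)

theorem tsum_ind_le {ι κ : Type} (B : ι → Set Pl) (y : Pl) (n : ℕ)
    (h : ∀ T : Finset ι, (∀ i ∈ T, y ∈ B i) → T.card ≤ n) :
    ∑' i, (B i).indicator (fun _ => (1 : ℝ≥0∞)) y ≤ (n : ℝ≥0∞) := by
  classical
  rw [ENNReal.tsum_eq_iSup_sum]
  refine iSup_le fun T => ?_
  have e1 : ∑ i ∈ T, (B i).indicator (fun _ => (1 : ℝ≥0∞)) y =
      ((T.filter fun i => y ∈ B i).card : ℝ≥0∞) := by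
    simp only [Set.indicator_apply]
    rw [Finset.sum_ite]
    simp
  rw [e1]
  exact_mod_cast h _ fun i hi => (Finset.mem_filter.mp hi).2

/-- index type -/
structure Ix (N : ℕ) (s : ℕ → ℝ) (I : ℕ → Set (ℤ × ℤ)) (p : ℤ) (α : ℝ) (H : Set Pl) where
  q : ℕ × ℕ
  a : ℤ × ℤ
  b : ℤ × ℤ
  q1 : q.1 < N
  q2 : q.2 < N
  sl : α < |s q.1 - s q.2|
  ha : a ∈ I q.1
  hb : b ∈ I q.2
  ap : a.1 < p
  bp : b.1 < p
  sub : {y : Pl | pr (s q.1) y ∈ dI a ∧ pr (s q.2) y ∈ dI b} ⊆ H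

theorem Ix.ext' {N : ℕ} {s : ℕ → ℝ} {I : ℕ → Set (ℤ × ℤ)} {p : ℤ} {α : ℝ} {H : Set Pl}
    (i j : Ix N s I p α H) (h1 : i.q = j.q) (h2 : i.a = j.a) (h3 : i.b = j.b) : i = j := by
  cases i
  cases j
  simp only at h1 h2 h3
  subst h1 h2 h3
  rfl

instance {N : ℕ} {s : ℕ → ℝ} {I : ℕ → Set (ℤ × ℤ)} {p : ℤ} {α : ℝ} {H : Set Pl} :
    Countable (Ix N s I p α H) := by
  have h : Function.Injective fun i : Ix N s I p α H => (i.q, i.a, i.b) := by
    intro i j hij
    simp only [Prod.mk.injEq] at hij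
    exact Ix.ext' i j hij.1 hij.2.1 hij.2.2
  exact h.countable

theorem hRF2 (hPT : StPT) (hPAR : StPAR) : StRF2 := by
  intro N s Er F I z p L L₂ α D m nst Γ hR R hRR
  obtain ⟨hΓ, hΓ1, hD⟩ := hR.gam
  have hΓ0 : 0 < Γ := by linarith
  have hm : 0 < m := by linarith [hR.m1.1]
  have hα := hR.al.1
  have key := markov_count (ι := Ix N s I p α (Hs N s I z L L₂))
    (fun i => {x | pr (s i.q.1) x ∈ F i.q.1 ∩ dI i.a ∧ pr (s i.q.2) x ∈ F i.q.2 ∩ dI i.b})
    (fun i => {x | pr (s i.q.1) x ∈ dI i.a ∧ pr (s i.q.2) x ∈ dI i.b}) ?_ ?_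
    (ENNReal.ofReal (18 / 100 * m ^ 2)) (ENNReal.ofReal (4 / Γ ^ 2)) R (Hs N s I z L L₂)
    (fun y => ENNReal.ofReal (Gs N s I y) ^ 2) ?_ ?_ ?_
  · calc volume R = ENNReal.ofReal (1 / (18 / 100 * m ^ 2)) *
          (ENNReal.ofReal (18 / 100 * m ^ 2) * volume R) := by
          rw [← mul_assoc, ← ENNReal.ofReal_mul (by positivity),
            show 1 / (18 / 100 * m ^ 2) * (18 / 100 * m ^ 2) = (1 : ℝ) by field_simp,
            ENNReal.ofReal_one, one_mul]
      _ ≤ ENNReal.ofReal (1 / (18 / 100 * m ^ 2)) * (ENNReal.ofReal (4 / Γ ^ 2) *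
        ∫⁻ y in Hs N s I z L L₂, ENNReal.ofReal (Gs N s I y) ^ 2) := by gcongr
      _ = ENNReal.ofReal (1 / (18 / 100 * m ^ 2) * (4 / Γ ^ 2)) *
        ∫⁻ y in Hs N s I z L L₂, ENNReal.ofReal (Gs N s I y) ^ 2 := by
          rw [← mul_assoc, ← ENNReal.ofReal_mul (by positivity)]
      _ ≤ ENNReal.ofReal (23 / (m ^ 2 * Γ ^ 2)) *
        ∫⁻ y in Hs N s I z L L₂, ENNReal.ofReal (Gs N s I y) ^ 2 := by
          have e : 1 / (18 / 100 * m ^ 2) * (4 / Γ ^ 2) = (400 / 18) / (m ^ 2 * Γ ^ 2) := by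
            field_simp
            norm_num
          have e' : (400 / 18) / (m ^ 2 * Γ ^ 2) ≤ 23 / (m ^ 2 * Γ ^ 2) := by
            apply div_le_div_of_nonneg_right (by norm_num) (by positivity)
          rw [e]
          exact mul_le_mul_left (ENNReal.ofReal_le_ofReal e') _
  · intro i
    exact ((measurable_pr _) ((hR.opn _ i.q1).measurableSet.inter (meas_dI _))).inter
      ((measurable_pr _) ((hR.opn _ i.q2).measurableSet.inter (meas_dI _)))
  · intro i
    exact ((measurable_pr _) (meas_dI _)).inter ((measurable_pr _) (meas_dI _))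
  · intro x hx
    have h1 := hRR x hx
    refine (ENNReal.ofReal_le_ofReal h1).trans ?_
    have hch : ∀ q : {q : ℕ × ℕ | q.1 < N ∧ q.2 < N ∧ α < |s q.1 - s q.2| ∧
        ∃ a ∈ I q.1, ∃ b ∈ I q.2, pr (s q.1) x ∈ F q.1 ∩ dI a ∧ pr (s q.2) x ∈ F q.2 ∩ dI b ∧
          a.1 < p ∧ b.1 < p ∧
          {y : Pl | pr (s q.1) y ∈ dI a ∧ pr (s q.2) y ∈ dI b} ⊆ Hs N s I z L L₂},
        ∃ i : Ix N s I p α (Hs N s I z L L₂), i.q = q.1 ∧
          pr (s i.q.1) x ∈ F i.q.1 ∩ dI i.a ∧ pr (s i.q.2) x ∈ F i.q.2 ∩ dI i.b := by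
      rintro ⟨q, h1, h2, h3, a, ha, b, hb, h4, h5, h6, h7, h8⟩
      exact ⟨⟨q, a, b, h1, h2, h3, ha, hb, h6, h7, h8⟩, rfl, h4, h5⟩
    choose g hg1 hg2 using hch
    refine tsum_ind_ge _ x _ ?_ g ?_ ?_
    · refine ((Finset.range N ×ˢ Finset.range N).finite_toSet).subset ?_
      intro q hq
      simp only [Finset.coe_product, Finset.coe_range, Set.mem_prod, Set.mem_Iio]
      exact ⟨hq.1, hq.2.1⟩
    · intro q q' h
      apply Subtype.ext
      rw [← hg1 q, ← hg1 q', h]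
    · intro q
      exact hg2 q
  · intro i
    have hne : s i.q.1 ≠ s i.q.2 := by
      intro h
      have h3 := i.sl
      rw [h, sub_self, abs_zero] at h3
      linarith
    have e1 := hPAR (s i.q.1) (s i.q.2) (F i.q.1 ∩ dI i.a) (F i.q.2 ∩ dI i.b) hne
      ((hR.opn _ i.q1).measurableSet.inter (meas_dI _))
      ((hR.opn _ i.q2).measurableSet.inter (meas_dI _))
    have e2 := hPAR (s i.q.1) (s i.q.2) (dI i.a) (dI i.b) hne (meas_dI _) (meas_dI _)
    have e3 := (hR.i1 _ i.q1 _ i.ha).2.2 i.ap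
    have e4 := (hR.i1 _ i.q2 _ i.hb).2.2 i.bp
    rw [e1, e2, vol_dI, vol_dI, ← mul_assoc]
    refine mul_le_mul_left ?_ _
    calc volume (F i.q.1 ∩ dI i.a) * volume (F i.q.2 ∩ dI i.b)
        ≤ ENNReal.ofReal (2 * (2 : ℝ) ^ i.a.1 / Γ) * ENNReal.ofReal (2 * (2 : ℝ) ^ i.b.1 / Γ) :=
          mul_le_mul' e3 e4
      _ = ENNReal.ofReal (4 / Γ ^ 2) * (ENNReal.ofReal ((2 : ℝ) ^ i.a.1) *
            ENNReal.ofReal ((2 : ℝ) ^ i.b.1)) := by
          rw [← ENNReal.ofReal_mul (by positivity), ← ENNReal.ofReal_mul (by positivity),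
            ← ENNReal.ofReal_mul (by positivity)]
          congr 1
          field_simp
          ring
  · intro y
    classical
    by_cases hy : ∃ i : Ix N s I p α (Hs N s I z L L₂), pr (s i.q.1) y ∈ dI i.a ∧
        pr (s i.q.2) y ∈ dI i.b
    · obtain ⟨i₀, hi₀⟩ := hy
      have hyH : y ∈ Hs N s I z L L₂ := i₀.sub hi₀
      rw [Set.indicator_of_mem hyH]
      obtain ⟨J, hJ⟩ : ∃ J : Finset ℕ, J = (Finset.range N).filter fun j => pr (s j) y ∈ Om (I j) :=
        ⟨_, rfl⟩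
      have hG : Gs N s I y = (J.card : ℝ) := by
        unfold Gs ind
        simp only [Set.indicator_apply]
        rw [Finset.sum_ite, hJ]
        simp
      rw [hG, ENNReal.ofReal_natCast]
      have e3 : ((J.card : ℝ≥0∞)) ^ 2 = ((J.card ^ 2 : ℕ) : ℝ≥0∞) := by push_cast; ring
      rw [e3]
      refine tsum_ind_le (κ := ℕ) _ y _ ?_
      intro T hT
      have hcard : (J ×ˢ J).card = J.card ^ 2 := by rw [Finset.card_product]; ring
      rw [← hcard]
      refine Finset.card_le_card_of_injOn (fun i => i.q) ?_ ?_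
      · intro i hi
        have hi' := hT i hi
        have k1 : pr (s i.q.1) y ∈ Om (I i.q.1) := by
          unfold Om
          exact Set.mem_biUnion i.ha (dI_sub_dI5 _ hi'.1)
        have k2 : pr (s i.q.2) y ∈ Om (I i.q.2) := by
          unfold Om
          exact Set.mem_biUnion i.hb (dI_sub_dI5 _ hi'.2)
        rw [hJ]
        simp only [Finset.coe_product, Set.mem_prod, Finset.mem_coe, Finset.mem_filter,
          Finset.mem_range]
        exact ⟨⟨i.q1, k1⟩, ⟨i.q2, k2⟩⟩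
      · intro i hi i' hi' hq
        have hiB := hT i hi
        have hiB' := hT i' hi'
        have q1 : i.q.1 = i'.q.1 := by
          have : i.q = i'.q := hq
          rw [this]
        have q2 : i.q.2 = i'.q.2 := by
          have : i.q = i'.q := hq
          rw [this]
        have m1 := hiB.1
        have m2 := hiB.2
        have m1' := hiB'.1
        have m2' := hiB'.2
        have ha' := i'.ha
        have hb' := i'.hb
        rw [← q1] at ha' m1'
        rw [← q2] at hb' m2'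
        have a1 : i.a = i'.a := by
          by_contra hne
          exact (Set.disjoint_left.mp (hR.i2 _ i.q1 _ i.ha _ ha' hne)) m1 m1'
        have a2 : i.b = i'.b := by
          by_contra hne
          exact (Set.disjoint_left.mp (hR.i2 _ i.q2 _ i.hb _ hb' hne)) m2 m2'
        exact Ix.ext' i i' hq a1 a2
    · push Not at hy
      have : ∑' i : Ix N s I p α (Hs N s I z L L₂),
          ({x | pr (s i.q.1) x ∈ dI i.a ∧ pr (s i.q.2) x ∈ dI i.b} : Set Pl).indicator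
            (fun _ => (1 : ℝ≥0∞)) y = 0 := by
        rw [ENNReal.tsum_eq_zero]
        intro i
        exact Set.indicator_of_notMem (fun h => hy i h.1 h.2) _
      rw [this]
      exact bot_le

end Pool.Agent.Helper20.RG
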