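import Pool.Agent.Helper20.RG.Defs2

/-!
# Project RG (MP_cb927e_an): interface statements, part 3 (geometry of convex curves, domination, final steps)

`N = 2^u`.
-/

set_option autoImplicit false

open MeasureTheory Set Filter Topology
open scoped ENNReal RealInnerProductSpace

namespace Pool.Agent.Helper20.RG

open Pool.Agent.Helper68.LM (Pl BB Bd Av HL ft fm DQ)
open Pool.Agent.Helper61.Lacunary (ConditionG LpBounded)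

/-! ## The chords of a convex graph -/

/-- MM (about 150 lines).  `τ` is nondecreasing (Graph).  `trn > 0`: otherwise `τ` is constant on an interval of length `≥ 2^(-u)` in
`[0,1]`, contradicting Gap as `i → ∞`.  `trn ≤ 2`.  So `2^u/trn ≥ 1`, and `2^mm ≤ 2^u/trn < 2^(mm+1)` (floor of `logb`).  `u ≤ mm + 1`: `2^u < 2^(mm+1) trn ≤ 2^(mm+2)`.
`mm ≤ KA`: let `i₀ = ⌊(A 2^u)^σ⌋₊ + 1`, then `A i₀^(-1/σ) < 2^(-u)`; if `trn ≤ 2^(-i₀)` the set of Gap (`θ = τ(left end)`, `i = i₀`) contains an interval of length `≥ 2^(-u)`,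
contradiction; so `2^mm < 2^(u+i₀)`.  Parents: the tripled interval of `j` at level `u` is contained in the one of `j/2` at level `u-1`, so
`trn τ u j ≤ trn τ (u-1) (j/2)`, hence `2^(u-1)/trn τ (u-1) (j/2) ≤ 2^u/trn τ u j`.  Hypotheses: none. -/
def StMM : Prop :=
  ∀ (φ τ : ℝ → ℝ) (A σ : ℝ), Graph φ τ → Gap A σ τ → 0 < A → 0 < σ → ∀ u j : ℕ, 1 ≤ u → j < 2 ^ u →
    0 < trn τ u j ∧ trn τ u j ≤ 2 ∧ (2 : ℝ) ^ (mm τ u j) * trn τ u j ≤ (2 : ℝ) ^ u ∧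
    (2 : ℝ) ^ u < (2 : ℝ) ^ (mm τ u j + 1) * trn τ u j ∧ u ≤ mm τ u j + 1 ∧
    mm τ u j ≤ KA A σ u ∧ (2 ≤ u → mm τ (u - 1) (j / 2) ≤ mm τ u j)

/-- SYS (about 250 lines).  `slope`: Graph.  `cen`: `|φ t - φ 0| ≤ |t|`.  `mm`: MM.  `sep`: the `j` with `|τ(t_j) - θ| ≤ 2^(-i)` (`t_j = tm u j`) are consecutive
(`τ` monotone), `j₁, .., j₂`, and `[t_j₁, t_j₂] ⊆ {t : |τ t - θ| ≤ 2^(-i)}` has length `(j₂ - j₁)/2^u ≤ A i^(-1/σ)`.  `cnt` (first system): `w ≤ 2^u 2^(-m)` gives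
`trn u j > 2^u/2^(m+1) ≥ w/2`.  The `j` with `|τ(t_j) - θ| ≤ T` are consecutive `j₁, .., j₂`; for `j₁+2 ≤ j ≤ j₂-2`, `trn u j ≤ τ(t_(j+2)) - τ(t_(j-2))`, and the sum over these `j`
is at most `4 (τ(t_j₂) - τ(t_j₁)) ≤ 8T`; so at most `4 + 16 T/w` indices count.  Second system: `w ≤ 2^u 2^(-m'(j))` gives `trn (u-1) (j/2) > w/4`, and
`trn (u-1) (j/2) ≤ τ(t_(j+4)) - τ(t_(j-4))` for `j₁+4 ≤ j ≤ j₂-4`, sum at most `16 T`: at most `8 + 64 T/w` indices.  Hypotheses: hPT, hMM. -/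
def StSYS : Prop :=
  ∀ (φ τ : ℝ → ℝ) (A σ : ℝ) (c : Pl), Graph φ τ → Gap A σ τ → 0 < A → 0 < σ → ∀ u : ℕ, 1 ≤ u →
    Sys u (fun j => τ (tm u j)) (ce c φ u) (mm τ u) (mm τ u) 200 (‖c‖ + |φ 0| + 3) (KA A σ u) A σ ∧
    (2 ≤ u → Sys u (fun j => τ (tm u j)) (ce c φ u) (mm τ u) (fun j => mm τ (u - 1) (j / 2)) 200
      (‖c‖ + |φ 0| + 3) (KA A σ u) A σ)

/-- CHI (about 100 lines), parent `j` at level `u`, children `2j`, `2j+1` at level `u+1`: `tm (u+1) (2j) = tm u j - 1/(4·2^u)`, etc.;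
`|τ(t₁) - τ(t)| ≤ trn τ u j ≤ 2^(-m) 2^u` (MM), `|φ(t₁) - φ(t) - τ(t)(t₁ - t)| ≤ |τ(t₁) - τ(t)||t₁ - t| ≤ 2^(-m)/4` (Graph).  Hypotheses: hPT, hMM. -/
def StCHI : Prop :=
  ∀ (φ τ : ℝ → ℝ) (A σ : ℝ) (c : Pl), Graph φ τ → Gap A σ τ → 0 < A → 0 < σ → ∀ u j : ℕ, 1 ≤ u →
    j < 2 ^ u →
      |τ (tm (u + 1) (2 * j)) - τ (tm u j)| ≤ (2 : ℝ) ^ (-(mm τ u j : ℤ)) * (2 : ℝ) ^ u ∧
      |τ (tm (u + 1) (2 * j + 1)) - τ (tm u j)| ≤ (2 : ℝ) ^ (-(mm τ u j : ℤ)) * (2 : ℝ) ^ u ∧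
      (ce c φ (u + 1) (2 * j)) 0 = (ce c φ u j) 0 - 1 / (4 * (2 : ℝ) ^ u) ∧
      (ce c φ (u + 1) (2 * j + 1)) 0 = (ce c φ u j) 0 + 1 / (4 * (2 : ℝ) ^ u) ∧
      |(ce c φ (u + 1) (2 * j)) 1 - ((ce c φ u j) 1 - τ (tm u j) / (4 * (2 : ℝ) ^ u))| ≤
        (2 : ℝ) ^ (-(mm τ u j : ℤ)) ∧
      |(ce c φ (u + 1) (2 * j + 1)) 1 - ((ce c φ u j) 1 + τ (tm u j) / (4 * (2 : ℝ) ^ u))| ≤
        (2 : ℝ) ^ (-(mm τ u j : ℤ))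

/-! ## Domination -/

/-- LEB (about 100 lines).  `|Av bx ρ g z - g z| ≤ ∫_{Sq 0 (1/2)} |g (z - ρ y) - g z| dy ≤ ρ^(-2) ∫_{closedBall z ρ} |g - g z| = π (average)`, and the averages
over balls tend to zero at almost every `z` (`IsUnifLocDoublingMeasure.ae_tendsto_average_norm_sub` or Besicovitch), as `ρ → 0+`.  Hypotheses: none. -/
def StLEB : Prop :=
  ∀ g : Pl → ℝ, BB g → ∀ᵐ z : Pl, Tendsto (fun ρ : ℝ => Av bx ρ g z) (𝓝[>] 0) (𝓝 (g z))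

/-- DO1 (about 200 lines).  For `t` in the dyadic interval `J` of index `j = ⌊t 2^u⌋₊`, `m = mm τ u j`, `ρ = 2^(k-m)`: by Graph
`|φ t - φ t_j - s_j (t - t_j)| ≤ |t - t_j||τ t - τ t_j| ≤ (2^(-u)/2) trn ≤ 2^(-m)/2`, so the square of side `ρ` about `x - 2^k (c + (t, φ t))` is contained in the square of side
`2ρ` about `x - 2^k (ce + (t - t_j) E s_j)`, and (`g ≥ 0`) `Av bx ρ g (x - 2^k (c + (t, φ t))) ≤ 4 Av bx (2ρ) g (x - 2^k ce - 2^k (t - t_j) E s_j)`.  Integrate over `t ∈ J`: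
`∫_J .. = 2^(-u) · 4 · Y` (substitution `t - t_j = 2^(-u) r`, `|r| ≤ 1/2`; `sg` is the image of `dr`).  Sum over `j`; `t = 1` is a null set.
Hypotheses: hPT, hMEA, hMM. -/
def StDO1 : Prop :=
  ∀ (φ τ : ℝ → ℝ) (A σ : ℝ) (c : Pl), Graph φ τ → Gap A σ τ → 0 < A → 0 < σ → ∀ u : ℕ, 1 ≤ u →
    ∀ g : Pl → ℝ, BB g → (∀ x, 0 ≤ g x) → ∀ (k : ℤ) (x : Pl),
      ∫ t in Icc (0 : ℝ) 1, Av bx ((2 : ℝ) ^ (k - (mm τ u ⌊t * 2 ^ u⌋₊ : ℤ))) g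
        (x - (2 : ℝ) ^ k • (c + pt t (φ t))) ≤ 4 * Sa c φ τ u k g x

/-- DOM (about 200 lines).  Fubini: for a.e. `x`, for all `k` (countable), for a.e. `t ∈ [0,1]` the point `x - 2^k (c + (t, φ t))` is a good point of LEB (the set of bad `z`
is null and the map `(x,t) ↦ x - 2^k(..)` is a translation in `x`).  `mm τ u j ≥ u - 1` (MM), so the radii in DO1 tend to zero as `u → ∞`, and by dominated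
convergence the left side of DO1 tends to `∫_0^1 g(x - 2^k (c + (t, φ t))) dt = Av (arc c φ) (2^k) g x`.  And
`Sa u ≤ Sa u₀ + ∑_{i < u - u₀} |Sa (u₀+i+1) - Sa (u₀+i)|`.  (`φ` is continuous.)  Hypotheses: hPT, hMM, hLEB, hDO1. -/
def StDOM : Prop :=
  ∀ (φ τ : ℝ → ℝ) (A σ : ℝ) (c : Pl), Graph φ τ → Gap A σ τ → 0 < A → 0 < σ → ∀ u₀ : ℕ, 1 ≤ u₀ →
    ∀ g : Pl → ℝ, BB g → (∀ x, 0 ≤ g x) → ∀ᵐ x : Pl, ∀ k : ℤ,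
      ENNReal.ofReal (Av (arc c φ) ((2 : ℝ) ^ k) g x) ≤ ENNReal.ofReal (4 * Sa c φ τ u₀ k g x) +
        4 * ∑' i : ℕ, ‖Sa c φ τ (u₀ + i + 1) k g x - Sa c φ τ (u₀ + i) k g x‖ₑ

/-- HLY (about 100 lines).  `Av bx (2·2^(k-m)) g z = 4^(m-k-1) ∫_{Sq z (2^(k-m))} g`, for the points `z = x - 2^k c - 2^k ℓ t E s` which occur
`Sq z (2^(k-m)) ⊆ Sq x (2^k (R+3))` and `∫_{Sq x (2^k (R+3))} g ≤ 4^k HL ρ g x` for `ρ ≥ 2(R+3)`.  Hypotheses: hPT, hMEA. -/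
def StHLY : Prop :=
  ∀ (s : ℝ) (c : Pl) (m : ℕ) (ℓ R ρ : ℝ) (k : ℤ) (g : Pl → ℝ) (x : Pl), |s| ≤ 1 → ‖c‖ ≤ R → 0 < ℓ → ℓ ≤ 1 →
    2 * (R + 3) ≤ ρ → BB g → (∀ x, 0 ≤ g x) →
      ENNReal.ofReal (Y s c m ℓ k g x) ≤ ENNReal.ofReal ((4 : ℝ) ^ m) * HL ρ g x

/-! ## One level -/

/-- ERR (about 250 lines).  With `m_j = mm τ u j`, `m'_j = mm τ (u-1) (j/2)`, `Y_j^m[ℓ]` the chord operators: `Sa u = 2^(-u) ∑_j Y_j^(m_j)[2^(-u)]`,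
`Sa (u-1) = 2^(-u+1) ∑_p Y_p^(m_p)[2^(-u+1)]`, so `Sa u - Sa (u-1) = 2^(-u) ∑_j Z_j[2^(-u)] + 2^(-(u-1)) ∑_p ((Y_(2p)^(m_p) + Y_(2p+1)^(m_p))[2^(-u)]/2 - Y_p^(m_p)[2^(-(u-1))])`
(`m'_(2p) = m'_(2p+1) = m_p`).  L2A with E1 at level `u-1` (system of parents: SYS first part, CHI) bounds the second sum by
`4^(-(u-1)) C √(2^(u-1)) C 2^(u-1) = C 2^(-(u-1)/2)`, and L2A with E2 (SYS second part) the sum with `Z_j[2^(-u)] - Z_j[2^W]` by `4^(-u) C √(2^u) C 2^u (W+u+1)`.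
`‖a+b‖² ≤ 2‖a‖² + 2‖b‖²`.  Hypotheses: hPT, hYB, hMM, hSYS, hCHI, hE1, hE2, hL2A. -/
def StERR : Prop :=
  ∀ (φ τ : ℝ → ℝ) (A σ : ℝ) (c : Pl), Graph φ τ → Gap A σ τ → 0 < A → 0 < σ → ∃ C : ℝ, 0 < C ∧
    ∀ u W : ℕ, 2 ≤ u → ∀ g : Pl → ℝ, BB g →
      ∑' k : ℤ, ∫⁻ x, ‖Sa c φ τ u k g x - Sa c φ τ (u - 1) k g x -
        (1 / (2 : ℝ) ^ u) * ∑ j ∈ Finset.range (2 ^ u), Z (τ (tm u j)) (ce c φ u j) (mm τ u j)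
          (mm τ (u - 1) (j / 2)) ((2 : ℝ) ^ W) k g x‖ₑ ^ 2 ≤
      ENNReal.ofReal (C * (2 : ℝ) ^ (-((u : ℝ) / 2)) * (W + u + 1)) * ∫⁻ x, ‖g x‖ₑ ^ 2

/-- TOP (about 80 lines).  L2A with U1 (`ℓ = 2^W ≥ 1`) and U2, divided by `4^u`.  Hypotheses: hYB, hSYS, hU1, hU2, hL2A. -/
def StTOP : Prop :=
  ∀ (φ τ : ℝ → ℝ) (A σ : ℝ) (c : Pl), Graph φ τ → Gap A σ τ → 0 < A → 0 < σ → ∃ C : ℝ, 0 < C ∧
    ∀ u W : ℕ, 2 ≤ u → ∀ g : Pl → ℝ, BB g →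
      ∑' k : ℤ, ∫⁻ x, ‖(1 / (2 : ℝ) ^ u) * ∑ j ∈ Finset.range (2 ^ u), Z (τ (tm u j)) (ce c φ u j)
        (mm τ u j) (mm τ (u - 1) (j / 2)) ((2 : ℝ) ^ W) k g x‖ₑ ^ 2 ≤
      ENNReal.ofReal (C * (4 : ℝ) ^ (-(u : ℤ)) * (KA A σ u + u + 1)) * ∫⁻ x, ‖g x‖ₑ ^ 2

/-- F3 (about 350 lines), one level.  `D = Sa u - Sa (u-1)`, `W = om u 0 0 = 1024 u²`, `Z_j` the operators of ERR.  If `|D| ≥ Λ/(100u²)` then `|D - 2^(-u)∑ Z_j g| ≥ Λ/(200u²)` or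
`|2^(-u) ∑ Z_j g| ≥ Λ/(200u²)`.  The first: Chebyshev and ERR, `(200u²/Λ)² C 2^(-u/2) (W+u+1) ∫ g²`.  For the second write `g = g_top + ∑_{i ≤ u} g_i`, `g_top = g 1[g ≥ 2^u Λ]`,
`g_i = g 1[2^(i-1) Λ ≤ g < 2^i Λ]`, `i = 0, .., u` (`g` is `0` or `≥ Λ/2`); by linearity (YB) `|2^(-u)∑ Z_j g_top| ≥ Λ/(400u²)` or some
`|2^(-u) ∑ Z_j g_i| ≥ Λ/(400u²(u+1)) ≥ Λ/u^4`.  Top: Chebyshev and TOP, `KA ≤ C 2^(σu)`: `(400u²/Λ)² C 4^(-u) C 2^(σu) ∫ g_top²`.  `g_i`: put `h = g_i/(2^i Λ) ∈ [0,1]`, `Λ' = 2^(-i) ∈ [2^(-u), 1]`,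
`G = {HL ρ g ≤ Λ}`; for `x ∈ G`, `HL ρ h x ≤ Λ'`, so `Loc Cf Λ' h x` (GD, `ρ ≥ 2 Cf`), and CU (`Fam`: FAM and SYS; `Slo`: SYS; `KA A σ u ≤ Cf 2^(σu)` after enlarging `Cf`, note that
`Fam` is monotone in `Cf ≥ 1`, except for `lb`, where both sides also grow) gives `C 2^(-εu) Λ'^(-q) ∫ h²`, and `Λ'^(-q) h² ≤ (2^i)^q 1[g_i > 0] ≤ 2^q Λ^(-q) g_i^q`.  Sum over `i`.
Decrease `ε` (polynomial factors).  Hypotheses: hPT, hYB, hSYS, hFAM, hERR, hTOP, hGD, hCU. -/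
def StF3 : Prop :=
  ∀ (φ τ : ℝ → ℝ) (A σ q : ℝ) (c : Pl), Graph φ τ → Gap A σ τ → 0 < A → 2 < σ → σ < q → q < 3 →
    ∃ (u₀ : ℕ) (ρ₀ C ε : ℝ), 1 ≤ u₀ ∧ 0 < ρ₀ ∧ 0 < C ∧ 0 < ε ∧ ∀ (u : ℕ) (ρ Λ : ℝ) (g : Pl → ℝ),
      u₀ ≤ u → ρ₀ ≤ ρ → 0 < Λ → BB g → (∀ x, g x = 0 ∨ Λ / 2 ≤ g x) →
      ∑' k : ℤ, volume {x | HL ρ g x ≤ ENNReal.ofReal Λ ∧
        Λ / (100 * (u : ℝ) ^ 2) ≤ |Sa c φ τ u k g x - Sa c φ τ (u - 1) k g x|} ≤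
      ENNReal.ofReal (C * (2 : ℝ) ^ (-(ε * u)) * Λ ^ (-(2 : ℝ))) * (∫⁻ x, ENNReal.ofReal (g x) ^ 2) +
      ENNReal.ofReal (C * (2 : ℝ) ^ (-(ε * u)) * Λ ^ (-q)) *
        (∫⁻ x in {x | g x < (2 : ℝ) ^ u * Λ}, ENNReal.ofReal (g x) ^ q) +
      ENNReal.ofReal (C * (u : ℝ) ^ 4 * (2 : ℝ) ^ ((σ - 2) * u) * Λ ^ (-(2 : ℝ))) *
        ∫⁻ x in {x | (2 : ℝ) ^ u * Λ ≤ g x}, ENNReal.ofReal (g x) ^ 2

/-- CAL (about 150 lines).  Tonelli: (i) `∫_0^{2g} q Λ^(q-3) dΛ g² = (q/(q-2)) 2^(q-2) g^q`; (ii) `∫_{2^(-u) g}^{2g} q Λ^(-1) dΛ g^q = q (u+1) log 2 g^q`;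
(iii) `∫_0^{2^(-u) g} q Λ^(q-3) dΛ g² = (q/(q-2)) 2^(-(q-2)u) g^q`.  Hypotheses: none. -/
def StCAL : Prop :=
  ∀ q : ℝ, 2 < q → ∃ C : ℝ, 0 < C ∧ ∀ (g : Pl → ℝ) (u : ℕ), Measurable g → (∀ x, 0 ≤ g x) →
    (∫⁻ Λ in Ioi (0 : ℝ), ENNReal.ofReal (q * Λ ^ (q - 1)) * (ENNReal.ofReal (Λ ^ (-(2 : ℝ))) *
      ∫⁻ x in {x | Λ / 2 ≤ g x}, ENNReal.ofReal (g x) ^ 2) ≤
        ENNReal.ofReal C * ∫⁻ x, ENNReal.ofReal (g x) ^ q) ∧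
    (∫⁻ Λ in Ioi (0 : ℝ), ENNReal.ofReal (q * Λ ^ (q - 1)) * (ENNReal.ofReal (Λ ^ (-q)) *
      ∫⁻ x in {x | Λ / 2 ≤ g x ∧ g x < (2 : ℝ) ^ u * Λ}, ENNReal.ofReal (g x) ^ q) ≤
        ENNReal.ofReal (C * (u + 1)) * ∫⁻ x, ENNReal.ofReal (g x) ^ q) ∧
    (∫⁻ Λ in Ioi (0 : ℝ), ENNReal.ofReal (q * Λ ^ (q - 1)) * (ENNReal.ofReal (Λ ^ (-(2 : ℝ))) *
      ∫⁻ x in {x | (2 : ℝ) ^ u * Λ ≤ g x}, ENNReal.ofReal (g x) ^ 2) ≤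
        ENNReal.ofReal (C * (2 : ℝ) ^ (-((q - 2) * u))) * ∫⁻ x, ENNReal.ofReal (g x) ^ q)

/-- COR (about 300 lines), the strong type estimate.  `u₀` from F3 (at least 2), `ρ` large (F3, HLY with `R = ‖c‖ + |φ 0| + 3`), `K = KA A σ u₀`, `ε₀ = 4^(-K-1)/8 ≤ 1`.  Fix `Λ > 0`,
`g_h = g 1[g ≥ Λ/2]` (`BB`), `F g = ⨆_k Av (arc c φ) (2^k) g`.  `arc` has mass one, so `F g ≤ Λ/2 + F g_h`.  For a.e. `x` with `HL ρ g x ≤ ε₀ Λ` and `|Sa u - Sa (u-1)| g_h < Λ/(100u²)` for all `u > u₀`, `k`: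
DOM gives `F g_h ≤ 4·4^K ε₀ Λ + 4 ∑_{u > u₀} Λ/(100u²) ≤ Λ/8 + Λ/25` (HLY: each `Y ≤ 4^K HL`, `mm ≤ KA`), so `F g x ≤ Λ`.  So
`vol {Λ < F g} ≤ vol {ε₀ Λ < HL ρ g} + ∑_{u > u₀} ∑_k vol {HL ρ g_h ≤ Λ, ..}`; F3 for `g_h`; multiply by `q Λ^(q-1)` and integrate (`Helper68.LM.StLC`), CAL for `g` (`{x | g_h x < 2^u Λ}`: only
`g ≥ Λ/2` contributes as `q > 0`).  `∑_u (C 2^(-εu) (1 + u + 1) + C u^4 2^((σ-2)u) 2^(-(q-2)u)) < ∞`.  The `HL` term: `Helper68.LM.StHLS`.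
(`F g` is measurable.)  Hypotheses: hPT, hYB, hMM, hSYS, hDOM, hHLY, hF3, hCAL. -/
def StCOR : Prop :=
  ∀ (φ τ : ℝ → ℝ) (A σ q : ℝ) (c : Pl), Graph φ τ → Gap A σ τ → 0 < A → 2 < σ → σ < q → q < 3 →
    ∃ C : ℝ, 0 < C ∧ ∀ g : Pl → ℝ, BB g → (∀ x, 0 ≤ g x) →
      ∫⁻ x, (⨆ k : ℤ, ENNReal.ofReal (Av (arc c φ) ((2 : ℝ) ^ k) g x)) ^ q ≤
        ENNReal.ofReal C * ∫⁻ x, ENNReal.ofReal (g x) ^ q

/-- CO2 (about 120 lines).  Monotone convergence, exactly as in the proof of `Helper68.LM.StHA`: `f_n = min(f, n) 1_{‖x‖ ≤ n}`.  `arc c φ` is a finite measure with bounded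
support (`φ` is continuous).  Hypotheses: hPT, hCOR. -/
def StCO2 : Prop :=
  ∀ (φ τ : ℝ → ℝ) (A σ q : ℝ) (c : Pl), Graph φ τ → Gap A σ τ → 0 < A → 2 < σ → σ < q → q < 3 →
    MaxB (arc c φ) q

/-- INT (about 150 lines).  Let `F f = ⨆_k ∫⁻ f (x - 2^k y) dν`.  The case `p = q` is trivial.  For `Λ > 0` and `f_h = f 1[f > Λ/(2L)]`: `F f ≤ Λ/2 + F f_h`, so
`vol {Λ < F f} ≤ (2/Λ)^q C ∫ f_h^q`; by `Helper68.LM.StLC` `∫ (F f)^p ≤ C 2^q ∫ p Λ^(p-1-q) ∫_{f > Λ/(2L)} f^q = C 2^q (p/(p-q)) (2L)^(p-q) ∫ f^p`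
(Tonelli; if `f = ∞` on a set of positive measure the right side is infinite).  Hypotheses: none. -/
def StINT : Prop :=
  ∀ (ν : Measure Pl) (R L p q : ℝ), Bd R L ν → 0 < L → 0 < q → q ≤ p → MaxB ν q → MaxB ν p

/-- RES (about 200 lines).  `O (pt a b) = a u + b v` is a linear isometry; with `φ₁ t = φ (ℓ t)/ℓ`, `c = O⁻¹ (P/ℓ)`: `P + ℓt u + φ(ℓt) v = ℓ O (c + pt t (φ₁ t))`, so
`∫ f (x - 2^k y) d(pme) = ℓ ∫ f (x - 2^k ℓ O w) d(arc c φ₁)(w)`.  With `f₁ z = f (ℓ O z)`, `x = ℓ O x₁`, the maximal function at `x` is `ℓ` times that of `f₁` for `arc c φ₁` at `x₁`,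
and `∫ h (x) dx = ℓ² ∫ h (ℓ O x₁) dx₁` on both sides.  Hypotheses: hPT. -/
def StRES : Prop :=
  ∀ (Ω : Set Pl) (P u v : Pl) (ℓ : ℝ) (φ τ : ℝ → ℝ) (p : ℝ), Piece Ω P u v ℓ φ τ → 1 ≤ p →
    (∀ c : Pl, MaxB (arc c (fun t => φ (ℓ * t) / ℓ)) p) → MaxB (pme P u v ℓ φ) p

/-! ## The boundary of a convex set -/

/-- CAP (about 300 lines).  Let `δ₀` be admissible and `A'` the bound of `capIntegral Ω σ δ₀`.  `τ` is monotone.  Let `T = {t ∈ (0,ℓ) : |τ t - θ| ≤ 2^(-i)}`, an interval; suppose `|T| > 0`, let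
`t₀ ∈ T`, `y₀ = P + t₀ u + φ(t₀) v`, `θ₀ = -(v - τ(t₀) u)/‖v - τ(t₀) u‖` (norm between `1` and `√2`).  By `sup` and `y₀ ∈ closure Ω`: `sSup ((⟪·,θ₀⟫) '' Ω) = ⟪y₀, θ₀⟫`, so the distance of
`y(t) = P + t u + φ(t) v`, `t ∈ T`, to `linePlus Ω θ₀` is at most `φ t - φ t₀ - τ(t₀)(t - t₀) ≤ |τ t - τ t₀||t - t₀| ≤ 2·2^(-i) ℓ`.  So for `δ ≥ 2^(1-i) ℓ` the cap contains `y(T)`, of length
`≥ |T|` (the projection `⟪·,u⟫` is 1-Lipschitz), and `A' ≥ ∫_{2^(1-i) ℓ}^{δ₀} |T|^σ dδ/δ`, that is `|T|^σ (i log 2 - C₁) ≤ A'`.  So `|T| ≤ A'' i^(-1/σ)` for large `i`, and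
`|T| ≤ ℓ` for the others.  `volume {t ∈ [0,1] : |τ(ℓt) - θ| ≤ 2^(-i)} = |T|/ℓ` (end points are null).  Hypotheses: none. -/
def StCAP : Prop :=
  ∀ (Ω : Set Pl) (σ : ℝ), IsOpen Ω → Convex ℝ Ω → Bornology.IsBounded Ω → Ω.Nonempty → 0 < σ →
    ConditionG Ω σ → ∀ (P u v : Pl) (ℓ : ℝ) (φ τ : ℝ → ℝ), Piece Ω P u v ℓ φ τ →
      ∃ A : ℝ, 0 < A ∧ Gap A σ (fun t => τ (ℓ * t))

/-- GEX (about 150 lines), extension of a graph.  `φ₀`, `τ₀` on the open interval `(0,ℓ)`, `|τ₀| ≤ 1`, with the inequalities of Graph.  `τ = -1` for `t ≤ 0`, `τ₀` on `(0,ℓ)`, `1` for `t ≥ ℓ`,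
is monotone; `φ t = φ₀ (ℓ/2) + ∫_{ℓ/2}^t τ`.  Graph for `(φ, τ)`: monotonicity.  On `(0,ℓ)` `φ = φ₀`: both satisfy the inequalities, so on a partition of `[a,b]` into `n` equal parts the difference of
the increments is at most `(b-a)(τ₀ b - τ₀ a)/n`.  Hypotheses: none. -/
def StGEX : Prop :=
  ∀ (ℓ : ℝ) (φ₀ τ₀ : ℝ → ℝ), 0 < ℓ → (∀ t ∈ Ioo 0 ℓ, |τ₀ t| ≤ 1) →
    (∀ t ∈ Ioo 0 ℓ, ∀ t' ∈ Ioo 0 ℓ, t ≤ t' → τ₀ t * (t' - t) ≤ φ₀ t' - φ₀ t ∧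
      φ₀ t' - φ₀ t ≤ τ₀ t' * (t' - t)) →
    ∃ φ τ : ℝ → ℝ, Graph φ τ ∧ ∀ t ∈ Ioo 0 ℓ, φ t = φ₀ t ∧ τ t = τ₀ t

/-- FRM (about 300 lines), one frame.  `u, v` orthonormal.  Let `Bd` be the set of `y ∈ frontier Ω` for which there is `|τ| ≤ 1` with `⟪z - y, v - τ u⟫ ≥ 0` for all `z ∈ Ω`, and `T = {⟪y,u⟫ : y ∈ Bd}`.
(1) `y ∈ Bd` is determined by `t = ⟪y,u⟫`: for `z ∈ closure Ω` with `⟪z,u⟫ = t`, `⟪z - y, v⟫ ≥ 0`.  So `φ₀ t = ⟪y,v⟫`, and `τ₀ t` = a choice of `τ`, are functions on `T`, with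
`τ₀ t (t' - t) ≤ φ₀ t' - φ₀ t` for all `t, t' ∈ T` (supporting lines), which gives both inequalities of Graph and `τ₀` monotone.
(2) `T` is convex: let `t₁ < t < t₂`, `t₁, t₂ ∈ T`.  The projection of `Ω` to `⟪·,u⟫` is an open interval (convex, open) whose closure contains `t₁, t₂`, so there is `z ∈ Ω` over `t`; let `y` be the lowest point
(for `⟪·,v⟫`) of the compact set `closure Ω ∩ {⟪·,u⟫ = t}`.  `y ∉ Ω` (open), so `y ∈ frontier Ω` and there is a supporting `n ≠ 0`: `⟪z - y, n⟫ ≥ 0` on `Ω`, `> 0` on `Ω` as it is open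
(`geometric_hahn_banach_open_point`).  For `z ∈ Ω` over `t`: `z - y = h v`, `h > 0`, so `⟪v, n⟫ > 0`; normalise `n = v - τ u`.  From the inequalities at `y₁`, `y`: `τ₀ t₁ (t - t₁) ≤ φ₀ t - φ₀ t₁ ≤ τ (t - t₁)`, so
`-1 ≤ τ₀ t₁ ≤ τ`, and similarly `τ ≤ τ₀ t₂ ≤ 1`.  So `y ∈ Bd`.
(3) If `T` has at most one point then so has `Bd`: first alternative.  Otherwise let `α < β` be the end points of the bounded interval `T`, `ℓ = β - α`, `P = α u`, apply GEX to `φ₀ (α + ·)`, `τ₀ (α + ·)` on `(0,ℓ)`: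
`Bd` is contained in the image of `[0,ℓ]` and at most two points (those over `α`, `β`).  Finite sets are null for `μH[1]`.  Hypotheses: hGEX. -/
def StFRM : Prop :=
  ∀ (Ω : Set Pl) (u v : Pl), IsOpen Ω → Convex ℝ Ω → Bornology.IsBounded Ω → Ω.Nonempty → ‖u‖ = 1 →
    ‖v‖ = 1 → ⟪u, v⟫ = 0 →
    (μH[1] : Measure Pl) {y | y ∈ frontier Ω ∧ ∃ τ : ℝ, |τ| ≤ 1 ∧ ∀ z ∈ Ω, 0 ≤ ⟪z - y, v - τ • u⟫} = 0 ∨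
    ∃ (P : Pl) (ℓ : ℝ) (φ τ : ℝ → ℝ), Piece Ω P u v ℓ φ τ ∧
      (μH[1] : Measure Pl) ({y | y ∈ frontier Ω ∧ ∃ τ : ℝ, |τ| ≤ 1 ∧ ∀ z ∈ Ω, 0 ≤ ⟪z - y, v - τ • u⟫} \
        ((fun t => P + t • u + φ t • v) '' Icc 0 ℓ)) = 0

/-- COV (about 120 lines).  Every `y ∈ frontier Ω` has a supporting vector `n ≠ 0`, `⟪z - y, n⟫ ≥ 0` on `Ω`; if `|n 1| ≥ |n 0|` then `n = |n 1| (v - τ u)` with `v = ± pt 0 1`, `u = pt 1 0`, `|τ| ≤ 1`, otherwise the same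
with the coordinates exchanged.  FRM for the four frames; discard those of the first alternative.  Hypotheses: hPT, hFRM. -/
def StCOV : Prop :=
  ∀ Ω : Set Pl, IsOpen Ω → Convex ℝ Ω → Bornology.IsBounded Ω → Ω.Nonempty →
    ∃ (n : ℕ) (P u v : ℕ → Pl) (ℓ : ℕ → ℝ) (φ τ : ℕ → ℝ → ℝ),
      (∀ i < n, Piece Ω (P i) (u i) (v i) (ℓ i) (φ i) (τ i)) ∧
      (μH[1] : Measure Pl) (frontier Ω \
        ⋃ i ∈ {i : ℕ | i < n}, (fun t => P i + t • u i + φ i t • v i) '' Icc 0 (ℓ i)) = 0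

/-- FIN (about 250 lines).  As `Helper68.LM.StTC` and `StDOM` (proofs in the modules M_TC, M_DOM of LM), for finitely many pieces.  `t ↦ P + t u + φ t v` is Lipschitz with constant `√2 ≤ 2`, so
`μH[1].restrict (frontier Ω) ≤ ∑_{i < n} 2 pme_i` on measurable sets.  For `f ∈ L^p`, `h = ‖f₀‖ₑ`, `f₀` a measurable representative: for a.e. `x`, all `k`:
`|avg Ω k f x| ≤ 2 ∑_i ∫⁻ h (x - 2^k y) d(pme_i)`; suprema over `k` and Minkowski (`p ≥ 1`), MaxB.  Hypotheses: none. -/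
def StFIN : Prop :=
  ∀ (Ω : Set Pl) (p : ℝ) (n : ℕ) (P u v : ℕ → Pl) (ℓ : ℕ → ℝ) (φ τ : ℕ → ℝ → ℝ),
    Bornology.IsBounded Ω → 1 < p → (∀ i < n, Piece Ω (P i) (u i) (v i) (ℓ i) (φ i) (τ i)) →
    (μH[1] : Measure Pl) (frontier Ω \
      ⋃ i ∈ {i : ℕ | i < n}, (fun t => P i + t • u i + φ i t • v i) '' Icc 0 (ℓ i)) = 0 →
    (∀ i < n, MaxB (pme (P i) (u i) (v i) (ℓ i) (φ i)) p) → LpBounded Ω p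

/-- MAI (about 120 lines), the theorem.  Choose `max s 2 < σ < q < 3`, `q ≤ p`.  COV; for every piece CAP gives `Gap A s` for `τ (ℓ ·)`, hence `Gap A σ` (`i^(-1/s) ≤ i^(-1/σ)`), and
`Graph (φ (ℓ ·)/ℓ) (τ (ℓ ·))`; CO2 gives `MaxB (arc ..) q`, INT `MaxB (arc ..) p`, RES, FIN.  Hypotheses: hPT, hCOV, hCAP, hCO2, hINT, hRES, hFIN. -/
def StMAI : Prop :=
  ∀ (Ω : Set Pl) (p s : ℝ), IsOpen Ω → Convex ℝ Ω → Bornology.IsBounded Ω → (0 : Pl) ∈ Ω → 2 < p →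
    0 < s → s < p → s < 3 → ConditionG Ω s → LpBounded Ω p

end Pool.Agent.Helper20.RG
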