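import Pool.Agent.Helper20.RG.Defs

/-!
# Project RG (MP_cb927e_an): interface statements, part 1

* the plane, sinc multipliers, the chord operators (PT ... FAM);
* the ridge theorem (RID ... RDG);
* the window argument (WA, WB, WC).

Every statement is a `Prop` proved in a module of its own.  Complete proofs are in the docstrings.
`C` are absolute constants.  `u`, `N`, `j` natural numbers.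
-/

set_option autoImplicit false

open MeasureTheory Set Filter Topology
open scoped ENNReal RealInnerProductSpace

namespace Pool.Agent.Helper20.RG

open Pool.Agent.Helper68.LM (Pl BB Bd Av HL ft fm DQ)

/-! ## The plane and the operators -/

/-- PT (about 120 lines).  Coordinates of the plane.  `EuclideanSpace.volume_preserving_measurableEquiv` (or
`EuclideanSpace.volume_preserving_symm_measurableEquiv_toLp`) and `MeasureTheory.volume_preserving_finTwoArrow` reduce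
integrals to `ℝ × ℝ`, then Tonelli/Fubini.  Hypotheses: none. -/
def StPT : Prop :=
  (∀ a b : ℝ, (pt a b) 0 = a ∧ (pt a b) 1 = b) ∧ (∀ x : Pl, pt (x 0) (x 1) = x) ∧
  (∀ x : Pl, |x 0| ≤ ‖x‖ ∧ |x 1| ≤ ‖x‖ ∧ ‖x‖ ≤ |x 0| + |x 1| ∧ ‖x‖ ^ 2 = x 0 ^ 2 + x 1 ^ 2) ∧
  (∀ x y : Pl, ⟪x, y⟫ = x 0 * y 0 + x 1 * y 1) ∧
  (Continuous fun q : ℝ × ℝ => pt q.1 q.2) ∧
  (∀ f : Pl → ℝ≥0∞, Measurable f → ∫⁻ x, f x = ∫⁻ a : ℝ, ∫⁻ b : ℝ, f (pt a b)) ∧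
  (∀ f : Pl → ℝ, Integrable f → ∫ x, f x = ∫ a : ℝ, ∫ b : ℝ, f (pt a b)) ∧
  (∀ (x : Pl) (r : ℝ), 0 ≤ r → MeasurableSet (Sq x r) ∧ volume (Sq x r) = ENNReal.ofReal (4 * r ^ 2))

/-- SINC (about 80 lines).  `sinc x = ∫_0^1 cos (t x) dt` (or `x sinc x = sin x` and calculus):
`|cos (t x) - cos (t y)| ≤ t |x - y|`; `x sinc x = sin x`.  The last formula: `∫_{-1/2}^{1/2} e^{-2πi a t} dt` is
`(e^{πia} - e^{-πia})/(2πia) = sin(πa)/(πa)` for `a ≠ 0`.  Hypotheses: none. -/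
def StSINC : Prop :=
  (∀ x : ℝ, |Real.sinc x| ≤ 1 ∧ |x * Real.sinc x| ≤ 1 ∧ |1 - Real.sinc x| ≤ |x|) ∧
  (∀ x y : ℝ, |Real.sinc x - Real.sinc y| ≤ |x - y|) ∧
  (∀ a : ℝ, ∫ t in (-(1 / 2) : ℝ)..(1 / 2), Complex.exp (((-2 * Real.pi * a * t : ℝ) : ℂ) * Complex.I) =
    ((Real.sinc (Real.pi * a) : ℝ) : ℂ))

/-- MEA (about 120 lines).  `Sq 0 (1/2)` has measure one and is contained in the unit ball; `‖t E s‖ ≤ √2/2` for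
`|t| ≤ 1/2`, `|s| ≤ 1`.  `fm (sg s) ξ = ∫_{-1/2}^{1/2} exp(-2πi t ⟪E s, ξ⟫) dt` (`integral_map`, the map is continuous);
`fm bx ξ`: Fubini (PT) and `exp` of a sum.  Hypotheses: hPT, hSINC. -/
def StMEA : Prop :=
  (Bd 1 1 bx ∧ bx univ = 1 ∧ ∀ ξ : Pl, fm bx ξ =
    ((Real.sinc (Real.pi * ξ 0) * Real.sinc (Real.pi * ξ 1) : ℝ) : ℂ)) ∧
  (∀ s : ℝ, |s| ≤ 1 → Bd 1 1 (sg s) ∧ sg s univ = 1) ∧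
  (∀ (s : ℝ) (ξ : Pl), fm (sg s) ξ = ((Real.sinc (Real.pi * ⟪E s, ξ⟫) : ℝ) : ℂ))

/-- YB (about 120 lines).  `Y` is the composition of two averages and a translation.  `BB`: third clause of
`Helper68.LM.StBBC` (proved) for `bx` and `sg s` (MEA); translation is elementary.  Fourier transform:
`Helper68.LM.StFA` (proved) twice, `ft (g (· - w)) ξ = exp(-2πi⟪w, ξ⟫) ft g ξ`
(translation in the integral), with `w = 2^k c`.  Values in `[0,1]`: averages with respect to probability measures.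
`ft` is linear on `BB`.  Hypotheses: hPT, hMEA (and the theorems `StBBC`, `StFA`, `StFS` of LM, see
`Pool.Agent.Helper68.LM.Asm` for the names of their proofs). -/
def StYB : Prop :=
  ∀ (s : ℝ) (c : Pl) (m : ℕ) (ℓ : ℝ) (k : ℤ) (g : Pl → ℝ), |s| ≤ 1 → 0 < ℓ → BB g →
    BB (Y s c m ℓ k g) ∧
    (∀ ξ : Pl, ft (Y s c m ℓ k g) ξ = Yh s c m ℓ ((2 : ℝ) ^ k • ξ) * ft g ξ) ∧
    ((∀ x, 0 ≤ g x) → ∀ x, 0 ≤ Y s c m ℓ k g x) ∧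
    (∀ M : ℝ, (∀ x, g x ≤ M) → ∀ x, Y s c m ℓ k g x ≤ M) ∧
    (∀ (a : ℝ) (h : Pl → ℝ), BB h → ∀ x, Y s c m ℓ k (fun y => a * g y + h y) x =
      a * Y s c m ℓ k g x + Y s c m ℓ k h x)

/-- YC (about 150 lines).  Continuity: `h = Av bx ρ g` (`ρ > 0`) is continuous: `h x = ρ^(-2) ∫_{Sq x (ρ/2)} g` (change of
variables) and dominated convergence, the indicator of `Sq x (ρ/2)` converges a.e. (off the boundary of the square, a null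
set) as `x → x₀`; then `Av (sg s) t h` is continuous by dominated convergence (`continuous_of_dominated`), and a translation.
Invariance: `Av (sg s) t f x = ∫_{-1/2}^{1/2} f (x - t r E) dr`, and `f (x + lam E - t r E)` is a shift of the interval by
`lam/t`: `Av (sg s) t f (x + lam E) - Av (sg s) t f x` is the difference of the integrals over two intervals of length one,
shifted by `lam/t`; at most `2 |lam|/t · sup |f|`, with `f` the difference of the two box averages, `|f| ≤ 1`.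
Hypotheses: hPT, hMEA, hYB. -/
def StYC : Prop :=
  ∀ (s : ℝ) (c : Pl) (m m' : ℕ) (ℓ : ℝ) (k : ℤ) (g : Pl → ℝ), |s| ≤ 1 → 0 < ℓ → BB g →
    Continuous (Y s c m ℓ k g) ∧
    ((∀ x, 0 ≤ g x ∧ g x ≤ 1) → ∀ (x : Pl) (lam : ℝ),
      |Z s c m m' ℓ k g (x + lam • E s) - Z s c m m' ℓ k g x| ≤ 2 * |lam| / ((2 : ℝ) ^ k * ℓ))

/-- YL (about 60 lines), locality.  `Y s c m ℓ k g x` is an integral over values of `g` at the points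
`x - 2^k c - 2^k ℓ t E s - 2 · 2^(k-m) w`, `|t| ≤ 1/2`, `w ∈ Sq 0 (1/2)`, which lie in `Sq x ((R+3) 2^k ℓ)` as `ℓ ≥ 1`.
Hypotheses: hPT. -/
def StYL : Prop :=
  ∀ (s : ℝ) (c : Pl) (m : ℕ) (ℓ R : ℝ) (k : ℤ) (g h : Pl → ℝ) (x : Pl), |s| ≤ 1 → 1 ≤ ℓ → ‖c‖ ≤ R →
    (∀ y ∈ Sq x ((R + 3) * ((2 : ℝ) ^ k * ℓ)), g y = h y) → Y s c m ℓ k g x = Y s c m ℓ k h x

/-! ## Multiplier sums -/

/-- MB (about 120 lines).  `κ_m ξ = sinc(2π 2^(-m) ξ 0) sinc(2π 2^(-m) ξ 1)`: `|κ| ≤ 1`, `|1 - κ_m ξ| ≤ 4π 2^(-m) ‖ξ‖`,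
`|κ_m ξ| ‖ξ‖ ≤ 2^m` (the larger coordinate is `≥ ‖ξ‖/√2`), `|sinc(πℓx)| ≤ 1`, `|sinc(πℓx)| ℓ|x| ≤ 1/π`,
`|sinc(πℓx) - sinc(πℓ'x)| ≤ π ℓ' |x|`.  `C = 100`.  Hypotheses: hPT, hSINC. -/
def StMB : Prop :=
  ∃ C : ℝ, 1 ≤ C ∧ ∀ (s : ℝ) (c : Pl) (m m' : ℕ) (ℓ : ℝ) (ξ : Pl), |s| ≤ 1 → m' ≤ m → 0 < ℓ →
    ‖Zh s c m m' ℓ ξ‖ ≤ C ∧
    ‖Zh s c m m' ℓ ξ‖ ≤ C * (‖ξ‖ * (2 : ℝ) ^ (-(m' : ℤ))) ∧
    ‖Zh s c m m' ℓ ξ‖ * ‖ξ‖ ≤ C * (2 : ℝ) ^ m ∧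
    ‖Zh s c m m' ℓ ξ‖ * (ℓ * |⟪E s, ξ⟫|) ≤ C ∧
    (∀ ℓ' : ℝ, ℓ ≤ ℓ' → ‖Zh s c m m' ℓ ξ - Zh s c m m' ℓ' ξ‖ ≤ C * (ℓ' * |⟪E s, ξ⟫|))

/-- SC (about 100 lines).  Let `r = ‖ξ‖`, `N = 2^u`.  If `|ξ 1| ≥ r/4` then `|⟪E s, ξ⟫| = |ξ 0 + s ξ 1| ≤ 1/(ℓ y)` gives
`|s - τ| ≤ 4/(ℓ y r) = T` with `τ = -ξ 0/ξ 1`, and `y ≤ r 2^(-m')` gives `N 2^(-m') ≥ N y/r = w`: `cnt` gives
`C₀ (1 + T/w) = C₀ (1 + 4/(N ℓ y²))`.  If `|ξ 1| < r/4` then `|⟪E s, ξ⟫| ≥ r/2` for all `|s| ≤ 1`, so the set is empty unless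
`r ≤ 2/(ℓ y)`, and `w = N y/r ≥ N ℓ y²/2`; `cnt` with `τ = 0`, `T = 1`: `C₀ (1 + 2/(N ℓ y²))`.  Hypotheses: hPT. -/
def StSC : Prop :=
  ∀ C₀ : ℝ, 0 < C₀ → ∃ C : ℝ, 0 < C ∧ ∀ (u : ℕ) (s : ℕ → ℝ) (c : ℕ → Pl) (m m' : ℕ → ℕ) (R : ℝ) (K : ℕ)
    (A σ : ℝ), Sys u s c m m' C₀ R K A σ → ∀ (ξ : Pl) (y ℓ : ℝ), ξ ≠ 0 → 0 < y → y ≤ 1 → 0 < ℓ →
      ({j : ℕ | j < 2 ^ u ∧ y ≤ ‖ξ‖ * (2 : ℝ) ^ (-(m' j : ℤ)) ∧ ℓ * |⟪E (s j), ξ⟫| ≤ 1 / y}.ncard : ℝ) ≤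
        C * (1 + 1 / ((2 : ℝ) ^ u * ℓ * y ^ 2))

/-- SUF (about 80 lines).  `∑ f j = ∫_0^1 #{j : y ≤ f j} dy ≤ ∫_0^1 min(N, C + C B/y²) dy ≤ C + ∫_0^∞ min(N, C B/y²) dy`
`= C + 2 √(C B N)`.  (Alternatively dyadic: `f j ≤ ∑_i 2^(1-i) 1[f j ≥ 2^(-i)]`, a worse constant is proved in the same way;
the constant `4` allows this: `∑ f j ≤ 2 ∑_i 2^(-i) min(N, C + C B 4^i) ≤ 4 C + 2 ∑_i 2^(-i) min(N, C B 4^i)`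
`≤ 4 C + 12 √(C B N)`.)  Hypotheses: none. -/
def StSUF : Prop :=
  ∀ (N : ℕ) (f : ℕ → ℝ) (C B : ℝ), 0 ≤ C → 0 ≤ B → (∀ j < N, 0 ≤ f j ∧ f j ≤ 1) →
    (∀ y : ℝ, 0 < y → y ≤ 1 → ({j : ℕ | j < N ∧ y ≤ f j}.ncard : ℝ) ≤ C * (1 + B / y ^ 2)) →
    ∑ j ∈ Finset.range N, f j ≤ 4 * C + 12 * Real.sqrt (C * B * N)

/-- U1 (about 60 lines).  `f j = ‖Zh‖/C_MB`; `{y ≤ f j}` is contained in the set of SC (second and fourth bound of MB), so SUF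
applies with `B = 1/(2^u ℓ)`.  Hypotheses: hMB, hSC, hSUF. -/
def StU1 : Prop :=
  ∀ C₀ : ℝ, 0 < C₀ → ∃ C : ℝ, 0 < C ∧ ∀ (u : ℕ) (s : ℕ → ℝ) (c : ℕ → Pl) (m m' : ℕ → ℕ) (R : ℝ) (K : ℕ)
    (A σ : ℝ), Sys u s c m m' C₀ R K A σ → ∀ (ξ : Pl) (ℓ : ℝ), ξ ≠ 0 → 0 < ℓ →
      ∑ j ∈ Finset.range (2 ^ u), ‖Zh (s j) (c j) (m j) (m' j) ℓ ξ‖ ≤ C * (1 + 1 / Real.sqrt ℓ)

/-- OCT (about 100 lines).  Octaves.  The `k` with `2^p < 2^k r < 2^q` are at most `q - p + 1` in number; the sums over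
`2^k r ≤ 2^p` and over `2^k r ≥ 2^q` are geometric series with sum at most `2 C`.  Hypotheses: none. -/
def StOCT : Prop :=
  ∀ (f : ℤ → ℝ≥0∞) (r C : ℝ) (p q : ℤ), 0 < r → 0 ≤ C → p ≤ q →
    (∀ k, f k ≤ ENNReal.ofReal C) →
    (∀ k : ℤ, (2 : ℝ) ^ k * r ≤ (2 : ℝ) ^ p → f k ≤ ENNReal.ofReal (C * ((2 : ℝ) ^ k * r / (2 : ℝ) ^ p))) →
    (∀ k : ℤ, (2 : ℝ) ^ q ≤ (2 : ℝ) ^ k * r → f k ≤ ENNReal.ofReal (C * ((2 : ℝ) ^ q / ((2 : ℝ) ^ k * r)))) →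
    ∑' k : ℤ, f k ≤ ENNReal.ofReal (C * ((q : ℝ) - p + 8))

/-- U2 (about 80 lines).  OCT for `f k = ∑_j ‖Zh (2^k ξ)‖`, `r = ‖ξ‖`, `p = -u`, `q = K + u`: bounded by U1 (`ℓ ≥ 1`); for
`2^k r ≤ 2^(-u)` the second bound of MB gives `2^u C 2^k r`; for `2^k r ≥ 2^(K+u)` the third gives `2^u C 2^K/(2^k r)`.
Hypotheses: hMB, hU1, hOCT. -/
def StU2 : Prop :=
  ∀ C₀ : ℝ, 0 < C₀ → ∃ C : ℝ, 0 < C ∧ ∀ (u : ℕ) (s : ℕ → ℝ) (c : ℕ → Pl) (m m' : ℕ → ℕ) (R : ℝ) (K : ℕ)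
    (A σ : ℝ), Sys u s c m m' C₀ R K A σ → ∀ (ξ : Pl) (ℓ : ℝ), ξ ≠ 0 → 1 ≤ ℓ →
      ∑' k : ℤ, ∑ j ∈ Finset.range (2 ^ u), ‖Zh (s j) (c j) (m j) (m' j) ℓ ((2 : ℝ) ^ k • ξ)‖ₑ ≤
        ENNReal.ofReal (C * (K + u + 1))

/-- U3 (about 200 lines).  `D_j ξ = Zh (2^w) - Zh (2^w')`, `r = ‖ξ‖`, `Cl = {j : |⟪E (s j), ξ⟫| ≤ 2^(-T) r/4}`.  `Cl` has at most
`1 + 2^u A T^(-1/σ)` elements: if `|ξ 1| ≥ r/4` then `|s j + ξ 0/ξ 1| ≤ 2^(-T)` (`sep`); if `|ξ 1| < r/4` then `|⟪E s, ξ⟫| ≥ r/2`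
and `Cl` is empty.  For fixed `j` with `b = |⟪E (s j), ξ⟫| ≠ 0`: OCT for `f k = ‖D_j (2^k ξ)‖²` with `r ↦ b`, `p = -w'`, `q = -w` (MB:
`‖D_j‖ ≤ 2C`, `≤ C 2^w' 2^k b`, `≤ 2C/(2^w 2^k b)`) gives `C (w' - w + 8) ≤ C' W` (`W ≥ 1`); if `b = 0` then `D_j = 0`.  So the part `j ∈ Cl` is at
most `C W (1 + 2^u A T^(-1/σ))`.  The part `j ∉ Cl`: OCT for `f k = ∑_{j ∉ Cl} ‖D_j (2^k ξ)‖²`, `r = ‖ξ‖`, `p = -u`, `q = T`: bounded by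
`2C ∑ ‖D_j‖ ≤ C'` (U1); for `2^k r ≤ 2^(-u)` at most `2^u C 2^k r` (second bound of MB); for `2^k r ≥ 2^T`,
`‖D_j‖ ≤ 2C/(2^w 2^k b) ≤ 8 C 2^T/(2^w 2^k r)` and there are `2^u ≤ 2^w` values of `j`.  Sum `≤ C (T + u + 8)`, `u ≤ W`.
Hypotheses: hPT, hMB, hU1, hOCT. -/
def StU3 : Prop :=
  ∀ C₀ : ℝ, 0 < C₀ → ∃ C : ℝ, 0 < C ∧ ∀ (u : ℕ) (s : ℕ → ℝ) (c : ℕ → Pl) (m m' : ℕ → ℕ) (R : ℝ) (K : ℕ)
    (A σ : ℝ), Sys u s c m m' C₀ R K A σ → 0 ≤ A → ∀ (W w w' T : ℕ), 1 ≤ u → u ≤ W → W ≤ w → w ≤ w' →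
      w' ≤ 2 * W → 1 ≤ T → ∀ ξ : Pl, ξ ≠ 0 →
      ∑' k : ℤ, ∑ j ∈ Finset.range (2 ^ u),
        ‖Zh (s j) (c j) (m j) (m' j) ((2 : ℝ) ^ w) ((2 : ℝ) ^ k • ξ) -
          Zh (s j) (c j) (m j) (m' j) ((2 : ℝ) ^ w') ((2 : ℝ) ^ k • ξ)‖ₑ ^ 2 ≤
        ENNReal.ofReal (C * (T + W * (1 + (2 : ℝ) ^ u * (A * (T : ℝ) ^ (-(1 / σ))))))

/-- E2 (about 100 lines).  First bound: U1 for `ℓ = 2^(-u)` and `ℓ = 2^W`.  Second: for every `j`, OCT with `r ↦ b = |⟪E (s j), ξ⟫|`,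
`p = -W`, `q = u` (MB: `≤ C 2^W 2^k b`, `≤ C 2^u/(2^k b)`, `≤ 2C`); for `b = 0` the difference vanishes (fifth bound of MB).
Hypotheses: hMB, hU1, hOCT. -/
def StE2 : Prop :=
  ∀ C₀ : ℝ, 0 < C₀ → ∃ C : ℝ, 0 < C ∧ ∀ (u : ℕ) (s : ℕ → ℝ) (c : ℕ → Pl) (m m' : ℕ → ℕ) (R : ℝ) (K : ℕ)
    (A σ : ℝ), Sys u s c m m' C₀ R K A σ → ∀ (W : ℕ) (ξ : Pl), ξ ≠ 0 →
      ∑ j ∈ Finset.range (2 ^ u), ‖Zh (s j) (c j) (m j) (m' j) (1 / (2 : ℝ) ^ u) ξ -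
          Zh (s j) (c j) (m j) (m' j) ((2 : ℝ) ^ W) ξ‖ ≤ C * Real.sqrt ((2 : ℝ) ^ u) ∧
      ∑' k : ℤ, ∑ j ∈ Finset.range (2 ^ u),
        ‖Zh (s j) (c j) (m j) (m' j) (1 / (2 : ℝ) ^ u) ((2 : ℝ) ^ k • ξ) -
          Zh (s j) (c j) (m j) (m' j) ((2 : ℝ) ^ W) ((2 : ℝ) ^ k • ξ)‖ₑ ≤
        ENNReal.ofReal (C * ((2 : ℝ) ^ u * (W + u + 1)))

/-- E1 (about 220 lines).  Parent and children.  `ℓ = 2^(-u)`, `r = ‖ξ‖`, `b = |⟪E (s j), ξ⟫|`, `m = m j`,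
`e = ½ (Yh s₁ c₁ m (ℓ/2) + Yh s₂ c₂ m (ℓ/2)) - Yh s c m ℓ = κ_m(ξ) [½ Σ exp(-2πi⟪c_i,ξ⟫) sinc(πℓ/2 ⟪E s_i,ξ⟫) - ...]`.
(a) `‖e‖ ≤ 2`.  (b) `‖e‖ ≤ C r 2^(-m)`: `exp(-2πi⟪c,ξ⟫) sinc(πℓ⟪E s,ξ⟫) = (1/ℓ) ∫_{-ℓ/2}^{ℓ/2} exp(-2πi⟪c + t E s, ξ⟫) dt` (SINC), and
the two halves `t = -ℓ/4 + t'`, `t = ℓ/4 + t'`, `|t'| ≤ ℓ/4`, are compared with `c₁ + t' E s₁`, `c₂ + t' E s₂`: the points differ by
at most `2^(-m) + (ℓ/4) 2^(-m)/ℓ ≤ 2 · 2^(-m)` (same first coordinate), so the exponentials by `4π r 2^(-m)`.  (c) `‖e‖ r ≤ C 2^m` (MB's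
bound of `κ_m`).  (d) `‖e‖ ℓ b ≤ C`: if `r 2^(-m) ≤ ℓ b/8` then `|⟪E s_i, ξ⟫| ≥ b - r 2^(-m)/ℓ ≥ 7b/8` and all three sincs are
`≤ C/(ℓ b)`; otherwise `‖e‖ ≤ C 2^m/r ≤ 8C/(ℓ b)` by (c).  First sum: `f j = ‖e_j‖/C`, SC with `ℓ = 2^(-u)`, SUF with `B = 1`.
Second sum: for each `j` OCT with `r = ‖ξ‖`, `p = q = m j` ((b), (c)).  Hypotheses: hPT, hSINC, hSC, hSUF, hOCT. -/
def StE1 : Prop :=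
  ∀ C₀ : ℝ, 0 < C₀ → ∃ C : ℝ, 0 < C ∧ ∀ (u : ℕ) (s : ℕ → ℝ) (c : ℕ → Pl) (m : ℕ → ℕ) (R : ℝ) (K : ℕ)
    (A σ : ℝ) (s₁ s₂ : ℕ → ℝ) (c₁ c₂ : ℕ → Pl), Sys u s c m m C₀ R K A σ →
      (∀ j < 2 ^ u, |s₁ j| ≤ 1 ∧ |s₂ j| ≤ 1 ∧
        |s₁ j - s j| ≤ (2 : ℝ) ^ (-(m j : ℤ)) * (2 : ℝ) ^ u ∧
        |s₂ j - s j| ≤ (2 : ℝ) ^ (-(m j : ℤ)) * (2 : ℝ) ^ u ∧
        (c₁ j) 0 = (c j) 0 - 1 / (4 * (2 : ℝ) ^ u) ∧ (c₂ j) 0 = (c j) 0 + 1 / (4 * (2 : ℝ) ^ u) ∧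
        |(c₁ j) 1 - ((c j) 1 - s j / (4 * (2 : ℝ) ^ u))| ≤ (2 : ℝ) ^ (-(m j : ℤ)) ∧
        |(c₂ j) 1 - ((c j) 1 + s j / (4 * (2 : ℝ) ^ u))| ≤ (2 : ℝ) ^ (-(m j : ℤ))) →
      ∀ ξ : Pl, ξ ≠ 0 →
      ∑ j ∈ Finset.range (2 ^ u), ‖(Yh (s₁ j) (c₁ j) (m j) (1 / (2 * (2 : ℝ) ^ u)) ξ +
          Yh (s₂ j) (c₂ j) (m j) (1 / (2 * (2 : ℝ) ^ u)) ξ) / 2 -
          Yh (s j) (c j) (m j) (1 / (2 : ℝ) ^ u) ξ‖ ≤ C * Real.sqrt ((2 : ℝ) ^ u) ∧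
      ∑' k : ℤ, ∑ j ∈ Finset.range (2 ^ u),
        ‖(Yh (s₁ j) (c₁ j) (m j) (1 / (2 * (2 : ℝ) ^ u)) ((2 : ℝ) ^ k • ξ) +
          Yh (s₂ j) (c₂ j) (m j) (1 / (2 * (2 : ℝ) ^ u)) ((2 : ℝ) ^ k • ξ)) / 2 -
          Yh (s j) (c j) (m j) (1 / (2 : ℝ) ^ u) ((2 : ℝ) ^ k • ξ)‖ₑ ≤
        ENNReal.ofReal (C * (2 : ℝ) ^ u)

/-! ## `L^2` theory -/

/-- L2A (about 120 lines).  By Plancherel (`Helper68.LM.StPL`, proved) for the bounded function `∑_j T k j`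
(finite sums of `BB` functions are `BB`, `ft` of the sum is the sum) the left side is
`∫ ∑_k ‖∑_j μ_j(2^k ξ)‖² ‖ft g ξ‖² ≤ ∫ ∑_k A ∑_j ‖μ_j(2^k ξ)‖ ‖ft g ξ‖² ≤ A B ∫ ‖ft g‖²` (`{0}` is a null set, `lintegral_tsum`).
Hypotheses: none (LM's StPL). -/
def StL2A : Prop :=
  ∀ (N : ℕ) (T : ℤ → ℕ → Pl → ℝ) (μ : ℕ → Pl → ℂ) (g : Pl → ℝ) (A B : ℝ), BB g → 0 ≤ A → 0 ≤ B →
    (∀ k, ∀ j < N, BB (T k j) ∧ ∀ ξ : Pl, ft (T k j) ξ = μ j ((2 : ℝ) ^ k • ξ) * ft g ξ) →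
    (∀ ξ : Pl, ξ ≠ 0 → ∑ j ∈ Finset.range N, ‖μ j ξ‖ ≤ A) →
    (∀ ξ : Pl, ξ ≠ 0 → ∑' k : ℤ, ∑ j ∈ Finset.range N, ‖μ j ((2 : ℝ) ^ k • ξ)‖ₑ ≤ ENNReal.ofReal B) →
    ∑' k : ℤ, ∫⁻ x, ‖∑ j ∈ Finset.range N, T k j x‖ₑ ^ 2 ≤ ENNReal.ofReal (A * B) * ∫⁻ x, ‖g x‖ₑ ^ 2

/-- L2B (about 100 lines).  Plancherel for every `T k j`, as L2A.  The last clause is for one scale.
Hypotheses: none (LM's StPL). -/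
def StL2B : Prop :=
  (∀ (N : ℕ) (T : ℤ → ℕ → Pl → ℝ) (μ : ℕ → Pl → ℂ) (g : Pl → ℝ) (B : ℝ), BB g → 0 ≤ B →
    (∀ k, ∀ j < N, BB (T k j) ∧ ∀ ξ : Pl, ft (T k j) ξ = μ j ((2 : ℝ) ^ k • ξ) * ft g ξ) →
    (∀ ξ : Pl, ξ ≠ 0 → ∑' k : ℤ, ∑ j ∈ Finset.range N, ‖μ j ((2 : ℝ) ^ k • ξ)‖ₑ ^ 2 ≤
      ENNReal.ofReal B) →
    ∑' k : ℤ, ∑ j ∈ Finset.range N, ∫⁻ x, ‖T k j x‖ₑ ^ 2 ≤ ENNReal.ofReal B * ∫⁻ x, ‖g x‖ₑ ^ 2) ∧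
  (∀ (N : ℕ) (T : ℕ → Pl → ℝ) (μ : ℕ → Pl → ℂ) (g : Pl → ℝ) (B : ℝ), BB g → 0 ≤ B →
    (∀ j < N, BB (T j) ∧ ∀ ξ : Pl, ft (T j) ξ = μ j ξ * ft g ξ) →
    (∀ ξ : Pl, ξ ≠ 0 → ∑ j ∈ Finset.range N, ‖μ j ξ‖ ^ 2 ≤ B) →
    ∑ j ∈ Finset.range N, ∫⁻ x, ‖T j x‖ₑ ^ 2 ≤ ENNReal.ofReal B * ∫⁻ x, ‖g x‖ₑ ^ 2)

/-- The properties of the family `Z W k j = Z (s j) (c j) (m j) (m' j) (2^W) k g` used in the sequel. -/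
structure Fam (u : ℕ) (Cf : ℝ) (K : ℕ) (A σ : ℝ) (s : ℕ → ℝ) (g : Pl → ℝ)
    (Zf : ℕ → ℤ → ℕ → Pl → ℝ) : Prop where
  one : ∀ (W : ℕ) (k : ℤ) (j : ℕ) (x : Pl), j < 2 ^ u → |Zf W k j x| ≤ 1
  cont : ∀ (W : ℕ) (k : ℤ) (j : ℕ), j < 2 ^ u → Continuous (Zf W k j)
  inv : ∀ (W : ℕ) (k : ℤ) (j : ℕ) (x : Pl) (lam : ℝ), j < 2 ^ u →
    |Zf W k j (x + lam • E (s j)) - Zf W k j x| ≤ 2 * |lam| / (2 : ℝ) ^ (k + (W : ℤ))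
  lb : ∀ (W : ℕ) (k : ℤ) (x : Pl),
    ∑ j ∈ Finset.range (2 ^ u), ∫⁻ y in Sq x (4 * (2 : ℝ) ^ (k + (W : ℤ))), ‖Zf W k j y‖ₑ ^ 2 ≤
      ENNReal.ofReal Cf * ∫⁻ y in Sq x (Cf * (2 : ℝ) ^ (k + (W : ℤ))), ‖g y‖ₑ ^ 2
  all : ∀ W : ℕ, ∑' k : ℤ, ∑ j ∈ Finset.range (2 ^ u), ∫⁻ x, ‖Zf W k j x‖ₑ ^ 2 ≤
    ENNReal.ofReal (Cf * (K + u + 1)) * ∫⁻ x, ‖g x‖ₑ ^ 2
  dif : ∀ W w w' T : ℕ, 1 ≤ u → u ≤ W → W ≤ w → w ≤ w' → w' ≤ 2 * W → 1 ≤ T →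
    ∑' k : ℤ, ∑ j ∈ Finset.range (2 ^ u), ∫⁻ x, ‖Zf w k j x - Zf w' k j x‖ₑ ^ 2 ≤
      ENNReal.ofReal (Cf * (T + W * (1 + (2 : ℝ) ^ u * (A * (T : ℝ) ^ (-(1 / σ)))))) * ∫⁻ x, ‖g x‖ₑ ^ 2
  tot : ∀ W : ℕ, ∑' k : ℤ, ∫⁻ x, ‖∑ j ∈ Finset.range (2 ^ u), Zf W k j x‖ₑ ^ 2 ≤
    ENNReal.ofReal (Cf * (K + u + 1)) * ∫⁻ x, ‖g x‖ₑ ^ 2

/-- FAM (about 200 lines).  `one`: both terms are in `[0,1]` (YB).  `cont`, `inv`: YC, `2^k 2^W = 2^(k+W)`.  `all`: L2B with `μ_j = Zh`,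
`‖Zh‖² ≤ C ‖Zh‖`, U2.  `tot`: L2A with U1 (`ℓ = 2^W ≥ 1`) and U2.  `dif`: L2B, U3.  `lb`: by YL the functions `Zf W k j` on
`Sq x (4 · 2^(k+W))` do not change if `g` is replaced by `g 1_{Sq x (Cf 2^(k+W))}`, `Cf ≥ R + 7` (this function is `BB`), then L2B, one
scale, and `∑ ‖Zh‖² ≤ C ∑ ‖Zh‖ ≤ C` (U1).  Hypotheses: hYB, hYC, hYL, hMB, hU1, hU2, hU3, hL2A, hL2B, hPT. -/
def StFAM : Prop :=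
  ∀ C₀ R : ℝ, 0 < C₀ → ∃ Cf : ℝ, 1 ≤ Cf ∧ ∀ (u : ℕ) (s : ℕ → ℝ) (c : ℕ → Pl) (m m' : ℕ → ℕ) (K : ℕ)
    (A σ : ℝ), Sys u s c m m' C₀ R K A σ → 0 ≤ A → ∀ g : Pl → ℝ, BB g → (∀ x, 0 ≤ g x ∧ g x ≤ 1) →
      Fam u Cf K A σ s g (fun W k j => Z (s j) (c j) (m j) (m' j) ((2 : ℝ) ^ W) k g)

/-! ## The ridge theorem -/

/-- RID (about 80 lines).  For `a` with `|a - x 0| ≤ h` the vertical section at `a` of `{y ∈ Sq x r | pr s y ∈ F}` contains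
`F + s a` (`b = ρ + s a`, `ρ ∈ F`: `b - x 1 = (ρ - pr s x) + s (a - x 0)`, at most `r - h + h`).  Fubini (PT).  Hypotheses: hPT. -/
def StRID : Prop :=
  ∀ (s : ℝ) (x : Pl) (r h : ℝ) (F : Set ℝ), |s| ≤ 1 → 0 ≤ h → h ≤ r → MeasurableSet F →
    F ⊆ Icc (pr s x - (r - h)) (pr s x + (r - h)) →
    ENNReal.ofReal (2 * h) * volume F ≤ volume {y | y ∈ Sq x r ∧ pr s y ∈ F}

/-- PAR (about 100 lines).  `y ↦ (pr s y, pr s' y)` is linear with determinant `±(s - s')`.  By Fubini: with `y 1 = ρ + s y 0`,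
`pr s' y = ρ + (s - s') y 0`, so the measure is `∫_{ρ ∈ A} |{a : ρ + (s - s') a ∈ B}| dρ = |A| |B|/|s - s'|`.  Hypotheses: hPT. -/
def StPAR : Prop :=
  ∀ (s s' : ℝ) (A B : Set ℝ), s ≠ s' → MeasurableSet A → MeasurableSet B →
    volume {y : Pl | pr s y ∈ A ∧ pr s' y ∈ B} =
      volume A * volume B * ENNReal.ofReal (1 / |s - s'|)

/-- RA (about 200 lines), maximal dyadic intervals on the line.  For `t ∈ F` the small dyadic intervals containing `t` lie in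
`F` (open), hence have density `1 ≥ 1/Γ`; let `a(t)` be the index of the largest dyadic interval containing `t`, of length
at most `2^p`, with `|F ∩ dI a| ≥ 2^(a.1)/Γ`; `I = {a(t) : t ∈ F}`.  Two of them are equal or disjoint (nested family,
maximality).  If `a.1 < p` the parent has density `< 1/Γ`, so `|F ∩ dI a| ≤ 2^(a.1+1)/Γ`.  Last clause: if `dI5 a` meets
`[A,B]` then `dI a ⊆ [A - 3·2^p, B + 3·2^p]`, and `|dI5 a| = 5·2^(a.1) ≤ 5Γ |F ∩ dI a|`; the `dI a` are disjoint, `I` is countable.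
Hypotheses: none. -/
def StRA : Prop :=
  ∀ (F : Set ℝ) (Γ : ℝ) (p : ℤ), IsOpen F → 1 ≤ Γ → ∃ I : Set (ℤ × ℤ),
    (∀ a ∈ I, a.1 ≤ p ∧ ENNReal.ofReal ((2 : ℝ) ^ a.1 / Γ) ≤ volume (F ∩ dI a) ∧
      (a.1 < p → volume (F ∩ dI a) ≤ ENNReal.ofReal (2 * (2 : ℝ) ^ a.1 / Γ))) ∧
    (∀ a ∈ I, ∀ b ∈ I, a ≠ b → Disjoint (dI a) (dI b)) ∧ F ⊆ ⋃ a ∈ I, dI a ∧
    ∀ A B : ℝ, A ≤ B → volume (Om I ∩ Icc A B) ≤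
      ENNReal.ofReal (5 * Γ) * volume (F ∩ Icc (A - 3 * (2 : ℝ) ^ p) (B + 3 * (2 : ℝ) ^ p))

/-- RB (about 150 lines), triples.  The vectors `v_j = (1/w j, s j/w j)` lie in the plane, so three of them satisfy a nontrivial
relation; dividing by the coefficient of largest absolute value, one of them is dominated by the other two.  Let `M = #S`.
Each three element subset `{a,b,c}` gives at least two triples (ordered pair `(a,b)`, third element `c` with `Dom a b c`;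
`Dom` is symmetric in `a`, `b`), so the sum over ordered pairs of `#{c ≠ a, b : Dom a b c}` is at least `M(M-1)(M-2)/3`; every
summand is at most `M - 2`; if `P` pairs have a summand `≥ (M-2)/6`:
`P (M-2) + (M(M-1) - P)(M-2)/6 ≥ M(M-1)(M-2)/3`, so `P ≥ M(M-1)/5`.  Hypotheses: none. -/
def StRB : Prop :=
  ∀ (s w : ℕ → ℝ) (S : Finset ℕ), (∀ j ∈ S, 0 < w j) → 3 ≤ S.card →
    ((S.card : ℝ) * (S.card - 1)) / 5 ≤ ({q : ℕ × ℕ | q.1 ∈ S ∧ q.2 ∈ S ∧ q.1 ≠ q.2 ∧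
      ((S.card : ℝ) - 2) / 6 ≤ ({c : ℕ | c ∈ S ∧ Dom s w q.1 q.2 c}.ncard : ℝ)}.ncard : ℝ)

/-- RF1 (about 300 lines), the pointwise part of the ridge theorem.
(1) `S = {j < N : pr (s j) x ∈ F j}`, `#S ≥ m`; for `j ∈ S` let `a_j ∈ I j` with `pr (s j) x ∈ dI a_j` (i3).  Wide: `a_j.1 = p`.  For wide `j`,
`F j ∩ dI a_j ⊆ [pr x - 2^p, pr x + 2^p]`; RID with `r = 2·2^p`, `h = 2^p` and `ridge` (`Sq x (2·2^p) ⊆ Sq z (5 L₂)`) give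
`2·2^p·2^p/Γ ≤ vol (Er j ∩ Sq x (2·2^p))`.  First Dens: `(number of wide j) 2·4^p/Γ ≤ 4 D 4^p`, so at most `2 Γ D = m/100` are wide.
(2) `S'` = nonwide, `M = #S' ≥ 0.99 m`, `w j = 2^(a_j.1)`.  RB: at least `M(M-1)/5` ordered pairs with `#{c ∈ S' : Dom} ≥ (M-2)/6`; at most
`M nst ≤ M m/200` of them have `|s a - s b| ≤ α` (exo).  There remain `≥ 0.99 m (0.198 m - 0.2 - 0.005 m) ≥ 0.18 m²`.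
(3) For such a pair `(a,b)` let `pr (s a) y ∈ dI a_a`, `pr (s b) y ∈ dI a_b`, `v = y - x`: `|pr (s a) v|, |pr (s b) v| < 2^(p-1)`, so
`|v 0| = |pr (s a) v - pr (s b) v|/|s a - s b| ≤ 2^p/α ≤ L/100`, `|v 1| ≤ L/50`: `y ∈ Sq x (L/50) ⊆ Sq z L₂` (`L ≤ L₂/1000` by scN, m1).
For `c ∈ S'` with `Dom a b c`: `|pr (s c) v|/w c ≤ |μ| |pr (s a) v|/w a + |ν| |pr (s b) v|/w b ≤ 2`, so `pr (s c) y ∈ dI5 a_c ⊆ Om (I c)`: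
`Gs y ≥ (M-2)/6 ≥ 0.16 m`.  (4) `Gv y = ∑ (1/2L) vol (Om (I j) ∩ [pr y - L, pr y + L]) ≤ (5Γ/2L) ∑ vol (F j ∩ [pr (s j) x - 1.2 L, pr (s j) x + 1.2 L])`
(i4; `|pr (s j) v| ≤ L/25`, `3·2^p ≤ 0.03 L`), and by RID with `r = 5L/2`, `h = 1.3 L`, ridge and the second Dens
`2.6 L ∑ vol(..) ≤ D (5L/2)²`; so `Gv y ≤ (5Γ/2L)(6.25 D L²/(2.6 L)) ≤ 6.02 Γ D ≤ 0.04 m ≤ Gs y/4`.  Hypotheses: hPT, hRID, hRB. -/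
def StRF1 : Prop :=
  ∀ (N : ℕ) (s : ℕ → ℝ) (Er : ℕ → Set Pl) (F : ℕ → Set ℝ) (I : ℕ → Set (ℤ × ℤ)) (z : Pl)
    (p : ℤ) (L L₂ α D m nst Γ : ℝ), RDat N s Er F I z p L L₂ α D m nst Γ →
    ∀ x ∈ Sq z (L₂ / 2), m ≤ ({j : ℕ | j < N ∧ pr (s j) x ∈ F j}.ncard : ℝ) →
      Dens Er N x (2 * (2 : ℝ) ^ p) D → Dens Er N x (5 * L / 2) D →
      18 / 100 * m ^ 2 ≤ ({q : ℕ × ℕ | q.1 < N ∧ q.2 < N ∧ α < |s q.1 - s q.2| ∧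
        ∃ a ∈ I q.1, ∃ b ∈ I q.2, pr (s q.1) x ∈ F q.1 ∩ dI a ∧ pr (s q.2) x ∈ F q.2 ∩ dI b ∧
          a.1 < p ∧ b.1 < p ∧
          {y : Pl | pr (s q.1) y ∈ dI a ∧ pr (s q.2) y ∈ dI b} ⊆ Hs N s I z L L₂}.ncard : ℝ)

/-- RF2 (about 200 lines).  Let `P` be the (countable) set of all `(q, a, b)`, `q.1, q.2 < N`, `α < |s q.1 - s q.2|`, `a ∈ I q.1`,
`b ∈ I q.2`, `a.1, b.1 < p`, `{y | pr y ∈ dI a, pr y ∈ dI b} ⊆ Hs`, and `Ψ x = ∑_P 1[pr (s q.1) x ∈ F ∩ dI a] 1[pr (s q.2) x ∈ F ∩ dI b]`.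
`R ⊆ {Ψ ≥ 0.18 m²}`; Markov; PAR: `∫ Ψ = ∑_P |F ∩ dI a||F ∩ dI b|/|s - s'| ≤ (4/Γ²) ∑_P 2^(a.1) 2^(b.1)/|s - s'| =`
`(4/Γ²) ∑_P vol {y | pr y ∈ dI a, pr y ∈ dI b} ≤ (4/Γ²) ∫_{Hs} Gs²`, since for given `q` and `y` at most one pair `(a,b)` counts (i2), and
then both `ind`s are `1` (`dI ⊆ dI5`), and the sum over `q` of the products is `≤ Gs²`.  (`Hs` is measurable: `Gs`, `Gv` are; or use
the countable union of the sets inside.)  Hypotheses: hPT, hPAR. -/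
def StRF2 : Prop :=
  ∀ (N : ℕ) (s : ℕ → ℝ) (Er : ℕ → Set Pl) (F : ℕ → Set ℝ) (I : ℕ → Set (ℤ × ℤ)) (z : Pl)
    (p : ℤ) (L L₂ α D m nst Γ : ℝ), RDat N s Er F I z p L L₂ α D m nst Γ → ∀ R : Set Pl,
    (∀ x ∈ R, 18 / 100 * m ^ 2 ≤ ({q : ℕ × ℕ | q.1 < N ∧ q.2 < N ∧ α < |s q.1 - s q.2| ∧
        ∃ a ∈ I q.1, ∃ b ∈ I q.2, pr (s q.1) x ∈ F q.1 ∩ dI a ∧ pr (s q.2) x ∈ F q.2 ∩ dI b ∧
          a.1 < p ∧ b.1 < p ∧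
          {y : Pl | pr (s q.1) y ∈ dI a ∧ pr (s q.2) y ∈ dI b} ⊆ Hs N s I z L L₂}.ncard : ℝ)) →
      volume R ≤ ENNReal.ofReal (23 / (m ^ 2 * Γ ^ 2)) *
        ∫⁻ y in Hs N s I z L L₂, ENNReal.ofReal (Gs N s I y) ^ 2

/-- SM1 (about 250 lines), non exotic pairs.  Put `h = ind O`, `h' = ind O'`.  For fixed first coordinate write `y 1 = σ + s' y 0`
(so `pr s' y = σ`, `pr s y = σ + (s' - s) y 0 =: ρ`): the integral is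
`∫ tl h' σ (∫ ψ_σ(ρ) tl h ρ dρ) dσ/|s - s'|`, `ψ_σ(ρ) = cut z L₂ y`, `y 0 = (ρ - σ)/(s' - s)`, `y 1 = σ + s' y 0`.  `ψ_σ` is Lipschitz with constant
`2/(α L₂)` (`c1` is 1-Lipschitz, `|c1| ≤ 1`, `|dy 0/dρ|, |dy 1/dρ| ≤ 1/α`) and vanishes unless `|ρ - pr s z| ≤ 4 L₂` and `|σ - pr s' z| ≤ 4 L₂`.
By Fubini `∫ ψ (tl h) = ∫ h (ψ - bL L ψ)` (symmetric kernel), `|ψ - bL L ψ| ≤ 2L/(α L₂)`, zero unless `|ρ - pr s z| ≤ 4.1 L₂`: the inner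
integral is at most `(2L/(α L₂)) vol(O ∩ [pr s z - 4.1 L₂, pr s z + 4.1 L₂])`.  `|tl h'| ≤ 2`, so the outer integral over `|σ - pr s' z| ≤ 4 L₂` gives at most
`16 L₂`, and `1/|s - s'| ≤ 1/α`.  Product: `32 L/α²`.  Hypotheses: hPT. -/
def StSM1 : Prop :=
  ∀ (s s' α L L₂ : ℝ) (z : Pl) (O O' : Set ℝ), |s| ≤ 1 → |s'| ≤ 1 → 0 < α → α ≤ 1 → α < |s - s'| →
    0 < L → 100 * L ≤ L₂ → MeasurableSet O → MeasurableSet O' →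
    |∫ y : Pl, cut z L₂ y * (tl L (ind O) (pr s y) * tl L (ind O') (pr s' y))| ≤
      32 * L / α ^ 2 * (volume (O ∩ Icc (pr s z - 41 / 10 * L₂) (pr s z + 41 / 10 * L₂))).toReal

/-- SM2 (about 120 lines), one ridge.  `|tl h| ≤ 1` for `h = ind O`, and `|tl h| ≤ h + bL L h`; `cut ≤ 1` is supported in
`Sq z (2 L₂)`, where `|pr s y - pr s z| ≤ 4 L₂`.  Fubini: `∫ cut (tl h (pr s y))² ≤ 4 L₂ ∫_{|ρ - pr s z| ≤ 4L₂} (h + bL L h)(ρ) dρ ≤`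
`8 L₂ vol(O ∩ [pr s z - 4.1 L₂, pr s z + 4.1 L₂])`.  Hypotheses: hPT. -/
def StSM2 : Prop :=
  ∀ (s L L₂ : ℝ) (z : Pl) (O : Set ℝ), |s| ≤ 1 → 0 < L → 100 * L ≤ L₂ → MeasurableSet O →
    ∫⁻ y : Pl, ENNReal.ofReal (cut z L₂ y * tl L (ind O) (pr s y) ^ 2) ≤
      ENNReal.ofReal (8 * L₂) *
        volume (O ∩ Icc (pr s z - 41 / 10 * L₂) (pr s z + 41 / 10 * L₂))

/-- SM3 (about 180 lines).  `Gs - Gv = ∑_j H_j`, `H_j y = tl L (ind (Om (I j))) (pr (s j) y)`.  Expand the square (all integrands are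
bounded with compact support).  Pairs with `|s a - s b| > α`: SM1; the sum over `b` (at most `N`) is at most
`32 N L/α² v_a ≤ 32 L₂ v_a` (scN), `v_a = vol(Om (I a) ∩ ...)` (finite).  Other pairs: `|∫ cut H_a H_b| ≤ ½ ∫ cut (H_a² + H_b²)`, SM2 and at most `nst`
partners (the relation is symmetric): at most `nst 8 L₂ ∑ v_a`.  `nst ≥ 1` unless `N = 0`.  `100 L ≤ L₂` by scN and m1, `al`.
Hypotheses: hPT, hSM1, hSM2. -/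
def StSM3 : Prop :=
  ∀ (N : ℕ) (s : ℕ → ℝ) (Er : ℕ → Set Pl) (F : ℕ → Set ℝ) (I : ℕ → Set (ℤ × ℤ)) (z : Pl)
    (p : ℤ) (L L₂ α D m nst Γ : ℝ), RDat N s Er F I z p L L₂ α D m nst Γ →
    ∫⁻ y : Pl, ENNReal.ofReal (cut z L₂ y * (Gs N s I y - Gv N s I L y) ^ 2) ≤
      ENNReal.ofReal (40 * nst * L₂) * ∑ j ∈ Finset.range N,
        volume (Om (I j) ∩ Icc (pr (s j) z - 41 / 10 * L₂) (pr (s j) z + 41 / 10 * L₂))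

/-- RDG (about 200 lines), the ridge theorem.  If `R = ∅` nothing to prove; otherwise `m ≤ N`.
`F j = pr (s j) '' (Et j ∩ interior (Sq z (5 L₂)))` is open (`pr (s j)` is an open map, `b ↦ y + (0,b)`); `Γ = m/(200 D) ≥ 1`;
`I j` from RA: `RDat` holds.  For `x ∈ R` the hypotheses of RF1 hold, RF2 gives `vol R ≤ (23/(m²Γ²)) ∫_{Hs} Gs²`.  On `Hs`
`Gs² ≤ (16/9) (Gs - Gv)²` (`0 ≤ Gv ≤ Gs/4`) and `cut = 1`.  SM3, then i4 with `3·2^p ≤ 0.01 L₂`: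
`vol (Om (I j) ∩ [pr z - 4.1 L₂, ..]) ≤ 5Γ vol (F j ∩ [pr z - 4.11 L₂, pr z + 4.11 L₂])`, RID with `r = 5 L₂`, `h = 0.88 L₂` and ridge:
`1.76 L₂ vol (F j ∩ ..) ≤ vol (Er j ∩ Sq z (5 L₂))`.  Altogether `vol R ≤ C nst/(m² Γ) ∑ .. = 200 C nst D/m³ ∑ ..`.
Hypotheses: hPT, hRID, hRA, hRF1, hRF2, hSM3. -/
def StRDG : Prop :=
  ∃ C : ℝ, 0 < C ∧ ∀ (N : ℕ) (s : ℕ → ℝ) (Et Er : ℕ → Set Pl) (z : Pl) (p : ℤ)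
    (L L₂ α D m nst : ℝ) (R : Set Pl), (∀ j < N, |s j| ≤ 1) →
    (∀ j < N, IsOpen (Et j) ∧ MeasurableSet (Er j)) →
    (∀ j < N, ∀ y ∈ Et j, y ∈ Sq z (5 * L₂) → ∀ y' ∈ Sq z (5 * L₂),
      pr (s j) y = pr (s j) y' → y' ∈ Er j) →
    0 < α → α ≤ 1 → 100 * (2 : ℝ) ^ p ≤ α * L → (N : ℝ) * L ≤ α ^ 2 * L₂ →
    (∀ j < N, ({j' : ℕ | j' < N ∧ |s j - s j'| ≤ α}.ncard : ℝ) ≤ nst) →
    200 * nst ≤ m → 1000 ≤ m → 0 < D → 200 * D ≤ m → R ⊆ Sq z (L₂ / 2) →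
    (∀ x ∈ R, m ≤ ({j : ℕ | j < N ∧ x ∈ Et j}.ncard : ℝ) ∧ Dens Er N x (2 * (2 : ℝ) ^ p) D ∧
      Dens Er N x (5 * L / 2) D) →
    volume R ≤ ENNReal.ofReal (C * nst * D / m ^ 3) *
      ∑ j ∈ Finset.range N, volume (Er j ∩ Sq z (5 * L₂))

/-- RDS (about 120 lines), summation of RDG over a grid of squares `Sq z (L₂/2)`, `z = (n₁ L₂, n₂ L₂)`, which cover the plane: a point is
in at most `121` of the squares `Sq z (5 L₂)`.  Hypotheses: hPT, hRDG. -/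
def StRDS : Prop :=
  ∃ C : ℝ, 0 < C ∧ ∀ (N : ℕ) (s : ℕ → ℝ) (Et Er : ℕ → Set Pl) (p : ℤ)
    (L L₂ α D m nst : ℝ) (R : Set Pl), (∀ j < N, |s j| ≤ 1) →
    (∀ j < N, IsOpen (Et j) ∧ MeasurableSet (Er j)) →
    (∀ j < N, ∀ y ∈ Et j, ∀ lam : ℝ, |lam| ≤ 10 * L₂ → y + lam • E (s j) ∈ Er j) →
    0 < α → α ≤ 1 → 0 < L₂ → 100 * (2 : ℝ) ^ p ≤ α * L → (N : ℝ) * L ≤ α ^ 2 * L₂ →
    (∀ j < N, ({j' : ℕ | j' < N ∧ |s j - s j'| ≤ α}.ncard : ℝ) ≤ nst) →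
    200 * nst ≤ m → 1000 ≤ m → 0 < D → 200 * D ≤ m →
    (∀ x ∈ R, m ≤ ({j : ℕ | j < N ∧ x ∈ Et j}.ncard : ℝ) ∧ Dens Er N x (2 * (2 : ℝ) ^ p) D ∧
      Dens Er N x (5 * L / 2) D) →
    volume R ≤ ENNReal.ofReal (C * nst * D / m ^ 3) * ∑ j ∈ Finset.range N, volume (Er j)

/-! ## Windows -/

/-- WA (about 100 lines).  `V i` is a union of dyadic squares of side `2^(a-(i+1)γ)`, and in every dyadic square of side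
`2^(a-iγ)` it has density at most one half.  Induction on `n`: `V 0 ∩ .. ∩ V (i-1)` is a union of dyadic squares of side `2^(a-iγ)`
(dyadic squares are nested or disjoint), countably many disjoint ones, so `|V 0 ∩ .. ∩ V i| ≤ ½ |V 0 ∩ .. ∩ V (i-1)|`.
`DQ`: `Helper68.LM.StLD` (proved) gives measure and measurability.  Hypotheses: none. -/
def StWA : Prop :=
  ∀ (n : ℕ) (a : ℤ) (γ : ℕ) (V : ℕ → Set Pl), 1 ≤ n →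
    (∀ i < n, ∀ x ∈ V i, DQ (a - ((i : ℤ) + 1) * γ) x ⊆ V i) →
    (∀ i < n, ∀ x : Pl, volume (V i ∩ DQ (a - (i : ℤ) * γ) x) ≤
      ENNReal.ofReal (1 / 2) * volume (DQ (a - (i : ℤ) * γ) x)) →
    volume {x | ∀ i < n, x ∈ V i} ≤ ENNReal.ofReal ((1 / 2) ^ (n - 1)) * volume (V 0)

/-- WB (about 150 lines).  Markov for one radius: `V = ⋃ DQ b x` over the bad `x ∈ G`, i.e. with `¬ Dens S N x r D`.  If `x' ∈ DQ b x`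
then `|x' - x|_∞ ≤ 2^b ≤ r`, so `Sq x r ⊆ Sq x' (2r)` and `∑_j vol(S j ∩ Sq x' (2r)) > D r²`.  Integrate over `x' ∈ V` or `x' ∈ V ∩ Q`:
`∫ vol(S j ∩ Sq x' (2r)) dx' = ∫_{S j} vol{x' : |x' - y|_∞ ≤ 2r} dy ≤ 16 r² vol(S j)`, and for `x' ∈ Q = DQ a x₀ ⊆ Sq x₀ (2^a)` only
`y ∈ Sq x₀ (2^a + 2r) ⊆ Sq x₀ (4·2^a)` matters.  If `Q` contains no point of `G` then `V ∩ Q = ∅` (`b ≤ a`, nested squares).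
Hypotheses: hPT. -/
def StWB : Prop :=
  ∀ (N : ℕ) (a b : ℤ) (r D D₀ : ℝ) (S : ℕ → Set Pl) (G : Set Pl), b ≤ a → (2 : ℝ) ^ b ≤ r →
    r ≤ (2 : ℝ) ^ a → 0 < D → 0 ≤ D₀ → (∀ j < N, MeasurableSet (S j)) →
    (∀ x ∈ G, ∑ j ∈ Finset.range N, volume (S j ∩ Sq x (4 * (2 : ℝ) ^ a)) ≤
      ENNReal.ofReal (D₀ * (4 : ℝ) ^ a)) →
    (volume (⋃ x ∈ {x | x ∈ G ∧ ¬ Dens S N x r D}, DQ b x) ≤
      ENNReal.ofReal (16 / D) * ∑ j ∈ Finset.range N, volume (S j)) ∧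
    ∀ x₀ : Pl, volume ((⋃ x ∈ {x | x ∈ G ∧ ¬ Dens S N x r D}, DQ b x) ∩ DQ a x₀) ≤
      ENNReal.ofReal (16 * D₀ / D) * volume (DQ a x₀)

/-- WC (about 100 lines).  `V i` = union of the two sets of WB for the radii `r₁ i`, `r₂ i`, `D = 64 D₀`, `a ↦ a - iγ`, `b = a - (i+1)γ`:
density at most `2·16/64 = 1/2` in the dyadic squares of side `2^(a-iγ)`, and `|V 0| ≤ 2·16/(64 D₀) ∑ vol(S 0 j)`.  WA: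
`2^(-(n-1)) · (1/(2 D₀)) ∑ = 2^(-n)/D₀ ∑`.  Hypotheses: hWA, hWB. -/
def StWC : Prop :=
  ∀ (n N : ℕ) (a : ℤ) (γ : ℕ) (r₁ r₂ : ℕ → ℝ) (S : ℕ → ℕ → Set Pl) (G : Set Pl) (D₀ : ℝ),
    1 ≤ n → 0 < D₀ → (∀ i < n, ∀ j < N, MeasurableSet (S i j)) →
    (∀ i < n, (2 : ℝ) ^ (a - ((i : ℤ) + 1) * γ) ≤ r₁ i ∧ r₁ i ≤ (2 : ℝ) ^ (a - (i : ℤ) * γ) ∧
      (2 : ℝ) ^ (a - ((i : ℤ) + 1) * γ) ≤ r₂ i ∧ r₂ i ≤ (2 : ℝ) ^ (a - (i : ℤ) * γ)) →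
    (∀ i < n, ∀ x ∈ G, ∑ j ∈ Finset.range N,
      volume (S i j ∩ Sq x (4 * (2 : ℝ) ^ (a - (i : ℤ) * γ))) ≤
        ENNReal.ofReal (D₀ * (4 : ℝ) ^ (a - (i : ℤ) * γ))) →
    volume {x | x ∈ G ∧ ∀ i < n, ¬ (Dens (S i) N x (r₁ i) (64 * D₀) ∧
      Dens (S i) N x (r₂ i) (64 * D₀))} ≤
      ENNReal.ofReal ((1 / 2) ^ n / D₀) * ∑ j ∈ Finset.range N, volume (S 0 j)

end Pool.Agent.Helper20.RG
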