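import Pool.Agent.Helper13.RG.M_E1
import Pool.Agent.Helper15.RG.M_RDS
import Pool.Agent.Helper15.RG.M_SINC
import Pool.Agent.Helper15.RG.M_TOP
import Pool.Agent.Helper16.RG.M_LBW
import Pool.Agent.Helper17.RG.M_FIN
import Pool.Agent.Helper17.RG.M_SM1
import Pool.Agent.Helper2.RG.M_OCT
import Pool.Agent.Helper2.RG.M_SUF
import Pool.Agent.Helper20.RG.M_CU
import Pool.Agent.Helper20.RG.M_RF2
import Pool.Agent.Helper23.RG.M_MEA
import Pool.Agent.Helper24.RG.M_CAL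
import Pool.Agent.Helper24.RG.M_DOM
import Pool.Agent.Helper24.RG.M_INT
import Pool.Agent.Helper29.RG.M_ER
import Pool.Agent.Helper29.RG.M_U2
import Pool.Agent.Helper3.RG.M_COR
import Pool.Agent.Helper3.RG.M_WA
import Pool.Agent.Helper33.RG.M_FAM
import Pool.Agent.Helper33.RG.M_LEB
import Pool.Agent.Helper38.RG.M_FRM
import Pool.Agent.Helper39.RG.M_GEX
import Pool.Agent.Helper4.RG.M_U3
import Pool.Agent.Helper40.RG.M_INV
import Pool.Agent.Helper40.RG.M_YB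
import Pool.Agent.Helper41.RG.M_COV
import Pool.Agent.Helper43.RG.M_NBA
import Pool.Agent.Helper43.RG.M_NBB
import Pool.Agent.Helper43.RG.M_NBC
import Pool.Agent.Helper43.RG.M_NBD
import Pool.Agent.Helper43.RG.M_WB
import Pool.Agent.Helper43.RG.M_WCL
import Pool.Agent.Helper62.RG.M_GD
import Pool.Agent.Helper62.RG.M_L2B
import Pool.Agent.Helper67.RG.M_RDG
import Pool.Agent.Helper70.RG.M_PAR
import Pool.Agent.Helper70.RG.M_SC
import Pool.Agent.Helper71.RG.M_MAI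
import Pool.Agent.Helper72.RG.M_U1
import Pool.Agent.Helper74.RG.M_ERR
import Pool.Agent.Helper75.RG.M_WC
import Pool.Agent.Helper76.RG.M_F3
import Pool.Agent.Helper79.RG.M_CO2
import Pool.Agent.Helper79.RG.M_MB
import Pool.Agent.Helper8.RG.M_HLY
import Pool.Agent.Helper80.RG.M_L2A
import Pool.Agent.Helper84.RG.M_YL
import Pool.Agent.Helper86.RG.M_RID
import Pool.Agent.Helper88.RG.M_MK
import Pool.Agent.Helper88.RG.M_MM
import Pool.Agent.Helper88.RG.M_RES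
import Pool.Agent.Helper89.RG.M_PS
import Pool.Agent.Helper89.RG.M_PT
import Pool.Agent.Helper9.RG.M_YC
import Pool.Agent.Helper93.RG.M_CAP
import Pool.Agent.Helper94.RG.M_CLS
import Pool.Agent.Helper94.RG.M_RF1
import Pool.Agent.Helper95.RG.M_CHI
import Pool.Agent.Helper99.RG.M_DO1
import Pool.Agent.Helper99.RG.M_E2
import Pool.Agent.Helper99.RG.M_RA
import Pool.Agent.Helper99.RG.M_RB
import Pool.Agent.Helper99.RG.M_SM2
import Pool.Agent.Helper99.RG.M_SM3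
import Pool.Agent.Helper99.RG.M_SYS

/-!
# Project RG (MP_cb927e_an): assembly
-/

set_option autoImplicit false

namespace Pool.Agent.Helper20.RG

theorem pPT : StPT :=
  Pool.Agent.Helper89.RG.hPT 

theorem pSINC : StSINC :=
  Pool.Agent.Helper15.RG.hSINC 

theorem pMEA : StMEA :=
  Pool.Agent.Helper23.RG.hMEA pPT pSINC

theorem pYB : StYB :=
  Pool.Agent.Helper40.RG.hYB pPT pMEA

theorem pYC : StYC :=
  Pool.Agent.Helper9.RG.hYC pPT pMEA

theorem pYL : StYL :=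
  Pool.Agent.Helper84.RG.hYL pPT

theorem pMB : StMB :=
  Pool.Agent.Helper79.RG.hMB pPT pSINC

theorem pSC : StSC :=
  Pool.Agent.Helper70.RG.hSC pPT

theorem pSUF : StSUF :=
  Pool.Agent.Helper2.RG.hSUF 

theorem pU1 : StU1 :=
  Pool.Agent.Helper72.RG.hU1 pMB pSC pSUF

theorem pOCT : StOCT :=
  Pool.Agent.Helper2.RG.hOCT 

theorem pU2 : StU2 :=
  Pool.Agent.Helper29.RG.hU2 pMB pU1 pOCT

theorem pU3 : StU3 :=
  Pool.Agent.Helper4.RG.hU3 pPT pMB pU1 pOCT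

theorem pE2 : StE2 :=
  Pool.Agent.Helper99.RG.hE2 pMB pU1 pOCT

theorem pE1 : StE1 :=
  Pool.Agent.Helper13.RG.hE1 pPT pSINC pSC pSUF pOCT

theorem pL2A : StL2A :=
  Pool.Agent.Helper80.RG.hL2A 

theorem pL2B : StL2B :=
  Pool.Agent.Helper62.RG.hL2B 

theorem pFAM : StFAM :=
  Pool.Agent.Helper33.RG.hFAM pYB pYC pYL pMB pU1 pU2 pU3 pL2A pL2B pPT

theorem pRID : StRID :=
  Pool.Agent.Helper86.RG.hRID pPT

theorem pPAR : StPAR :=
  Pool.Agent.Helper70.RG.hPAR pPT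

theorem pRA : StRA :=
  Pool.Agent.Helper99.RG.hRA 

theorem pRB : StRB :=
  Pool.Agent.Helper99.RG.hRB 

theorem pRF1 : StRF1 :=
  Pool.Agent.Helper94.RG.hRF1 pPT pRID pRB

theorem pRF2 : StRF2 :=
  Pool.Agent.Helper20.RG.hRF2 pPT pPAR

theorem pSM1 : StSM1 :=
  Pool.Agent.Helper17.RG.hSM1 pPT

theorem pSM2 : StSM2 :=
  Pool.Agent.Helper99.RG.hSM2 pPT

theorem pSM3 : StSM3 :=
  Pool.Agent.Helper99.RG.hSM3 pPT pSM1 pSM2

theorem pRDG : StRDG :=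
  Pool.Agent.Helper67.RG.hRDG pPT pRID pRA pRF1 pRF2 pSM3

theorem pRDS : StRDS :=
  Pool.Agent.Helper15.RG.hRDS pPT pRDG

theorem pWA : StWA :=
  Pool.Agent.Helper3.RG.hWA 

theorem pWB : StWB :=
  Pool.Agent.Helper43.RG.hWB pPT

theorem pWC : StWC :=
  Pool.Agent.Helper75.RG.hWC pWA pWB

theorem pGD : StGD :=
  Pool.Agent.Helper62.RG.hGD pPT

theorem pPS : StPS :=
  Pool.Agent.Helper89.RG.hPS 

theorem pINV : StINV :=
  Pool.Agent.Helper40.RG.hINV 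

theorem pLBW : StLBW :=
  Pool.Agent.Helper16.RG.hLBW 

theorem pMK : StMK :=
  Pool.Agent.Helper88.RG.hMK 

theorem pER : StER :=
  Pool.Agent.Helper29.RG.hER 

theorem pWCL : StWCL :=
  Pool.Agent.Helper43.RG.hWCL pWC pRDS pINV pLBW

theorem pNBA : StNBA :=
  Pool.Agent.Helper43.RG.hNBA 

theorem pNBB : StNBB :=
  Pool.Agent.Helper43.RG.hNBB 

theorem pNBC : StNBC :=
  Pool.Agent.Helper43.RG.hNBC 

theorem pNBD : StNBD :=
  Pool.Agent.Helper43.RG.hNBD 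

theorem pCLS : StCLS :=
  Pool.Agent.Helper94.RG.hCLS pPS pMK pER pWCL pNBA pNBB pNBC pNBD

theorem pCU : StCU :=
  Pool.Agent.Helper20.RG.hCU pCLS

theorem pMM : StMM :=
  Pool.Agent.Helper88.RG.hMM 

theorem pSYS : StSYS :=
  Pool.Agent.Helper99.RG.hSYS pPT pMM

theorem pCHI : StCHI :=
  Pool.Agent.Helper95.RG.hCHI pPT pMM

theorem pLEB : StLEB :=
  Pool.Agent.Helper33.RG.hLEB 

theorem pDO1 : StDO1 :=
  Pool.Agent.Helper99.RG.hDO1 pPT pMEA pMM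

theorem pDOM : StDOM :=
  Pool.Agent.Helper24.RG.hDOM pPT pMM pLEB pDO1

theorem pHLY : StHLY :=
  Pool.Agent.Helper8.RG.hHLY pPT pMEA

theorem pERR : StERR :=
  Pool.Agent.Helper74.RG.hERR pPT pYB pMM pSYS pCHI pE1 pE2 pL2A

theorem pTOP : StTOP :=
  Pool.Agent.Helper15.RG.hTOP pYB pSYS pU1 pU2 pL2A

theorem pF3 : StF3 :=
  Pool.Agent.Helper76.RG.hF3 pPT pYB pSYS pFAM pERR pTOP pGD pCU

theorem pCAL : StCAL :=
  Pool.Agent.Helper24.RG.hCAL 

theorem pCOR : StCOR :=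
  Pool.Agent.Helper3.RG.hCOR pPT pMM pSYS pDOM pHLY pF3 pCAL

theorem pCO2 : StCO2 :=
  Pool.Agent.Helper79.RG.hCO2 pPT pCOR

theorem pINT : StINT :=
  Pool.Agent.Helper24.RG.hINT 

theorem pRES : StRES :=
  Pool.Agent.Helper88.RG.hRES 

theorem pCAP : StCAP :=
  Pool.Agent.Helper93.RG.hCAP 

theorem pGEX : StGEX :=
  Pool.Agent.Helper39.RG.hGEX 

theorem pFRM : StFRM :=
  Pool.Agent.Helper38.RG.hFRM pGEX

theorem pCOV : StCOV :=
  Pool.Agent.Helper41.RG.hCOV pPT pFRM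

theorem pFIN : StFIN :=
  Pool.Agent.Helper17.RG.hFIN 

theorem pMAI : StMAI :=
  Pool.Agent.Helper71.RG.hMAI pPT pCOV pCAP pCO2 pINT pRES pFIN

end Pool.Agent.Helper20.RG
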