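import Pool.Agent.Helper20.RG.Defs2

/-!
# Project RG (MP_cb927e_an): interface statements, part 2 (one class: persistence, windows, numbers)

`N = 2^u`, `γ = 2^(b-1) 64 u` is the gap of the block `b - 1`, `w = om u (b-1) (16u-i)` the length of window `i`.
-/

set_option autoImplicit false

open MeasureTheory Set Filter Topology
open scoped ENNReal RealInnerProductSpace

namespace Pool.Agent.Helper20.RG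

open Pool.Agent.Helper68.LM (Pl BB Bd Av HL ft fm DQ)

/-- GD (about 60 lines).  Change of variables `y = x - 2^k w`: `∫_{Sq x (Cf 2^k)} |g| = 4^k ∫_{Sq 0 Cf} |g (x - 2^k w)| dw`, and
`Sq 0 Cf ⊆ closedBall 0 (2 Cf) ⊆ closedBall 0 ρ`.  Hypotheses: hPT. -/
def StGD : Prop :=
  ∀ (Cf ρ Λ : ℝ) (g : Pl → ℝ) (x : Pl), 1 ≤ Cf → 2 * Cf ≤ ρ → 0 ≤ Λ → BB g →
    HL ρ g x ≤ ENNReal.ofReal Λ → Loc Cf Λ g x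

/-- PS (about 120 lines), persistence.  Number the pairs `(b,l)`, `b ≤ 3u`, `l < 16u`, by `t = 16 u b + l`, and let `x_t = v (om u b l)`,
also `x_M = v (om u (3u+1) 0)`, `M = 16u(3u+1) = Ms u` (note `om u b (16u) = om u (b+1) 0`).  For fixed `j` with `η ≤ |x_0|`: if
`|x_t| ≥ η (1 - t/(2M))` for all `t ≤ M` then `j ∈ Pe (3u+1)`; otherwise let `t ≥ 1` be the first failure, `t - 1 = 16 u b + l`, `l < 16u`,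
`b ≤ 3u`: `|x_(t-1) - x_t| ≥ η/(2M)` and `|x_t'| ≥ η/2` for `t' ≤ t - 1`: `j ∈ Pe b`.  Then count.  Hypotheses: none. -/
def StPS : Prop :=
  ∀ (Zf : ℕ → ℤ → ℕ → Pl → ℝ) (u : ℕ) (η : ℝ) (k : ℤ) (x : Pl), 1 ≤ u → 0 < η →
    {j : ℕ | j < 2 ^ u ∧ η ≤ |Zf (om u 0 0) k j x|}.ncard ≤
      ∑ b ∈ Finset.range (3 * u + 2), (Pe Zf u η b k x).ncard

/-- INV (about 120 lines).  `|λ| ≤ 10 · 2^(k + w - γ/4)`, `γ/4 = 2^(b-1) 16u ≥ 16u`.  `Fam.inv` at the length `w`: change at most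
`2|λ|/2^(k+w) ≤ 20 · 2^(-16u) ≤ η/8`.  At the lengths `W' = om u b l ≥ w` the change is at most `20 · 2^(-16u)` each, so the difference changes by
at most `40 · 2^(-16u) ≤ η/(8 Ms u)`: `320 · 16u(3u+1) ≤ 2^(13u)` for `u ≥ 2` and `η ≥ 2^(-3u)`.  Hypotheses: none. -/
def StINV : Prop :=
  ∀ (u : ℕ) (Cf : ℝ) (K : ℕ) (A σ : ℝ) (s : ℕ → ℝ) (g : Pl → ℝ) (Zf : ℕ → ℤ → ℕ → Pl → ℝ) (η : ℝ)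
    (b i : ℕ) (k : ℤ) (j : ℕ), Fam u Cf K A σ s g Zf → 2 ≤ u → (2 : ℝ) ^ (-(3 * (u : ℤ))) ≤ η → 1 ≤ b →
      i < 16 * u → j < 2 ^ u → ∀ x ∈ Ew Zf u η b i (3 / 8) k j, ∀ lam : ℝ,
      |lam| ≤ 10 * (2 : ℝ) ^ (k + (om u (b - 1) (16 * u - i) : ℤ) - ((2 ^ (b - 1) * (16 * u) : ℕ) : ℤ)) →
        x + lam • E (s j) ∈ Ew Zf u η b i (1 / 4) k j

/-- LBW (about 80 lines).  On `Ew .. (1/4)` one has `|Zf w k j| > η/4`, so the measure is at most `(16/η²) ∑_j ∫_{Sq x (4·2^(k+w))} |Zf w k j|²`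
`≤ (16/η²) Cf ∫_{Sq x (Cf 2^(k+w))} g²` (`Fam.lb`) `≤ (16 Cf/η²) Λ 4^(k+w)` (`g² ≤ g`, `Loc` at `k + w`).  Hypotheses: none. -/
def StLBW : Prop :=
  ∀ (u : ℕ) (Cf : ℝ) (K : ℕ) (A σ : ℝ) (s : ℕ → ℝ) (g : Pl → ℝ) (Zf : ℕ → ℤ → ℕ → Pl → ℝ) (η Λ : ℝ)
    (b i : ℕ) (k : ℤ) (x : Pl), Fam u Cf K A σ s g Zf → 1 ≤ Cf → 0 < η → 0 ≤ Λ → BB g →
      (∀ x, 0 ≤ g x ∧ g x ≤ 1) → Loc Cf Λ g x →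
      ∑ j ∈ Finset.range (2 ^ u), volume (Ew Zf u η b i (1 / 4) k j ∩
        Sq x (4 * (2 : ℝ) ^ (k + (om u (b - 1) (16 * u - i) : ℤ)))) ≤
        ENNReal.ofReal (16 * Cf * Λ / η ^ 2 * (4 : ℝ) ^ (k + (om u (b - 1) (16 * u - i) : ℤ)))

/-- MK (about 150 lines), Markov.  `m₁ 1[m₁ ≤ #Pe b] ≤ ∑_j ∑_{l < 16u} (2 Ms/η)² |Zf (om u b l) - Zf (om u b (l+1))|²`; integrate and sum over `k`: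
`Fam.dif` with `W = om u b 0 = 2^b 1024 u²`, `w = om u b l`, `w' = om u b (l+1) ≤ 2W`.  Hypotheses: none. -/
def StMK : Prop :=
  ∀ (u : ℕ) (Cf : ℝ) (K : ℕ) (A σ : ℝ) (s : ℕ → ℝ) (g : Pl → ℝ) (Zf : ℕ → ℤ → ℕ → Pl → ℝ) (η m₁ : ℝ)
    (b T : ℕ), Fam u Cf K A σ s g Zf → 1 ≤ Cf → 0 ≤ A → 1 ≤ u → 0 < η → 0 < m₁ → b ≤ 3 * u → 1 ≤ T →
      ∑' k : ℤ, volume {x | m₁ ≤ ((Pe Zf u η b k x).ncard : ℝ)} ≤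
        ENNReal.ofReal (1 / m₁ * (2 * Ms u / η) ^ 2 *
          (16 * u * (Cf * mu u A σ ((2 : ℝ) ^ b * (1024 * (u : ℝ) ^ 2)) T))) * ∫⁻ x, ‖g x‖ₑ ^ 2

/-- ER (about 120 lines).  Chebyshev: `1_{Ew (1/4)} ≤ (4/η)² |Zf w k j|²` and `Fam.all`; for `b ≤ 3u` also
`1_{Ew (1/4)} ≤ ∑_{l < 16u} (4 Ms/η)² |Zf (om u b l) - Zf (om u b (l+1))|²` and `Fam.dif` as in MK.  Hypotheses: none. -/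
def StER : Prop :=
  ∀ (u : ℕ) (Cf : ℝ) (K : ℕ) (A σ : ℝ) (s : ℕ → ℝ) (g : Pl → ℝ) (Zf : ℕ → ℤ → ℕ → Pl → ℝ) (η : ℝ)
    (b i : ℕ), Fam u Cf K A σ s g Zf → 1 ≤ Cf → 0 ≤ A → 1 ≤ u → 0 < η →
      (∑' k : ℤ, ∑ j ∈ Finset.range (2 ^ u), volume (Ew Zf u η b i (1 / 4) k j) ≤
        ENNReal.ofReal ((4 / η) ^ 2 * (Cf * (K + u + 1))) * ∫⁻ x, ‖g x‖ₑ ^ 2) ∧
      (b ≤ 3 * u → ∀ T : ℕ, 1 ≤ T →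
        ∑' k : ℤ, ∑ j ∈ Finset.range (2 ^ u), volume (Ew Zf u η b i (1 / 4) k j) ≤
          ENNReal.ofReal ((4 * Ms u / η) ^ 2 *
            (16 * u * (Cf * mu u A σ ((2 : ℝ) ^ b * (1024 * (u : ℝ) ^ 2)) T))) * ∫⁻ x, ‖g x‖ₑ ^ 2)

/-- WCL (about 250 lines), a class through windows.  `a = k + om u (b-1) (16u)`, `γ = 2^(b-1) 64u`; then
`a - iγ = k + om u (b-1) (16u-i)`.  WC with `n = 16u`, `S i j = Ew .. b i (1/4) k j` (open sets by `Fam.cont`, so measurable),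
`r₁ i = 2·2^(a-iγ-3γ/4)`, `r₂ i = (5/2)·2^(a-iγ-γ/2)`, `D₀ = 16 Cf Λ/η²` (LBW).  A point `x ∈ G` with `m₁ ≤ #Pe b` is either in the set of WC, or there is
`i < 16u` with both `Dens` (`D = 64 D₀`); `Pe b ⊆ {j : x ∈ Ew .. b i (3/8) k j}` (take `b' = b-1`, `l = 16u - i`; `η/2 > 3η/8`), so RDS applies with
`Et j = Ew (3/8)`, `Er j = Ew (1/4)`, `p = a - iγ - 3γ/4`, `L = 2^(a-iγ-γ/2)`, `L₂ = 2^(a-iγ-γ/4)`, `α = 2^(-γ/16)` (INV gives the ridge property):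
`100·2^p ≤ α L` as `3γ/16 ≥ 12u ≥ 24`, `2^u L ≤ α² L₂` as `γ/8 ≥ 8u`; exotic partners: `Slo` with `i = γ/16 = 2^(b+1) u` gives `ns u b A σ`
(for `b ≥ 1`, `2^(b-1)·4u = 2^(b+1) u`).  Hypotheses: hWC, hRDS, hINV, hLBW. -/
def StWCL : Prop :=
  ∃ C₂ : ℝ, 0 < C₂ ∧ ∀ (u : ℕ) (Cf : ℝ) (K : ℕ) (A σ : ℝ) (s : ℕ → ℝ) (g : Pl → ℝ)
    (Zf : ℕ → ℤ → ℕ → Pl → ℝ) (η Λ m₁ : ℝ) (b : ℕ) (k : ℤ) (G : Set Pl),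
    Fam u Cf K A σ s g Zf → 1 ≤ Cf → 0 ≤ A → Slo u A σ s → BB g → (∀ x, 0 ≤ g x ∧ g x ≤ 1) →
    (∀ x ∈ G, Loc Cf Λ g x) → 2 ≤ u → (2 : ℝ) ^ (-(3 * (u : ℤ))) ≤ η → η ≤ 1 → 0 < Λ → 1 ≤ b →
    200 * ns u b A σ ≤ m₁ → 1000 ≤ m₁ → 200 * (64 * (16 * Cf * Λ / η ^ 2)) ≤ m₁ →
      volume {x | x ∈ G ∧ m₁ ≤ ((Pe Zf u η b k x).ncard : ℝ)} ≤
        ENNReal.ofReal ((1 / 2) ^ (16 * u) / (16 * Cf * Λ / η ^ 2)) *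
          (∑ j ∈ Finset.range (2 ^ u), volume (Ew Zf u η b 0 (1 / 4) k j)) +
        ∑ i ∈ Finset.range (16 * u),
          ENNReal.ofReal (C₂ * ns u b A σ * (64 * (16 * Cf * Λ / η ^ 2)) / m₁ ^ 3) *
            ∑ j ∈ Finset.range (2 ^ u), volume (Ew Zf u η b i (1 / 4) k j)

/-- NBA (about 150 lines), numbers.  `P` denotes a polynomial in `u` (with constants depending on `Cf, A, σ, q`).  `N = 2^u`.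
`T = ⌈N^(σ/(σ+1))⌉`: `T ≤ 2 N^(σ/(σ+1))`, `N T^(-1/σ) ≤ N^(σ/(σ+1))`, so `mu ≤ P N^(σ/(σ+1))`.  The expression is at most
`P m₁^(-1) η^(-2) N^(σ/(σ+1)) = P η^(-1) Λ^(-1) N^(-1/(σ+1)) ≤ P Λ^(-2) N^(-1/(σ+1))` (`η ≥ Λ/u^6`), and `Λ^(-2) ≤ 2 Λ^(-q)` as `Λ ≤ 2`, `q - 2 < 1`.
`P(u) 2^(-u/(σ+1)) ≤ C 2^(-ε u)` with `ε = 1/(2(σ+1))`.  Hypotheses: none. -/
def StNBA : Prop :=
  ∀ Cf A σ q : ℝ, 1 ≤ Cf → 0 ≤ A → 2 < σ → σ < q → q < 3 → ∃ (u₀ : ℕ) (C ε : ℝ), 0 < C ∧ 0 < ε ∧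
    ∀ (u : ℕ) (Λ η m₁ : ℝ), u₀ ≤ u → Num u σ q Λ η m₁ → ∃ T : ℕ, 1 ≤ T ∧
      1 / m₁ * (2 * Ms u / η) ^ 2 *
        (16 * u * (Cf * mu u A σ ((2 : ℝ) ^ 0 * (1024 * (u : ℝ) ^ 2)) T)) ≤
      C * (2 : ℝ) ^ (-(ε * u)) * Λ ^ (-q)

/-- NBB (about 250 lines), numbers.  `W = 2^b 1024 u²`, `P` polynomials in `u`.  `m₁ ≥ N^((q-σ)/2)/(u^6(3u+2)) ≥ 400` for large `u`, `m₁ ≤ N`
(`η ≥ Λ/u^6`).  From `m₁ < 200 ns`: `N A (2^(b+1) u)^(-1/σ) ≥ m₁/400`, so `A > 0`, `W = 512 u (2^(b+1) u) ≤ 512 u (400 A N/m₁)^σ`.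
`T = ⌈(W N)^(σ/(σ+1))⌉`: `mu ≤ (2 + A) (W N)^(σ/(σ+1)) + W ≤ P N^σ m₁^(-σ²/(σ+1))` (`W ≤ P N^σ m₁^(-σ) ≤ P N^σ m₁^(-σ²/(σ+1))`).
So the expression is `≤ P m₁^(-1-σ²/(σ+1)) η^(-2) N^σ`.  `N^σ = N^(σ-q) N^q`, `N = m₁ u^6 (3u+2) η/Λ`:
`≤ P N^(σ-q) m₁^(q-1-σ²/(σ+1)) η^(q-2) Λ^(-q)`, `q - 1 - σ²/(σ+1) = (q - σ) - 1/(σ+1)`, `m₁^(q-σ) ≤ N^(q-σ)`, `η^(q-2) ≤ 1`: `≤ P m₁^(-1/(σ+1)) Λ^(-q)`, and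
`m₁ ≥ N^((q-σ)/2)/P`.  `ε = (q-σ)/(4(σ+1))`.  Hypotheses: none. -/
def StNBB : Prop :=
  ∀ Cf A σ q : ℝ, 1 ≤ Cf → 0 ≤ A → 2 < σ → σ < q → q < 3 → ∃ (u₀ : ℕ) (C ε : ℝ), 0 < C ∧ 0 < ε ∧
    ∀ (u : ℕ) (Λ η m₁ : ℝ) (b : ℕ), u₀ ≤ u → Num u σ q Λ η m₁ → 1 ≤ b → b ≤ 3 * u →
      m₁ < 200 * ns u b A σ → ∃ T : ℕ, 1 ≤ T ∧
      1 / m₁ * (2 * Ms u / η) ^ 2 *
        (16 * u * (Cf * mu u A σ ((2 : ℝ) ^ b * (1024 * (u : ℝ) ^ 2)) T)) ≤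
      C * (2 : ℝ) ^ (-(ε * u)) * Λ ^ (-q)

/-- NBC (about 60 lines), numbers for large `u`.  `m₁ ≥ N^((q-σ)/2)/(u^6 (3u+2))`; `200·64·16 Cf Λ/η² ≤ m₁` is equivalent to
`C u^6 (3u+2) ≤ N η`, and `N η ≥ N Λ/u^6 ≥ N^((q-σ)/2)/u^6`; `η ≥ Λ/u^6 ≥ 2^(-u)/u^6 ≥ 2^(-3u)` (as `N Λ ≥ 1`).  Last: the left side is
`N^(-16) Λ^(-1) (K + u + 1)`, `K ≤ Cf N^3`, `Λ^(-1) ≤ N`, and `Λ^(-q) ≥ 2^(-3)`.  Hypotheses: none. -/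
def StNBC : Prop :=
  ∀ Cf σ q : ℝ, 1 ≤ Cf → 2 < σ → σ < q → q < 3 → ∃ (u₀ : ℕ) (C ε : ℝ), 0 < C ∧ 0 < ε ∧
    ∀ (u : ℕ) (Λ η m₁ K : ℝ), u₀ ≤ u → Num u σ q Λ η m₁ → 0 ≤ K → K ≤ Cf * (2 : ℝ) ^ (σ * u) →
      1000 ≤ m₁ ∧ 200 * (64 * (16 * Cf * Λ / η ^ 2)) ≤ m₁ ∧ (2 : ℝ) ^ (-(3 * (u : ℤ))) ≤ η ∧
      (1 / 2) ^ (16 * u) / (16 * Cf * Λ / η ^ 2) * ((4 / η) ^ 2 * (Cf * (K + u + 1))) ≤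
        C * (2 : ℝ) ^ (-(ε * u)) * Λ ^ (-q)

/-- NBD (about 250 lines), numbers.  `W = 2^b 1024 u² = 512 u (2^(b+1) u)`, `P` polynomials in `u`.  CLAIM: for a suitable choice of `V`,
`ns V ≤ P η^(-2) N^σ`.  If `W ≥ N^σ` (in particular if `b = 3u+1`, `W ≥ N^3`): `ns ≤ 1 + A N (512 u)^(1/σ) W^(-1/σ) ≤ P`, and the first `V`
is `≤ P η^(-2) N^σ`.  If `W < N^σ` then `b ≤ 3u`; second `V` with `T = ⌈(W N)^(σ/(σ+1))⌉`: `mu ≤ (2+A) (W N)^(σ/(σ+1)) + W`, and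
`(1 + P N W^(-1/σ)) ((W N)^(σ/(σ+1)) + W) ≤ P N^σ`: all powers of `W` here are nonnegative (`σ/(σ+1) - 1/σ = (σ²-σ-1)/(σ(σ+1)) > 0`), or the term is
`(WN)^(σ/(σ+1))` or `W`, and at `W = N^σ` one gets `(N^(σ+1))^(σ/(σ+1)) = N^σ`, `N · N^(-1) · N^σ`.  Then the expression is
`≤ P Λ η^(-4) N^σ m₁^(-3) = P η^(-1) Λ^(-2) N^(σ-3) ≤ P Λ^(-3) N^(σ-3) = P Λ^(-q) N^(σ-q) (N Λ)^(q-3) ≤ P N^(σ-q) Λ^(-q)` (`N Λ ≥ 1`).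
`ε = (q-σ)/2`.  Hypotheses: none. -/
def StNBD : Prop :=
  ∀ Cf A σ q C₂ : ℝ, 1 ≤ Cf → 0 ≤ A → 2 < σ → σ < q → q < 3 → 0 < C₂ → ∃ (u₀ : ℕ) (C ε : ℝ),
    0 < C ∧ 0 < ε ∧ ∀ (u : ℕ) (Λ η m₁ K : ℝ) (b : ℕ), u₀ ≤ u → Num u σ q Λ η m₁ → 0 ≤ K →
      K ≤ Cf * (2 : ℝ) ^ (σ * u) → 1 ≤ b → b ≤ 3 * u + 1 →
      ∃ V : ℝ, 0 ≤ V ∧ (V = (4 / η) ^ 2 * (Cf * (K + u + 1)) ∨ (b ≤ 3 * u ∧ ∃ T : ℕ, 1 ≤ T ∧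
        V = (4 * Ms u / η) ^ 2 * (16 * u * (Cf * mu u A σ ((2 : ℝ) ^ b * (1024 * (u : ℝ) ^ 2)) T)))) ∧
      16 * u * (C₂ * ns u b A σ * (64 * (16 * Cf * Λ / η ^ 2)) / m₁ ^ 3) * V ≤
        C * (2 : ℝ) ^ (-(ε * u)) * Λ ^ (-q)

/-- CLS (about 200 lines), one threshold.  Let `m₁ = m/(3u+2)`.  By PS, for every `k` the set on the left is contained in the union over
`b < 3u+2` of `{x ∈ G : m₁ ≤ #Pe b}`.  `b = 0`: MK and NBA.  `1 ≤ b ≤ 3u` and `m₁ < 200 ns`: MK and NBB.  Otherwise `200 ns ≤ m₁` (for `b = 3u+1`: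
`ns ≤ 1 + A N (2^(3u) u)^(-1/σ) ≤ 1 + A` as `σ < 3`, so this holds for large `u`): WCL (conditions by NBC), ER (first or second bound according to NBD) and
NBC, NBD; `ns ≥ 1`.  Sum over the `3u+2` values of `b`, decrease `ε`.  Hypotheses: hPS, hMK, hER, hWCL, hNBA, hNBB, hNBC, hNBD. -/
def StCLS : Prop :=
  ∀ Cf A σ q : ℝ, 1 ≤ Cf → 0 ≤ A → 2 < σ → σ < q → q < 3 → ∃ (u₀ : ℕ) (C ε : ℝ), 0 < C ∧ 0 < ε ∧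
    ∀ (u K : ℕ) (s : ℕ → ℝ) (g : Pl → ℝ) (Zf : ℕ → ℤ → ℕ → Pl → ℝ) (Λ η m : ℝ) (G : Set Pl), u₀ ≤ u →
      Fam u Cf K A σ s g Zf → (K : ℝ) ≤ Cf * (2 : ℝ) ^ (σ * u) → Slo u A σ s → BB g →
      (∀ x, 0 ≤ g x ∧ g x ≤ 1) → (∀ x ∈ G, Loc Cf Λ g x) → Num u σ q Λ η (m / (3 * u + 2)) →
      ∑' k : ℤ, volume {x | x ∈ G ∧ m ≤ ({j : ℕ | j < 2 ^ u ∧
        η ≤ |Zf (om u 0 0) k j x|}.ncard : ℝ)} ≤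
        ENNReal.ofReal (C * (2 : ℝ) ^ (-(ε * u)) * Λ ^ (-q)) * ∫⁻ x, ‖g x‖ₑ ^ 2

/-- CU (about 250 lines), the class theorem.  `N = 2^u`.  If `N Λ < N^((q-σ)/2)`: Chebyshev and `Fam.tot`:
`≤ u^8 Λ^(-2) N^(-2) Cf (K+u+1) ≤ P Λ^(-2) N^(σ-2) = P Λ^(-q) (N Λ)^(q-2) N^(σ-q) ≤ P N^(-(q-σ)/2) Λ^(-q)` (`q - 2 < 1`).  Otherwise let `v_j = |Zf (om u 0 0) k j x| ≤ 1`,
`∑ v_j ≥ N Λ/u^4`.  The `j` with `v_j < Λ/(2u^4)` contribute at most half; for the others `2^(-i-1) < v_j ≤ 2^(-i)` for some `i ≤ 2u` (`u` large, `Λ ≥ 2^(-u)`), so with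
`η = 2^(-i-1) ≥ Λ/(4u^4)` for some `i ≤ 2u`: `#{j : η ≤ v_j} ≥ N Λ/(2u^4 · 2η · (2u+1)) ≥ m := N Λ/(u^6 η)`.  CLS for each of the `2u+1` values `η`
(`Num u σ q Λ η (m/(3u+2))` holds), decrease `ε`.  Hypotheses: hCLS. -/
def StCU : Prop :=
  ∀ Cf A σ q : ℝ, 1 ≤ Cf → 0 ≤ A → 2 < σ → σ < q → q < 3 → ∃ (u₀ : ℕ) (C ε : ℝ), 0 < C ∧ 0 < ε ∧
    ∀ (u K : ℕ) (s : ℕ → ℝ) (g : Pl → ℝ) (Zf : ℕ → ℤ → ℕ → Pl → ℝ) (Λ : ℝ) (G : Set Pl), u₀ ≤ u →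
      Fam u Cf K A σ s g Zf → (K : ℝ) ≤ Cf * (2 : ℝ) ^ (σ * u) → Slo u A σ s → BB g →
      (∀ x, 0 ≤ g x ∧ g x ≤ 1) → (∀ x ∈ G, Loc Cf Λ g x) → (2 : ℝ) ^ (-(u : ℤ)) ≤ Λ → Λ ≤ 1 →
      ∑' k : ℤ, volume {x | x ∈ G ∧ Λ / (u : ℝ) ^ 4 ≤
        |(1 / (2 : ℝ) ^ u) * ∑ j ∈ Finset.range (2 ^ u), Zf (om u 0 0) k j x|} ≤
        ENNReal.ofReal (C * (2 : ℝ) ^ (-(ε * u)) * Λ ^ (-q)) * ∫⁻ x, ‖g x‖ₑ ^ 2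

end Pool.Agent.Helper20.RG
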