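import Mathlib
import Pool.Agent.Helper68.LM.St

/-!
# Project RG (MP_cb927e_an): the lacunary maximal operator for an arbitrary convex curve

Definitions.  The plane is `Pl = EuclideanSpace ℝ (Fin 2)`, a point `x` has coordinates `x 0`, `x 1`.
Everything (averages `Av`, bounded functions `BB`, Fourier transforms `ft`, `fm`, dyadic squares `DQ`,
the maximal function `HL`) is taken from `Pool.Agent.Helper68.LM.St`.
-/

set_option autoImplicit false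

open MeasureTheory Set Filter Topology
open scoped ENNReal RealInnerProductSpace

namespace Pool.Agent.Helper20.RG

open Pool.Agent.Helper68.LM (Pl BB Bd Av HL ft fm DQ)

/-- the point with coordinates `a`, `b` -/
noncomputable def pt (a b : ℝ) : Pl := !₂[a, b]

/-- the direction of slope `s` -/
noncomputable def E (s : ℝ) : Pl := pt 1 s

/-- the linear form which vanishes on `E s` -/
def pr (s : ℝ) (y : Pl) : ℝ := y 1 - s * y 0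

/-- the closed square of centre `x` and half side `r` -/
def Sq (x : Pl) (r : ℝ) : Set Pl := {y | |y 0 - x 0| ≤ r ∧ |y 1 - x 1| ≤ r}

/-- uniform probability measure on the unit square -/
noncomputable def bx : Measure Pl := volume.restrict (Sq 0 (1 / 2))

/-- uniform probability measure on the segment `{t E s : |t| ≤ 1/2}` -/
noncomputable def sg (s : ℝ) : Measure Pl :=
  (volume.restrict (Icc (-(1 / 2) : ℝ) (1 / 2))).map (fun t => t • E s)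

/-- average over a box of side `2 · 2^(k-m)` and over a segment of length `2^k ℓ` (parameter length) in
the direction `E s`, translated by `2^k c` -/
noncomputable def Y (s : ℝ) (c : Pl) (m : ℕ) (ℓ : ℝ) (k : ℤ) (g : Pl → ℝ) (x : Pl) : ℝ :=
  Av (sg s) ((2 : ℝ) ^ k * ℓ) (Av bx (2 * (2 : ℝ) ^ (k - (m : ℤ))) g) (x - (2 : ℝ) ^ k • c)

/-- difference of two box scales -/
noncomputable def Z (s : ℝ) (c : Pl) (m m' : ℕ) (ℓ : ℝ) (k : ℤ) (g : Pl → ℝ) (x : Pl) : ℝ :=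
  Y s c m ℓ k g x - Y s c m' ℓ k g x

/-- the multiplier of `Y` (at `k = 0`) -/
noncomputable def Yh (s : ℝ) (c : Pl) (m : ℕ) (ℓ : ℝ) (ξ : Pl) : ℂ :=
  Complex.exp (((-2 * Real.pi * ⟪c, ξ⟫ : ℝ) : ℂ) * Complex.I) *
    ((Real.sinc (Real.pi * ℓ * ⟪E s, ξ⟫) *
      (Real.sinc (2 * Real.pi * (2 : ℝ) ^ (-(m : ℤ)) * ξ 0) *
        Real.sinc (2 * Real.pi * (2 : ℝ) ^ (-(m : ℤ)) * ξ 1)) : ℝ) : ℂ)

/-- the multiplier of `Z` (at `k = 0`) -/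
noncomputable def Zh (s : ℝ) (c : Pl) (m m' : ℕ) (ℓ : ℝ) (ξ : Pl) : ℂ :=
  Yh s c m ℓ ξ - Yh s c m' ℓ ξ

/-- A system of `2^u` chords: slopes `s j`, centres `c j`, box scales `m' j ≤ m j ≤ K`.
`cnt`: few chords with a large turning have slopes in a given interval.
`sep`: the number of slopes in an interval of radius `2^(-i)` is at most `1 + 2^u A i^(-1/σ)`. -/
structure Sys (u : ℕ) (s : ℕ → ℝ) (c : ℕ → Pl) (m m' : ℕ → ℕ) (C R : ℝ) (K : ℕ) (A σ : ℝ) :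
    Prop where
  slope : ∀ j < 2 ^ u, |s j| ≤ 1
  cen : ∀ j < 2 ^ u, ‖c j‖ ≤ R
  mm : ∀ j < 2 ^ u, m' j ≤ m j ∧ m j ≤ K
  cnt : ∀ w T τ : ℝ, 0 < w → 0 ≤ T →
    ({j : ℕ | j < 2 ^ u ∧ w ≤ (2 : ℝ) ^ u * (2 : ℝ) ^ (-(m' j : ℤ)) ∧ |s j - τ| ≤ T}.ncard : ℝ) ≤
      C * (1 + T / w)
  sep : ∀ (τ : ℝ) (i : ℕ), 1 ≤ i →
    ({j : ℕ | j < 2 ^ u ∧ |s j - τ| ≤ (2 : ℝ) ^ (-(i : ℤ))}.ncard : ℝ) ≤
      1 + (2 : ℝ) ^ u * (A * (i : ℝ) ^ (-(1 / σ)))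

/-- the family `S j`, `j < N`, has density at most `D` in `Sq x r` -/
def Dens (S : ℕ → Set Pl) (N : ℕ) (x : Pl) (r D : ℝ) : Prop :=
  ∑ j ∈ Finset.range N, volume (S j ∩ Sq x r) ≤ ENNReal.ofReal (D * r ^ 2)

/-- the half open dyadic interval of index `a = (scale, position)` -/
def dI (a : ℤ × ℤ) : Set ℝ := Ico ((a.2 : ℝ) * (2 : ℝ) ^ a.1) (((a.2 : ℝ) + 1) * (2 : ℝ) ^ a.1)

/-- the closed concentric interval, five times as long -/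
def dI5 (a : ℤ × ℤ) : Set ℝ :=
  Icc (((a.2 : ℝ) - 2) * (2 : ℝ) ^ a.1) (((a.2 : ℝ) + 3) * (2 : ℝ) ^ a.1)

/-- the union of the enlarged intervals -/
def Om (I : Set (ℤ × ℤ)) : Set ℝ := ⋃ a ∈ I, dI5 a

/-- indicator function of a set of reals -/
noncomputable def ind (O : Set ℝ) (t : ℝ) : ℝ := O.indicator (fun _ => (1 : ℝ)) t

/-- average over an interval of half length `L` -/
noncomputable def bL (L : ℝ) (h : ℝ → ℝ) (t : ℝ) : ℝ := (1 / (2 * L)) * ∫ r in (-L)..L, h (t + r)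

/-- `h` minus its average -/
noncomputable def tl (L : ℝ) (h : ℝ → ℝ) (t : ℝ) : ℝ := h t - bL L h t

/-- one dimensional cutoff: `1` on `[-1,1]`, `0` outside `[-2,2]`, Lipschitz -/
noncomputable def c1 (t : ℝ) : ℝ := max 0 (min 1 (2 - |t|))

/-- cutoff at the square `Sq z L₂` -/
noncomputable def cut (z : Pl) (L₂ : ℝ) (y : Pl) : ℝ := c1 ((y 0 - z 0) / L₂) * c1 ((y 1 - z 1) / L₂)

/-- `c` is dominated by `a` and `b` -/
def Dom (s w : ℕ → ℝ) (a b c : ℕ) : Prop :=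
  ∃ μ ν : ℝ, |μ| ≤ 1 ∧ |ν| ≤ 1 ∧ 1 / w c = μ * (1 / w a) + ν * (1 / w b) ∧
    s c / w c = μ * (s a / w a) + ν * (s b / w b)

/-- the counting function of the enlarged ridge sets -/
noncomputable def Gs (N : ℕ) (s : ℕ → ℝ) (I : ℕ → Set (ℤ × ℤ)) (y : Pl) : ℝ :=
  ∑ j ∈ Finset.range N, ind (Om (I j)) (pr (s j) y)

/-- its vertical average -/
noncomputable def Gv (N : ℕ) (s : ℕ → ℝ) (I : ℕ → Set (ℤ × ℤ)) (L : ℝ) (y : Pl) : ℝ :=
  ∑ j ∈ Finset.range N, bL L (ind (Om (I j))) (pr (s j) y)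

/-- the set where the counting function is large compared with its vertical average -/
def Hs (N : ℕ) (s : ℕ → ℝ) (I : ℕ → Set (ℤ × ℤ)) (z : Pl) (L L₂ : ℝ) : Set Pl :=
  {y | y ∈ Sq z L₂ ∧ 0 < Gs N s I y ∧ Gv N s I L y ≤ Gs N s I y / 4}

/-- The data of the ridge theorem in a square `Sq z L₂`.  `F j` are open sets of reals, `I j` maximal
dyadic intervals of length at most `2^p` in which `F j` has density at least `1/Γ`. -/
structure RDat (N : ℕ) (s : ℕ → ℝ) (Er : ℕ → Set Pl) (F : ℕ → Set ℝ) (I : ℕ → Set (ℤ × ℤ)) (z : Pl)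
    (p : ℤ) (L L₂ α D m nst Γ : ℝ) : Prop where
  slope : ∀ j < N, |s j| ≤ 1
  opn : ∀ j < N, IsOpen (F j)
  mes : ∀ j < N, MeasurableSet (Er j)
  ridge : ∀ j < N, ∀ y ∈ Sq z (5 * L₂), pr (s j) y ∈ F j → y ∈ Er j
  i1 : ∀ j < N, ∀ a ∈ I j, a.1 ≤ p ∧ ENNReal.ofReal ((2 : ℝ) ^ a.1 / Γ) ≤ volume (F j ∩ dI a) ∧
    (a.1 < p → volume (F j ∩ dI a) ≤ ENNReal.ofReal (2 * (2 : ℝ) ^ a.1 / Γ))
  i2 : ∀ j < N, ∀ a ∈ I j, ∀ b ∈ I j, a ≠ b → Disjoint (dI a) (dI b)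
  i3 : ∀ j < N, F j ⊆ ⋃ a ∈ I j, dI a
  i4 : ∀ j < N, ∀ A B : ℝ, A ≤ B → volume (Om (I j) ∩ Icc A B) ≤
    ENNReal.ofReal (5 * Γ) * volume (F j ∩ Icc (A - 3 * (2 : ℝ) ^ p) (B + 3 * (2 : ℝ) ^ p))
  al : 0 < α ∧ α ≤ 1
  sc3 : 100 * (2 : ℝ) ^ p ≤ α * L
  scN : (N : ℝ) * L ≤ α ^ 2 * L₂
  exo : ∀ j < N, ({j' : ℕ | j' < N ∧ |s j - s j'| ≤ α}.ncard : ℝ) ≤ nst
  mn : 200 * nst ≤ m
  m1 : 1000 ≤ m ∧ m ≤ N
  gam : Γ = m / (200 * D) ∧ 1 ≤ Γ ∧ 0 < D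

/-- the convex function `φ` has slopes `τ` between `-1` and `1` -/
def Graph (φ τ : ℝ → ℝ) : Prop :=
  (∀ t, |τ t| ≤ 1) ∧ ∀ t t' : ℝ, t ≤ t' → τ t * (t' - t) ≤ φ t' - φ t ∧ φ t' - φ t ≤ τ t' * (t' - t)

/-- the slopes are equidistributed: an interval of slopes of radius `2^(-i)` corresponds to a set of
measure at most `A i^(-1/σ)` -/
def Gap (A σ : ℝ) (τ : ℝ → ℝ) : Prop :=
  ∀ (θ : ℝ) (i : ℕ), 1 ≤ i → volume {t : ℝ | t ∈ Icc (0 : ℝ) 1 ∧ |τ t - θ| ≤ (2 : ℝ) ^ (-(i : ℤ))} ≤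
    ENNReal.ofReal (A * (i : ℝ) ^ (-(1 / σ)))

/-- the measure `dt` on the curve `t ↦ c + (t, φ t)`, `0 ≤ t ≤ 1` -/
noncomputable def arc (c : Pl) (φ : ℝ → ℝ) : Measure Pl :=
  (volume.restrict (Icc (0 : ℝ) 1)).map (fun t => c + pt t (φ t))

/-- midpoint of the dyadic interval `[j/2^u, (j+1)/2^u]` -/
noncomputable def tm (u j : ℕ) : ℝ := ((j : ℝ) + 1 / 2) / 2 ^ u

/-- centre of the chord -/
noncomputable def ce (c : Pl) (φ : ℝ → ℝ) (u j : ℕ) : Pl := c + pt (tm u j) (φ (tm u j))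

/-- turning of the curve over the tripled dyadic interval -/
noncomputable def trn (τ : ℝ → ℝ) (u j : ℕ) : ℝ :=
  τ (min 1 (((j : ℝ) + 2) / 2 ^ u)) - τ (max 0 (((j : ℝ) - 1) / 2 ^ u))

/-- box scale of the chord: the largest `m` with `2^m ≤ 2^u / trn` -/
noncomputable def mm (τ : ℝ → ℝ) (u j : ℕ) : ℕ := ⌊Real.logb 2 ((2 : ℝ) ^ u / trn τ u j)⌋₊

/-- approximate average at level `u` -/
noncomputable def Sa (c : Pl) (φ τ : ℝ → ℝ) (u : ℕ) (k : ℤ) (g : Pl → ℝ) (x : Pl) : ℝ :=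
  (1 / (2 : ℝ) ^ u) * ∑ j ∈ Finset.range (2 ^ u),
    Y (τ (tm u j)) (ce c φ u j) (mm τ u j) (1 / (2 : ℝ) ^ u) k g x

end Pool.Agent.Helper20.RG
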