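import Pool.Agent.Helper20.RG.St1

/-!
# Project RG (MP_cb927e_an): definitions for part 2
-/

set_option autoImplicit false

open MeasureTheory Set Filter Topology
open scoped ENNReal RealInnerProductSpace

namespace Pool.Agent.Helper20.RG

open Pool.Agent.Helper68.LM (Pl BB Bd Av HL ft fm DQ)

/-- the list of lengths: blocks `b = 0, 1, ..`, each with the `16 u` steps `l = 0, .., 16 u`;
`om u b (16 u) = om u (b+1) 0` -/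
def om (u b l : ℕ) : ℕ := 2 ^ b * (1024 * u ^ 2 + 64 * u * l)

/-- the number of steps of the blocks `0, .., 3u` -/
noncomputable def Ms (u : ℕ) : ℝ := 16 * u * (3 * u + 1)

/-- class `b`, window `i`, threshold `κ η`: the chord operator is large at the length
`om u (b-1) (16u-i)`, and (for `b ≤ 3u`) it changes by more than `κ η/Ms` in the block `b` -/
def Ew (Zf : ℕ → ℤ → ℕ → Pl → ℝ) (u : ℕ) (η : ℝ) (b i : ℕ) (κ : ℝ) (k : ℤ) (j : ℕ) : Set Pl :=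
  {x | κ * η < |Zf (om u (b - 1) (16 * u - i)) k j x| ∧
    (b ≤ 3 * u → ∃ l < 16 * u, κ * η / Ms u < |Zf (om u b l) k j x - Zf (om u b (l + 1)) k j x|)}

/-- persistence class `b` at the point `x` -/
def Pe (Zf : ℕ → ℤ → ℕ → Pl → ℝ) (u : ℕ) (η : ℝ) (b : ℕ) (k : ℤ) (x : Pl) : Set ℕ :=
  {j | j < 2 ^ u ∧ (∀ b' < b, ∀ l ≤ 16 * u, η / 2 ≤ |Zf (om u b' l) k j x|) ∧
    (b ≤ 3 * u → ∃ l < 16 * u, η / (2 * Ms u) ≤
      |Zf (om u b l) k j x - Zf (om u b (l + 1)) k j x|)}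

/-- the number `T + W (1 + 2^u A T^(-1/σ))` -/
noncomputable def mu (u : ℕ) (A σ W T : ℝ) : ℝ := T + W * (1 + (2 : ℝ) ^ u * (A * T ^ (-(1 / σ))))

/-- bound for the number of slopes within `2^(-γ/16)`, `γ = 2^(b-1) 64 u` -/
noncomputable def ns (u b : ℕ) (A σ : ℝ) : ℝ :=
  1 + (2 : ℝ) ^ u * (A * ((2 : ℝ) ^ (b + 1) * u) ^ (-(1 / σ)))

/-- The numerical situation of a class: `2^u Λ` is large, `η` is the threshold, `m₁` the number of hits -/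
def Num (u : ℕ) (σ q Λ η m₁ : ℝ) : Prop :=
  0 < Λ ∧ Λ ≤ 2 ∧ (2 : ℝ) ^ ((q - σ) / 2 * u) ≤ (2 : ℝ) ^ u * Λ ∧ Λ / (u : ℝ) ^ 6 ≤ η ∧ η ≤ 1 ∧
    m₁ = (2 : ℝ) ^ u * Λ / ((u : ℝ) ^ 6 * (3 * u + 2) * η)

/-- all averages of `g` around `x` are at most `Λ` -/
def Loc (Cf Λ : ℝ) (g : Pl → ℝ) (x : Pl) : Prop :=
  ∀ k : ℤ, ∫⁻ y in Sq x (Cf * (2 : ℝ) ^ k), ‖g y‖ₑ ≤ ENNReal.ofReal (Λ * (4 : ℝ) ^ k)

/-- slopes: `|s j| ≤ 1` and separation -/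
def Slo (u : ℕ) (A σ : ℝ) (s : ℕ → ℝ) : Prop :=
  (∀ j < 2 ^ u, |s j| ≤ 1) ∧ ∀ (τ : ℝ) (i : ℕ), 1 ≤ i →
    ({j : ℕ | j < 2 ^ u ∧ |s j - τ| ≤ (2 : ℝ) ^ (-(i : ℤ))}.ncard : ℝ) ≤
      1 + (2 : ℝ) ^ u * (A * (i : ℝ) ^ (-(1 / σ)))

/-- the number `K` of level `u` -/
noncomputable def KA (A σ : ℝ) (u : ℕ) : ℕ := u + 1 + ⌈(A * (2 : ℝ) ^ u) ^ σ⌉₊

/-- A piece of the boundary of `Ω`: the graph of `φ` over `[0,ℓ]` in the orthonormal frame `(u,v)` with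
origin `P`; the slopes `τ t` are those of supporting lines, `Ω` lies above. -/
structure Piece (Ω : Set Pl) (P u v : Pl) (ℓ : ℝ) (φ τ : ℝ → ℝ) : Prop where
  nu : ‖u‖ = 1
  nv : ‖v‖ = 1
  uv : ⟪u, v⟫ = 0
  pos : 0 < ℓ
  graph : Graph φ τ
  fr : ∀ t ∈ Ioo 0 ℓ, P + t • u + φ t • v ∈ frontier Ω
  sup : ∀ t ∈ Ioo 0 ℓ, ∀ z ∈ Ω, 0 ≤ ⟪z - (P + t • u + φ t • v), v - τ t • u⟫

/-- the measure `dt` on a piece -/
noncomputable def pme (P u v : Pl) (ℓ : ℝ) (φ : ℝ → ℝ) : Measure Pl :=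
  (volume.restrict (Icc (0 : ℝ) ℓ)).map (fun t => P + t • u + φ t • v)

/-- the maximal operator of the measure `ν` is bounded on `L^p` (nonnegative functions) -/
def MaxB (ν : Measure Pl) (p : ℝ) : Prop :=
  ∃ C : ℝ, 0 < C ∧ ∀ f : Pl → ℝ≥0∞, Measurable f →
    ∫⁻ x, (⨆ k : ℤ, ∫⁻ y, f (x - (2 : ℝ) ^ k • y) ∂ν) ^ p ≤ ENNReal.ofReal C * ∫⁻ x, f x ^ p

end Pool.Agent.Helper20.RG
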